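import Mathlib

/-!
# Tuza type inequality for (k-1)-covers of k-uniform families: definitions

Everything is about finite families of `k`-element finsets (blocks) of a type `V`. A *row* of a
block is one of its `(k-1)`-element subsets. Two blocks *meet* if they have at least `k-1` common
elements. A *packing* is a family of blocks no two of which meet. `Std k TT F`: `F` is a maximum
packing in the family `TT` of `k`-sets.
-/

set_option autoImplicit false

open Finset

namespace TZ

variable {V : Type*} [DecidableEq V]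

/-- `S` and `T` have at least `k-1` common elements -/
def Meet (k : ℕ) (S T : Finset V) : Prop := k ≤ (S ∩ T).card + 1

instance instDecMeet (k : ℕ) (S T : Finset V) : Decidable (Meet k S T) :=
  inferInstanceAs (Decidable (k ≤ (S ∩ T).card + 1))

/-- no two different members meet -/
def Pack (k : ℕ) (F : Finset (Finset V)) : Prop :=
  ∀ S ∈ F, ∀ T ∈ F, S ≠ T → ¬ Meet k S T

/-- `F` is a maximum packing in the family `TT` of `k`-sets -/
structure Std (k : ℕ) (TT F : Finset (Finset V)) : Prop where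
  three : 3 ≤ k
  card : ∀ T ∈ TT, T.card = k
  sub : F ⊆ TT
  pack : Pack k F
  max : ∀ F' ⊆ TT, Pack k F' → F'.card ≤ F.card

/-- the rows of a block -/
def rows (k : ℕ) (T : Finset V) : Finset (Finset V) := T.powersetCard (k - 1)

/-- the rows of the members of `F` -/
def UU (k : ℕ) (F : Finset (Finset V)) : Finset (Finset V) := F.biUnion (rows k)

/-- the members of `F` that `T` meets -/
def tch (k : ℕ) (F : Finset (Finset V)) (T : Finset V) : Finset (Finset V) :=
  F.filter (fun S => Meet k T S)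

/-- the members of `TT \ F` that meet exactly `t` members of `F` -/
def NS (k : ℕ) (TT F : Finset (Finset V)) (t : ℕ) : Finset (Finset V) :=
  (TT \ F).filter (fun T => (tch k F T).card = t)

/-- the number of members of `P` with the row `e` -/
def deg (k : ℕ) (P : Finset (Finset V)) (e : Finset V) : ℕ := (P.filter (fun T => e ∈ rows k T)).card

/-- different and meeting -/
def Cf (k : ℕ) (S T : Finset V) : Prop := S ≠ T ∧ Meet k S T

instance instDecCf (k : ℕ) (S T : Finset V) : Decidable (Cf k S T) :=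
  inferInstanceAs (Decidable (S ≠ T ∧ Meet k S T))

/-- `C` is a set of rows such that every member of `TT` has a row in `C` -/
def Cover (k : ℕ) (TT C : Finset (Finset V)) : Prop :=
  (∀ c ∈ C, c.card + 1 = k) ∧ ∀ T ∈ TT, ∃ c ∈ C, c ⊆ T

/-! ### graphs on a finset: ordered edges and ordered triangles -/

/-- number of ordered pairs `(x,y)` in `P` with `adj x y` -/
def E2 {α : Type*} (P : Finset α) (adj : α → α → Prop) [DecidableRel adj] : ℕ :=
  ((P ×ˢ P).filter (fun p => adj p.1 p.2)).card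

/-- number of ordered triangles -/
def T3 {α : Type*} (P : Finset α) (adj : α → α → Prop) [DecidableRel adj] : ℕ :=
  ((P ×ˢ P ×ˢ P).filter (fun p => adj p.1 p.2.1 ∧ adj p.1 p.2.2 ∧ adj p.2.1 p.2.2)).card

/-! ### random subsets -/

/-- the expectation of `f X`, where `X` is a random subset of `F`, every element is taken with
probability `q` -/
noncomputable def smp {κ : Type*} [DecidableEq κ] (q : ℝ) (F : Finset κ) (f : Finset κ → ℝ) : ℝ :=
  ∑ X ∈ F.powerset, q ^ X.card * (1 - q) ^ (F.card - X.card) * f X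

/-! ### colourings -/

open Classical in
/-- the number of colourings `V → ZMod m` with the property `p` -/
noncomputable def cnt (V : Type*) [Fintype V] (m : ℕ) [NeZero m] (p : (V → ZMod m) → Prop) : ℕ :=
  (univ.filter p).card

open Classical in
/-- the colours of `f` add up to zero and every colour is used less than `s` times -/
def Good {V : Type*} {m : ℕ} (s : ℕ) (c : V → ZMod m) (f : Finset V) : Prop :=
  ∑ v ∈ f, c v = 0 ∧ ∀ a : ZMod m, (f.filter (fun v => c v = a)).card < s

/-! ### constants -/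

/-- the constant `L` of the key lemma -/
noncomputable def LL (t : ℕ) : ℝ := 2048 * 2 ^ t / (t + 2)

/-- the constant `η` of the key lemma -/
noncomputable def eta (t : ℕ) : ℝ := 1 / (200 * (2 ^ t + 8 * t ^ 2))

/-- `Σ_E` of the key lemma -/
noncomputable def SE (k t : ℕ) (Bh BU q : ℝ) : ℝ :=
  k * Bh * q ^ t + (t * BU + 2 * k * t) * q ^ (t - 1) + 2 * t ^ 2 * q

/-- `Σ_T` of the key lemma -/
noncomputable def ST (k t : ℕ) (Bh BU q : ℝ) : ℝ :=
  k * Bh * (Bh + k + 1) * q ^ (2 * t) +
    3 * ((t * BU + 2 * k * t) * q ^ (t - 1) + 2 * t ^ 2 * q) *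
      (k * Bh * q ^ t + (t * BU + 4 * k * t) * q ^ (t - 1) + 8 * t ^ 2)

/-- the density used for the members of `NS t`: `qq m t ^ (t-1) = 10 * 2^t * LL t / m^t` -/
noncomputable def qq (m t : ℕ) : ℝ := (10 * 2 ^ t * LL t / (m : ℝ) ^ t) ^ ((1 : ℝ) / ((t : ℝ) - 1))

/-- the conditions of the key lemma -/
structure Cond (k t : ℕ) (q₀ : ℝ) : Prop where
  pos : 0 < q₀
  le_one : q₀ ≤ 1
  c1 : 2 * k * t * q₀ ^ (t - 1) ≤ eta t
  c2 : 2 * t ^ 2 * q₀ ≤ eta t
  c3 : 4 ^ t ≤ (k : ℝ) / 16
  c4 : 2 ^ t * ((k : ℝ) + 1) * q₀ ^ t ≤ 1 / 16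

/-- the parameters of the final proof -/
structure Params (A k s m : ℕ) (q : ℕ → ℝ) : Prop where
  hs2 : 2 ≤ s
  hsk : s + 1 < k
  hm : 1 ≤ m
  hmk : 4 * (A + 1) * m ≤ k
  hbin : 16 * (k - 1).choose s * m ≤ m ^ s
  hms : 2000 * s ≤ m ^ 2
  cond : ∀ t ∈ Icc 2 s, Cond k t (q t)
  sumG : ∑ t ∈ Icc 2 s, 2048 * (k : ℝ) * q t ≤ 1 / 20
  sumR : ∑ t ∈ Icc 2 s, (2 * (t : ℝ) ^ 2 + 3 * (t : ℝ) ^ 2 * Real.log k) * (LL t / eta t) ≤ (m : ℝ) / 100
  sumW : ∑ t ∈ Icc 2 s, LL t / (q t ^ (t - 1) * (m : ℝ) ^ t) ≤ 1 / 20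

end TZ
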