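import Mathlib
import Pool.Agent.Lib.MP_1f562f_co.T.Defs

/-!
# TZ GeoA: elementary facts on two k-sets (easy)

All of them are immediate from `card_union_add_card_inter` / `card_le_card` / `eq_of_subset_of_card_le`.
`inter_card`: `S ∩ T` is a proper subset of `S` because `S ≠ T` have the same size, so its size is at most
`k - 1`, and at least `k - 1` by `Meet`. `eq_inter_of_row`: `e ⊆ S ∩ T` and both have `k-1` elements.
-/

set_option autoImplicit false

open Finset

namespace TZ

variable {V : Type*} [DecidableEq V] {k : ℕ} {S T e : Finset V}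

theorem meet_comm : Meet k S T ↔ Meet k T S := by
  unfold Meet
  rw [inter_comm]

theorem meet_self (hS : S.card = k) : Meet k S S := by
  unfold Meet
  rw [inter_self, hS]
  exact Nat.le_succ k

theorem inter_card (hS : S.card = k) (hT : T.card = k) (hne : S ≠ T) (h : Meet k S T) :
    (S ∩ T).card + 1 = k := by
  unfold Meet at h
  have h1 : (S ∩ T).card ≤ S.card := card_le_card inter_subset_left
  have h2 : (S ∩ T).card ≠ S.card := by
    intro h3
    have h4 : S ∩ T = S := eq_of_subset_of_card_le inter_subset_left h3.ge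
    have h5 : S ⊆ T := inter_eq_left.mp h4
    exact hne (eq_of_subset_of_card_le h5 (by omega))
  omega

theorem union_card (hS : S.card = k) (hT : T.card = k) (hne : S ≠ T) (h : Meet k S T) :
    (S ∪ T).card = k + 1 := by
  have h1 := inter_card hS hT hne h
  have h2 := card_union_add_card_inter S T
  omega

theorem meet_of_row (he : e.card + 1 = k) (h1 : e ⊆ S) (h2 : e ⊆ T) : Meet k S T := by
  unfold Meet
  have := card_le_card (subset_inter h1 h2)
  omega

theorem eq_inter_of_row (he : e.card + 1 = k) (hS : S.card = k) (hT : T.card = k) (hne : S ≠ T)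
    (h1 : e ⊆ S) (h2 : e ⊆ T) : e = S ∩ T := by
  have h3 := inter_card hS hT hne (meet_of_row he h1 h2)
  exact eq_of_subset_of_card_le (subset_inter h1 h2) (by omega)

theorem mem_rows (hk : 1 ≤ k) : e ∈ rows k T ↔ e ⊆ T ∧ e.card + 1 = k := by
  unfold rows
  rw [mem_powersetCard]
  constructor
  · rintro ⟨h1, h2⟩
    exact ⟨h1, by omega⟩
  · rintro ⟨h1, h2⟩
    exact ⟨h1, by omega⟩

theorem card_rows (hk : 1 ≤ k) (hT : T.card = k) : (rows k T).card = k := by
  unfold rows
  rw [card_powersetCard, hT]
  obtain ⟨j, rfl⟩ : ∃ j, k = j + 1 := ⟨k - 1, by omega⟩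
  rw [Nat.add_sub_cancel, Nat.choose_succ_self_right]

/-- a row of `T` is `T.erase v` for exactly one `v ∈ T` -/
theorem row_eq_erase (hT : T.card = k) (he : e.card + 1 = k) (h1 : e ⊆ T) :
    ∃ v ∈ T, e = T.erase v := by
  have h2 : e ≠ T := by
    intro h
    rw [h] at he
    omega
  obtain ⟨v, hv, hve⟩ := exists_of_ssubset (Finset.ssubset_iff_subset_ne.mpr ⟨h1, h2⟩)
  refine ⟨v, hv, ?_⟩
  have h3 : e ⊆ T.erase v := fun x hx =>
    mem_erase.mpr ⟨fun hxv => hve (hxv ▸ hx), h1 hx⟩
  apply eq_of_subset_of_card_le h3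
  rw [card_erase_of_mem hv]
  omega

end TZ
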