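import Mathlib
import Pool.Agent.Lib.MP_1f562f_co.T.GeoA

/-!
# TZ StdA: elementary facts on a maximum packing (easy/medium)

`owner_unique`: two different members of `F` do not meet, but a common row makes them meet (`meet_of_row`).
`card_UU`: the sets `rows k S`, `S ∈ F`, are pairwise disjoint (`owner_unique`) and have `k` elements (`card_biUnion`).
`exch` (exchange): `(F \ X) ∪ I` is a packing in `TT`: a member of `I` meets only members of `tch k F T ⊆ X`.
`(F \ X) ∩ I = ∅`: if `T ∈ I ∩ F` then `T ∈ tch k F T ⊆ X` (a block meets itself). So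
`|F| - |X| + |I| ≤ |F|` by maximality.
`tch_nonempty`: otherwise `exch` with `I = {T}`, `X = ∅`.
`tch_self`: `F` is a packing.
`inter_mem_UU`: `T ≠ S` (as `T ∉ F`), so `inter_card`; `T ∩ S ⊆ S ∈ F`.
`row_UU`: `e ⊆ S` for an `S ∈ F`, so `T` meets `S` and `e = T ∩ S` (`eq_inter_of_row`).
`inter_inj`: `owner_unique` for `e = T ∩ S`.
`card_rows_UU`: the filter is the image of `tch k F T` under the injective map `S ↦ T ∩ S`.
-/

set_option autoImplicit false

open Finset

namespace TZ

variable {V : Type*} [DecidableEq V] {k : ℕ} {TT F : Finset (Finset V)}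

theorem mem_tch {S T : Finset V} : S ∈ tch k F T ↔ S ∈ F ∧ Meet k T S := by
  unfold tch
  rw [Finset.mem_filter]

theorem mem_UU (h : Std k TT F) {e : Finset V} :
    e ∈ UU k F ↔ e.card + 1 = k ∧ ∃ S ∈ F, e ⊆ S := by
  have hk : 1 ≤ k := le_trans (by norm_num) h.three
  unfold UU
  rw [Finset.mem_biUnion]
  constructor
  · rintro ⟨S, hS, he⟩
    rw [mem_rows hk] at he
    exact ⟨he.2, S, hS, he.1⟩
  · rintro ⟨hc, S, hS, he⟩
    refine ⟨S, hS, ?_⟩
    rw [mem_rows hk]
    exact ⟨he, hc⟩

theorem owner_unique (h : Std k TT F) {e S S' : Finset V} (he : e.card + 1 = k) (hS : S ∈ F)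
    (hS' : S' ∈ F) (h1 : e ⊆ S) (h2 : e ⊆ S') : S = S' := by
  by_contra hne
  exact h.pack S hS S' hS' hne (meet_of_row he h1 h2)

theorem card_UU (h : Std k TT F) : (UU k F).card = k * F.card := by
  have hk : 1 ≤ k := le_trans (by norm_num) h.three
  unfold UU
  rw [Finset.card_biUnion]
  · have h1 : ∀ S ∈ F, (rows k S).card = k := fun S hS => card_rows hk (h.card S (h.sub hS))
    rw [Finset.sum_congr rfl h1, Finset.sum_const, smul_eq_mul, mul_comm]
  · intro S hS S' hS' hne
    refine Finset.disjoint_left.mpr ?_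
    intro e he he'
    rw [mem_rows hk] at he he'
    exact hne (owner_unique h he.2 hS hS' he.1 he'.1)

theorem exch (h : Std k TT F) {I X : Finset (Finset V)} (hI : I ⊆ TT) (hp : Pack k I)
    (hX : X ⊆ F) (ht : ∀ T ∈ I, tch k F T ⊆ X) : I.card ≤ X.card := by
  have hdis : Disjoint (F \ X) I := by
    rw [Finset.disjoint_left]
    intro T hT hTI
    rw [Finset.mem_sdiff] at hT
    apply hT.2
    apply ht T hTI
    rw [mem_tch]
    exact ⟨hT.1, meet_self (h.card T (hI hTI))⟩
  have hsub : (F \ X) ∪ I ⊆ TT := by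
    intro T hT
    rw [Finset.mem_union, Finset.mem_sdiff] at hT
    rcases hT with hT | hT
    · exact h.sub hT.1
    · exact hI hT
  have hmix : ∀ S ∈ F \ X, ∀ T ∈ I, ¬ Meet k T S := by
    intro S hS T hT hm
    rw [Finset.mem_sdiff] at hS
    exact hS.2 (ht T hT (mem_tch.mpr ⟨hS.1, hm⟩))
  have hpack : Pack k ((F \ X) ∪ I) := by
    intro S hS T hT hne
    rw [Finset.mem_union] at hS hT
    rcases hS with hS | hS
    · rcases hT with hT | hT
      · exact h.pack S (Finset.mem_sdiff.mp hS).1 T (Finset.mem_sdiff.mp hT).1 hne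
      · intro hm
        exact hmix S hS T hT (meet_comm.mp hm)
    · rcases hT with hT | hT
      · exact hmix T hT S hS
      · exact hp S hS T hT hne
  have h1 := h.max _ hsub hpack
  rw [Finset.card_union_of_disjoint hdis, Finset.card_sdiff_of_subset hX] at h1
  have h2 := Finset.card_le_card hX
  omega

theorem tch_nonempty (h : Std k TT F) {T : Finset V} (hT : T ∈ TT) : (tch k F T).Nonempty := by
  by_contra hne
  rw [Finset.not_nonempty_iff_eq_empty] at hne
  have h1 : ({T} : Finset (Finset V)).card ≤ (∅ : Finset (Finset V)).card := by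
    refine exch h (I := {T}) (X := ∅) ?_ ?_ (Finset.empty_subset _) ?_
    · exact Finset.singleton_subset_iff.mpr hT
    · intro S hS S' hS' hn
      rw [Finset.mem_singleton] at hS hS'
      exact absurd (hS.trans hS'.symm) hn
    · intro S hS
      rw [Finset.mem_singleton] at hS
      rw [hS, hne]
  simp at h1

theorem tch_self (h : Std k TT F) {S : Finset V} (hS : S ∈ F) : tch k F S = {S} := by
  ext S'
  rw [mem_tch, Finset.mem_singleton]
  constructor
  · rintro ⟨hS', hm⟩
    by_contra hne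
    exact h.pack S hS S' hS' (fun hh => hne hh.symm) hm
  · intro hh
    rw [hh]
    exact ⟨hS, meet_self (h.card S (h.sub hS))⟩

theorem inter_mem_UU (h : Std k TT F) {T S : Finset V} (hT : T ∈ TT) (hTF : T ∉ F)
    (hS : S ∈ tch k F T) : T ∩ S ∈ UU k F ∧ (T ∩ S).card + 1 = k := by
  rw [mem_tch] at hS
  have hne : T ≠ S := by
    intro hh
    exact hTF (hh ▸ hS.1)
  have hc := inter_card (h.card T hT) (h.card S (h.sub hS.1)) hne hS.2
  refine ⟨?_, hc⟩
  rw [mem_UU h]
  exact ⟨hc, S, hS.1, Finset.inter_subset_right⟩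

theorem row_UU (h : Std k TT F) {T e : Finset V} (hT : T ∈ TT) (hTF : T ∉ F)
    (he : e ∈ rows k T) (heU : e ∈ UU k F) : ∃ S ∈ tch k F T, e = T ∩ S := by
  have hk : 1 ≤ k := le_trans (by norm_num) h.three
  rw [mem_rows hk] at he
  rw [mem_UU h] at heU
  obtain ⟨hc, S, hS, heS⟩ := heU
  have hne : T ≠ S := by
    intro hh
    exact hTF (hh ▸ hS)
  refine ⟨S, ?_, ?_⟩
  · rw [mem_tch]
    exact ⟨hS, meet_of_row hc he.1 heS⟩
  · exact eq_inter_of_row hc (h.card T hT) (h.card S (h.sub hS)) hne he.1 heS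

theorem inter_inj (h : Std k TT F) {T S S' : Finset V} (hT : T ∈ TT) (hTF : T ∉ F)
    (hS : S ∈ tch k F T) (hS' : S' ∈ tch k F T) (he : T ∩ S = T ∩ S') : S = S' := by
  have h1 := inter_mem_UU h hT hTF hS
  refine owner_unique h h1.2 (mem_tch.mp hS).1 (mem_tch.mp hS').1 Finset.inter_subset_right ?_
  rw [he]
  exact Finset.inter_subset_right

theorem card_rows_UU (h : Std k TT F) {T : Finset V} (hT : T ∈ TT) (hTF : T ∉ F) :
    ((rows k T).filter (fun e => e ∈ UU k F)).card = (tch k F T).card := by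
  have hk : 1 ≤ k := le_trans (by norm_num) h.three
  have himg : (rows k T).filter (fun e => e ∈ UU k F) = (tch k F T).image (fun S => T ∩ S) := by
    ext e
    rw [Finset.mem_filter, Finset.mem_image]
    constructor
    · rintro ⟨he, heU⟩
      obtain ⟨S, hS, hes⟩ := row_UU h hT hTF he heU
      exact ⟨S, hS, hes.symm⟩
    · rintro ⟨S, hS, rfl⟩
      have h1 := inter_mem_UU h hT hTF hS
      refine ⟨?_, h1.1⟩
      rw [mem_rows hk]
      exact ⟨Finset.inter_subset_left, h1.2⟩
  rw [himg, Finset.card_image_of_injOn]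
  intro S hS S' hS' he
  exact inter_inj h hT hTF (Finset.mem_coe.mp hS) (Finset.mem_coe.mp hS') he

end TZ
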