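import Mathlib
import Pool.Agent.Lib.MP_1f562f_co.T.Defs
import Pool.Agent.Lib.MP_1f562f_co.T.GeoA
import Pool.Agent.Lib.MP_1f562f_co.T.StdA

section

section

/-!
# TZ ColA: counting colourings V → ZMod m with linear conditions (medium)

`cnt V m p` = number of colourings with property `p` (see Defs).
`cnt_sum_zero`: `c ↦ ∑_{v∈f} c v` is a surjective homomorphism onto `ZMod m` (`f` nonempty); or: fix `w ∈ f`, the colouring is determined by
its restriction to `V \ {w}` (bijection), so the number is `m^(|V|-1)`.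
`cnt_eq_sum_le`: condition `c v = ∑_T c` for all `v ∈ J`, `J` a proper subset of `T`. The homomorphism
`φ : (V → ZMod m) → (J → ZMod m)`, `φ(c)_v = c v - ∑_T c`, is surjective: given `a`, put `c v = a v` on `J`, `c w = - ∑ a v` for one `w ∈ T \ J`, and
0 elsewhere: `∑_T c = 0`, `φ c = a`. So its kernel has exactly `m^|V| / m^|J|` elements. (Alternative: the translates of the set by these `c`,
`a : J → ZMod m`, are pairwise disjoint, there are `m^|J|` of them: injection (c, a) ↦ c + lift a.)
`cnt_const_le`: `A` a nonempty proper subset of `f`: `c` constant on `A` and `∑_f c = 0`. Same idea with translates: for `a : A → ZMod m` let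
`lift a` be the colouring with `a v` on `A`, `- ∑ a v` at one fixed `w ∈ f \ A`, 0 elsewhere. Problem: constant vectors `a` keep the set.
So use instead: fix `v₀ ∈ A`; shifts `a` supported on `A \ {v₀}` and additionally a shift by `b : ZMod m` at `w`, i.e. (c, a, b) ↦ c + (a on A \ {v₀}, and
`b - ∑ a` at `w`); from the image `c'` recover `a v = c' v - c' v₀` and `b = ∑_f c'`. This is injective into all colourings; number of shifts
`m^(|A|-1) * m = m^|A|`.
`cnt_const_le` is the only one with a `∃ a` in the property.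
-/

set_option autoImplicit false

open Finset

namespace TZ

variable {V : Type*} [DecidableEq V] [Fintype V] {m : ℕ} [NeZero m]

theorem cnt_mono {p p' : (V → ZMod m) → Prop} (h : ∀ c, p c → p' c) :
    cnt V m p ≤ cnt V m p' := by
  classical
  unfold cnt
  apply card_le_card
  intro c hc
  rw [mem_filter] at hc ⊢
  exact ⟨hc.1, h c hc.2⟩

theorem cnt_true : cnt V m (fun _ => True) = m ^ Fintype.card V := by
  classical
  simp [cnt, ZMod.card]

/-- extension by zero -/
private def ext0 (J : Finset V) (g : J → ZMod m) (v : V) : ZMod m :=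
  if hv : v ∈ J then g ⟨v, hv⟩ else 0

/-- injection principle: shifts by `L g` -/
private theorem cnt_mul_le {p : (V → ZMod m) → Prop} (J : Finset V)
    (L : (J → ZMod m) → (V → ZMod m))
    (h : ∀ c c' g g', p c → p c' → c + L g = c' + L g' → g = g') :
    cnt V m p * m ^ J.card ≤ m ^ Fintype.card V := by
  classical
  have h1 : cnt V m p * m ^ J.card =
      ((univ.filter p) ×ˢ (univ : Finset (J → ZMod m))).card := by
    rw [card_product, card_univ]
    unfold cnt
    congr 1
    · congr 1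
      ext c
      simp
    · simp [ZMod.card]
  have h2 : m ^ Fintype.card V = (univ : Finset (V → ZMod m)).card := by simp [ZMod.card]
  rw [h1, h2]
  apply card_le_card_of_injOn (fun x => x.1 + L x.2) (fun _ _ => mem_univ _)
  rintro ⟨c, g⟩ hc ⟨c', g'⟩ hc' heq
  simp only [mem_coe, mem_product, mem_filter, mem_univ, true_and, and_true] at hc hc'
  have heq' : c + L g = c' + L g' := heq
  have hg := h c c' g g' hc hc' heq'
  subst hg
  have : c = c' := add_right_cancel heq'
  rw [this]

theorem cnt_sum_zero (f : Finset V) (hf : f.Nonempty) :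
    cnt V m (fun c => ∑ v ∈ f, c v = 0) * m = m ^ Fintype.card V := by
  classical
  obtain ⟨w, hw⟩ := hf
  have hs : ∀ b : ZMod m, ∑ v ∈ f, (if v = w then b else 0) = b := by
    intro b
    rw [sum_ite_eq' f w, if_pos hw]
  have h1 : cnt V m (fun c => ∑ v ∈ f, c v = 0) * m =
      ((univ.filter fun c : V → ZMod m => ∑ v ∈ f, c v = 0) ×ˢ (univ : Finset (ZMod m))).card := by
    rw [card_product, card_univ, ZMod.card]
    unfold cnt
    congr 2
    ext c
    simp
  have h2 : m ^ Fintype.card V = (univ : Finset (V → ZMod m)).card := by simp [ZMod.card]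
  rw [h1, h2]
  refine card_nbij' (fun x v => x.1 v + if v = w then x.2 else 0)
    (fun c => (fun v => c v - if v = w then ∑ u ∈ f, c u else 0, ∑ u ∈ f, c u)) ?_ ?_ ?_ ?_
  · intro x _
    exact mem_univ _
  · intro c _
    simp only [coe_product, coe_filter, coe_univ, Set.mem_prod, Set.mem_univ, and_true,
      mem_univ, true_and]
    show ∑ v ∈ f, (c v - if v = w then ∑ u ∈ f, c u else 0) = 0
    rw [sum_sub_distrib, hs, sub_self]
  · rintro ⟨c, b⟩ hc
    simp only [coe_product, coe_filter, coe_univ, Set.mem_prod, Set.mem_univ, and_true,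
      mem_univ, true_and] at hc
    have hc' : ∑ v ∈ f, c v = 0 := hc
    have hb : ∑ u ∈ f, (c u + if u = w then b else 0) = b := by
      rw [sum_add_distrib, hs, hc', zero_add]
    simp only [hb]
    refine Prod.ext ?_ rfl
    funext v
    simp
  · intro c _
    funext v
    simp

theorem cnt_const_le (A f : Finset V) (hA : A.Nonempty) (hAf : A ⊂ f) :
    cnt V m (fun c => ∑ v ∈ f, c v = 0 ∧ ∃ a, ∀ v ∈ A, c v = a) * m ^ A.card ≤
      m ^ Fintype.card V := by
  classical
  obtain ⟨v₀, hv₀⟩ := hA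
  obtain ⟨w, hwf, hwA⟩ := exists_of_ssubset hAf
  have hwv : v₀ ≠ w := fun h => hwA (h ▸ hv₀)
  -- the shift
  set L : (A → ZMod m) → (V → ZMod m) := fun g v =>
    (if v ∈ A.erase v₀ then ext0 A g v else 0)
      + (if v = w then ext0 A g v₀ - ∑ u ∈ A.erase v₀, ext0 A g u else 0) with hL
  have hsum : ∀ g, ∑ v ∈ f, L g v = ext0 A g v₀ := by
    intro g
    rw [hL]
    simp only [sum_add_distrib]
    rw [sum_ite_eq' f w, if_pos hwf, ← sum_filter]
    have : f.filter (fun v => v ∈ A.erase v₀) = A.erase v₀ := by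
      ext v
      rw [mem_filter]
      exact ⟨fun h => h.2, fun h => ⟨hAf.1 (mem_of_mem_erase h), h⟩⟩
    rw [this]
    ring
  have hL0 : ∀ g, L g v₀ = 0 := by
    intro g
    simp [hL, hwv]
  have hLv : ∀ g, ∀ v ∈ A, v ≠ v₀ → L g v = ext0 A g v := by
    intro g v hv hne
    have h1 : v ∈ A.erase v₀ := mem_erase.2 ⟨hne, hv⟩
    have h2 : v ≠ w := fun h => hwA (h ▸ hv)
    simp only [hL, if_pos h1, if_neg h2, add_zero]
  clear_value L
  refine cnt_mul_le A L ?_
  rintro c c' g g' ⟨hc, a, ha⟩ ⟨hc', a', ha'⟩ heq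
  have hpt : ∀ v, c v + L g v = c' v + L g' v := fun v => congrFun heq v
  have haa : a = a' := by
    have := hpt v₀
    rwa [hL0, hL0, add_zero, add_zero, ha v₀ hv₀, ha' v₀ hv₀] at this
  have h0 : ext0 A g v₀ = ext0 A g' v₀ := by
    have h1 : ∑ v ∈ f, (c v + L g v) = ∑ v ∈ f, (c' v + L g' v) :=
      sum_congr rfl fun v _ => hpt v
    rwa [sum_add_distrib, sum_add_distrib, hc, hc', zero_add, zero_add, hsum, hsum] at h1
  funext ⟨v, hv⟩
  have e1 : ∀ g : A → ZMod m, ext0 A g v = g ⟨v, hv⟩ := by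
    intro g
    simp [ext0, hv]
  rw [← e1 g, ← e1 g']
  by_cases hvv : v = v₀
  · rw [hvv]; exact h0
  · have := hpt v
    rw [hLv g v hv hvv, hLv g' v hv hvv, ha v hv, ha' v hv, haa] at this
    exact add_left_cancel this

theorem cnt_eq_sum_le (J T : Finset V) (hJ : J ⊂ T) :
    cnt V m (fun c => ∀ v ∈ J, c v = ∑ u ∈ T, c u) * m ^ J.card ≤ m ^ Fintype.card V := by
  classical
  obtain ⟨w, hwT, hwJ⟩ := exists_of_ssubset hJ
  set L : (J → ZMod m) → (V → ZMod m) := fun g v =>
    (if v ∈ J then ext0 J g v else 0)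
      + (if v = w then - ∑ u ∈ J, ext0 J g u else 0) with hL
  have hsum : ∀ g, ∑ v ∈ T, L g v = 0 := by
    intro g
    rw [hL]
    simp only [sum_add_distrib]
    rw [sum_ite_eq' T w, if_pos hwT, ← sum_filter]
    have : T.filter (fun v => v ∈ J) = J := by
      ext v
      rw [mem_filter]
      exact ⟨fun h => h.2, fun h => ⟨hJ.1 h, h⟩⟩
    rw [this]
    ring
  have hLv : ∀ g, ∀ v ∈ J, L g v = ext0 J g v := by
    intro g v hv
    have h2 : v ≠ w := fun h => hwJ (h ▸ hv)
    simp only [hL, if_pos hv, if_neg h2, add_zero]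
  clear_value L
  refine cnt_mul_le J L ?_
  intro c c' g g' hc hc' heq
  have hpt : ∀ v, c v + L g v = c' v + L g' v := fun v => congrFun heq v
  have h0 : ∑ v ∈ T, c v = ∑ v ∈ T, c' v := by
    have h1 : ∑ v ∈ T, (c v + L g v) = ∑ v ∈ T, (c' v + L g' v) :=
      sum_congr rfl fun v _ => hpt v
    rwa [sum_add_distrib, sum_add_distrib, hsum, hsum, add_zero, add_zero] at h1
  funext ⟨v, hv⟩
  have e1 : ∀ g : J → ZMod m, ext0 J g v = g ⟨v, hv⟩ := by
    intro g
    simp [ext0, hv]
  rw [← e1 g, ← e1 g']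
  have := hpt v
  rw [hLv g v hv, hLv g' v hv, hc v hv, hc' v hv, h0] at this
  exact add_left_cancel this

end TZ
end

section

/-!
# TZ GeoB: (G1) and (G2) (easy/medium)

(G1) `two_meet_card_le`: if `S`, `S'` do not meet (`|S ∩ S'| ≤ k-2`), at most 4 blocks `T` meet both.
Proof. `|T ∩ S| ≥ k-1`, `|T ∩ S'| ≥ k-1`, `|T| = k`, so `|T ∩ S ∩ S'| ≥ k-2`; hence `S ∩ S' ⊆ T`, `|S ∩ S'| = k-2`,
and `T ≠ S, S'` (else `S`, `S'` meet), so `|T ∩ S| = |T ∩ S'| = k-1`,
`T = (S ∩ S') ∪ {a} ∪ {b}` with `a ∈ S \ S'`, `b ∈ S' \ S`, and `|S \ S'| = |S' \ S| = 2`. So `P` is contained in the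
image of `(S \ S') ×ˢ (S' \ S)` (4 elements) under `(a, b) ↦ insert a (insert b (S ∩ S'))`.

(G2) `row_meet_card_le`: if `h` is a row not contained in `S`, at most 2 blocks contain `h` and meet `S`.
Proof. `T = insert z h`; `|h ∩ S| ≤ k-2` and `|T ∩ S| ≥ k-1` give `z ∈ S` and `|h ∩ S| = k-2`; `z ∈ S \ h`, which has
`k - (k-2) = 2` elements.
-/

set_option autoImplicit false

open Finset

namespace TZ

variable {V : Type*} [DecidableEq V] {k : ℕ}

/-- the structure of a block meeting two blocks which do not meet -/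
private theorem two_meet_aux_GeoB {S S' T : Finset V} (hS : S.card = k) (hS' : S'.card = k)
    (h : ¬ Meet k S S') (hT : T.card = k) (h1 : Meet k T S) (h2 : Meet k T S') :
    (S ∩ S').card + 2 = k ∧ S ∩ S' ⊆ T ∧ (T ∩ (S \ S')).card = 1 ∧ (T ∩ (S' \ S)).card = 1 := by
  have hne : T ≠ S := by
    rintro rfl
    exact h h2
  have hne' : T ≠ S' := by
    rintro rfl
    exact h (meet_comm.1 h1)
  have c1 : (T ∩ S).card + 1 = k := inter_card hT hS hne h1
  have c2 : (T ∩ S').card + 1 = k := inter_card hT hS' hne' h2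
  have h' : (S ∩ S').card + 1 < k := by
    unfold Meet at h
    omega
  have c3 : ((T ∩ S) ∪ (T ∩ S')).card ≤ k := by
    rw [← hT]
    exact card_le_card (union_subset inter_subset_left inter_subset_left)
  have c4 := card_union_add_card_inter (T ∩ S) (T ∩ S')
  have e1 : (T ∩ S) ∩ (T ∩ S') = T ∩ (S ∩ S') := by
    ext x
    simp only [mem_inter]
    tauto
  rw [e1] at c4
  have c5 : (T ∩ (S ∩ S')).card ≤ (S ∩ S').card := card_le_card inter_subset_right
  have c6 : T ∩ (S ∩ S') = S ∩ S' :=
    eq_of_subset_of_card_le inter_subset_right (by omega)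
  have c7 : (T ∩ (S \ S')).card + (T ∩ (S ∩ S')).card = (T ∩ S).card := by
    rw [← card_union_of_disjoint]
    · congr 1
      ext x
      simp only [mem_union, mem_inter, mem_sdiff]
      tauto
    · rw [disjoint_left]
      intro x hx hx'
      simp only [mem_inter, mem_sdiff] at hx hx'
      exact hx.2.2 hx'.2.2
  have c8 : (T ∩ (S' \ S)).card + (T ∩ (S ∩ S')).card = (T ∩ S').card := by
    rw [← card_union_of_disjoint]
    · congr 1
      ext x
      simp only [mem_union, mem_inter, mem_sdiff]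
      tauto
    · rw [disjoint_left]
      intro x hx hx'
      simp only [mem_inter, mem_sdiff] at hx hx'
      exact hx.2.2 hx'.2.1
  rw [c6] at c4 c7 c8
  exact ⟨by omega, inter_eq_right.1 c6, by omega, by omega⟩

theorem two_meet_card_le {S S' : Finset V} (hS : S.card = k) (hS' : S'.card = k)
    (h : ¬ Meet k S S') (P : Finset (Finset V))
    (hP : ∀ T ∈ P, T.card = k ∧ Meet k T S ∧ Meet k T S') : P.card ≤ 4 := by
  rcases P.eq_empty_or_nonempty with hE | ⟨T₀, hT₀⟩
  · rw [hE]
    simp
  have hT₀' := hP T₀ hT₀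
  have a0 := (two_meet_aux_GeoB hS hS' h hT₀'.1 hT₀'.2.1 hT₀'.2.2).1
  have d1 : (S \ S').card = 2 := by
    have := card_sdiff_add_card_inter S S'
    omega
  have d2 : (S' \ S).card = 2 := by
    have := card_sdiff_add_card_inter S' S
    rw [inter_comm] at this
    omega
  have key : P.card ≤ (powersetCard 1 (S \ S') ×ˢ powersetCard 1 (S' \ S)).card := by
    refine card_le_card_of_injOn (fun T => (T ∩ (S \ S'), T ∩ (S' \ S))) ?_ ?_
    · intro T hT
      obtain ⟨t1, t2, t3⟩ := hP T hT
      obtain ⟨_, _, b3, b4⟩ := two_meet_aux_GeoB hS hS' h t1 t2 t3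
      simp only [coe_product, Set.mem_prod, mem_coe, mem_powersetCard]
      exact ⟨⟨inter_subset_right, b3⟩, ⟨inter_subset_right, b4⟩⟩
    · intro T hT T' hT' heq
      simp only [Prod.mk.injEq] at heq
      have rep : ∀ T ∈ P, T = (S ∩ S') ∪ ((T ∩ (S \ S')) ∪ (T ∩ (S' \ S))) := by
        intro T hT
        obtain ⟨t1, t2, t3⟩ := hP T hT
        obtain ⟨b1, b2, b3, b4⟩ := two_meet_aux_GeoB hS hS' h t1 t2 t3
        symm
        apply eq_of_subset_of_card_le
        · exact union_subset b2 (union_subset inter_subset_left inter_subset_left)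
        · rw [card_union_of_disjoint, card_union_of_disjoint]
          · omega
          · rw [disjoint_left]
            intro x hx hx'
            simp only [mem_inter, mem_sdiff] at hx hx'
            exact hx.2.2 hx'.2.1
          · rw [disjoint_left]
            intro x hx hx'
            simp only [mem_inter, mem_union, mem_sdiff] at hx hx'
            rcases hx' with hx' | hx'
            · exact hx'.2.2 hx.2
            · exact hx'.2.2 hx.1
      rw [rep T hT, rep T' hT', heq.1, heq.2]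
  refine key.trans ?_
  rw [card_product, card_powersetCard, card_powersetCard, d1, d2]
  decide

theorem row_meet_card_le {S h : Finset V} (hS : S.card = k) (hh : h.card + 1 = k)
    (hn : ¬ h ⊆ S) (P : Finset (Finset V))
    (hP : ∀ T ∈ P, T.card = k ∧ h ⊆ T ∧ Meet k T S) : P.card ≤ 2 := by
  rcases P.eq_empty_or_nonempty with hE | ⟨T₀, hT₀⟩
  · rw [hE]
    simp
  have e1 : (h ∩ S).card < h.card := by
    apply card_lt_card
    refine Finset.ssubset_iff_subset_ne.mpr ⟨inter_subset_left, ?_⟩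
    intro he
    exact hn (inter_eq_left.1 he)
  have aux : ∀ T ∈ P, (h ∩ S).card + 2 = k ∧ T \ h ⊆ S \ h ∧ (T \ h).card = 1 := by
    intro T hT
    obtain ⟨t1, t2, t3⟩ := hP T hT
    have f1 : (T \ h).card = 1 := by
      have := card_sdiff_add_card_eq_card t2
      omega
    have f2 : (T ∩ S).card = (h ∩ S).card + ((T \ h) ∩ S).card := by
      rw [← card_union_of_disjoint]
      · congr 1
        ext x
        simp only [mem_union, mem_inter, mem_sdiff]
        constructor
        · rintro ⟨hx, hx'⟩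
          by_cases hxh : x ∈ h
          · exact Or.inl ⟨hxh, hx'⟩
          · exact Or.inr ⟨⟨hx, hxh⟩, hx'⟩
        · rintro (⟨hx, hx'⟩ | ⟨⟨hx, _⟩, hx'⟩)
          · exact ⟨t2 hx, hx'⟩
          · exact ⟨hx, hx'⟩
      · rw [disjoint_left]
        intro x hx hx'
        simp only [mem_inter, mem_sdiff] at hx hx'
        exact hx'.1.2 hx.1
    have f3 : ((T \ h) ∩ S).card ≤ (T \ h).card := card_le_card inter_subset_left
    unfold Meet at t3
    have f4 : (T \ h) ∩ S = T \ h :=
      eq_of_subset_of_card_le inter_subset_left (by omega)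
    refine ⟨by omega, ?_, f1⟩
    intro x hx
    have hx2 : x ∈ (T \ h) ∩ S := by
      rw [f4]
      exact hx
    exact mem_sdiff.2 ⟨(mem_inter.1 hx2).2, (mem_sdiff.1 hx).2⟩
  have g1 : (S \ h).card = 2 := by
    have h1 := card_sdiff_add_card_inter S h
    have h2 := (aux T₀ hT₀).1
    rw [inter_comm] at h1
    omega
  have key : P.card ≤ (powersetCard 1 (S \ h)).card := by
    refine card_le_card_of_injOn (fun T => T \ h) ?_ ?_
    · intro T hT
      have := aux T hT
      exact mem_coe.2 (mem_powersetCard.2 ⟨this.2.1, this.2.2⟩)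
    · intro T hT T' hT' heq
      have r1 : T = (T \ h) ∪ h := (sdiff_union_of_subset (hP T hT).2.1).symm
      have r2 : T' = (T' \ h) ∪ h := (sdiff_union_of_subset (hP T' hT').2.1).symm
      have heq' : T \ h = T' \ h := heq
      rw [r1, r2, heq']
  refine key.trans ?_
  rw [card_powersetCard, g1]
  decide

end TZ
end
end

section

section

/-!
# TZ OneShot: a maximal subfamily with bounded degrees (medium)

Among the `P ⊆ NN` that satisfy both degree bounds (`∅` does) take one of maximum size; `|P| ≤ M0` by `hkey`. Let `G` = the `b` in `P.biUnion ρ` with `¬ isU b` and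
`Bh < 2 deg_P b`, `R` = those with `isU b` and `BU < 2 deg_P b`. Double counting: `∑_{b, ¬ isU b} deg_P b = ∑_{a ∈ P} |(ρ a).filter ¬isU| ≤ k |P|`, so
`|G| Bh ≤ 2 k |P| ≤ 2 k M0`; in the same way `|R| BU ≤ 2 t M0`. If `a ∈ NN` has no `b ∈ ρ a` in `G ∪ R` then `a ∈ P`: otherwise `insert a P` violates a bound
(maximality), i.e. for some `b` (necessarily in `ρ a`, the other degrees do not change) `deg_P b + 1 > Bh` (or `BU`), so `deg_P b > Bh - 1 ≥ Bh/2 ≥ 1`; so `b ∈ P.biUnion ρ` and
`b ∈ G` (or `R`), contradiction. Hence the last filter is contained in `P`.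
-/

set_option autoImplicit false

open Finset

namespace TZ

private theorem dc {α β : Type*} [DecidableEq α] [DecidableEq β] (ρ : α → Finset β) (p : β → Prop)
    [DecidablePred p] (P : Finset α) (G : Finset β) (hG : ∀ b ∈ G, p b) {k : ℕ}
    (hk : ∀ a ∈ P, ((ρ a).filter (fun b => p b)).card ≤ k) {B : ℝ}
    (hB : ∀ b ∈ G, B ≤ 2 * ((P.filter (fun a => b ∈ ρ a)).card : ℝ)) :
    (G.card : ℝ) * B ≤ 2 * k * P.card := by
  have h1 : (G.card : ℝ) * B ≤ ∑ b ∈ G, 2 * ((P.filter (fun a => b ∈ ρ a)).card : ℝ) := by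
    rw [← nsmul_eq_mul, ← Finset.sum_const]
    exact Finset.sum_le_sum hB
  have h2 : ∑ b ∈ G, (P.filter (fun a => b ∈ ρ a)).card ≤ k * P.card := by
    have e1 : ∑ b ∈ G, (P.filter (fun a => b ∈ ρ a)).card =
        ∑ a ∈ P, (G.filter (fun b => b ∈ ρ a)).card := by
      simp_rw [Finset.card_filter]
      exact Finset.sum_comm
    rw [e1, mul_comm, ← smul_eq_mul, ← Finset.sum_const]
    refine Finset.sum_le_sum fun a ha => ?_
    refine le_trans (Finset.card_le_card ?_) (hk a ha)
    intro b hb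
    rw [mem_filter] at hb ⊢
    exact ⟨hb.2, hG b hb.1⟩
  have h3 : (∑ b ∈ G, ((P.filter (fun a => b ∈ ρ a)).card : ℝ)) ≤ k * P.card := by
    exact_mod_cast h2
  rw [← Finset.mul_sum] at h1
  linarith

theorem oneshot {α β : Type*} [DecidableEq α] [DecidableEq β] (ρ : α → Finset β)
    (isU : β → Prop) [DecidablePred isU] (NN : Finset α) {k t : ℕ}
    (hk : ∀ a ∈ NN, ((ρ a).filter (fun b => ¬ isU b)).card ≤ k)
    (ht : ∀ a ∈ NN, ((ρ a).filter (fun b => isU b)).card ≤ t) {Bh BU M0 : ℝ} (hBh : 2 ≤ Bh)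
    (hBU : 2 ≤ BU)
    (hkey : ∀ P ⊆ NN, (∀ b, ¬ isU b → ((P.filter (fun a => b ∈ ρ a)).card : ℝ) ≤ Bh) →
      (∀ b, isU b → ((P.filter (fun a => b ∈ ρ a)).card : ℝ) ≤ BU) → (P.card : ℝ) ≤ M0) :
    ∃ G R : Finset β, (∀ b ∈ G, ¬ isU b) ∧ (∀ b ∈ R, isU b) ∧ (G.card : ℝ) * Bh ≤ 2 * k * M0 ∧
      (R.card : ℝ) * BU ≤ 2 * t * M0 ∧
      ((NN.filter (fun a => ∀ b ∈ G ∪ R, b ∉ ρ a)).card : ℝ) ≤ M0 := by
  classical
  set good : Finset α → Prop := fun P =>
    (∀ b, ¬ isU b → ((P.filter (fun a => b ∈ ρ a)).card : ℝ) ≤ Bh) ∧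
      (∀ b, isU b → ((P.filter (fun a => b ∈ ρ a)).card : ℝ) ≤ BU) with hgood
  obtain ⟨P, hP, hmax⟩ := Finset.exists_max_image (NN.powerset.filter (fun P => good P)) card
    ⟨∅, by
      rw [mem_filter, mem_powerset]
      refine ⟨empty_subset _, fun b _ => ?_, fun b _ => ?_⟩
      · simp
        linarith
      · simp
        linarith⟩
  rw [mem_filter, mem_powerset] at hP
  obtain ⟨hPN, hP1, hP2⟩ := hP
  have hPM : (P.card : ℝ) ≤ M0 := hkey P hPN hP1 hP2
  set G : Finset β := (P.biUnion ρ).filter (fun b => ¬ isU b ∧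
    Bh ≤ 2 * ((P.filter (fun a => b ∈ ρ a)).card : ℝ)) with hGdef
  set R : Finset β := (P.biUnion ρ).filter (fun b => isU b ∧
    BU ≤ 2 * ((P.filter (fun a => b ∈ ρ a)).card : ℝ)) with hRdef
  refine ⟨G, R, fun b hb => ((mem_filter.1 hb).2).1, fun b hb => ((mem_filter.1 hb).2).1, ?_, ?_,
    ?_⟩
  · refine (dc ρ (fun b => ¬ isU b) P G (fun b hb => ((mem_filter.1 hb).2).1)
      (fun a ha => hk a (hPN ha)) (fun b hb => ((mem_filter.1 hb).2).2)).trans ?_
    exact mul_le_mul_of_nonneg_left hPM (by positivity)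
  · refine (dc ρ (fun b => isU b) P R (fun b hb => ((mem_filter.1 hb).2).1)
      (fun a ha => ht a (hPN ha)) (fun b hb => ((mem_filter.1 hb).2).2)).trans ?_
    exact mul_le_mul_of_nonneg_left hPM (by positivity)
  · have hsub : NN.filter (fun a => ∀ b ∈ G ∪ R, b ∉ ρ a) ⊆ P := by
      intro a ha
      rw [mem_filter] at ha
      obtain ⟨haN, hab⟩ := ha
      by_contra haP
      -- the degrees of insert a P
      have hdeg : ∀ b, b ∈ ρ a → (((insert a P).filter (fun a => b ∈ ρ a)).card : ℝ) =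
          ((P.filter (fun a => b ∈ ρ a)).card : ℝ) + 1 := by
        intro b hb
        rw [filter_insert, if_pos hb, card_insert_of_notMem
          (fun h => haP (mem_filter.1 h).1)]
        push_cast
        ring
      have hdeg' : ∀ b, b ∉ ρ a → (insert a P).filter (fun a => b ∈ ρ a) =
          P.filter (fun a => b ∈ ρ a) := by
        intro b hb
        rw [filter_insert, if_neg hb]
      have hin : ∀ b, b ∈ ρ a → 0 < (P.filter (fun a => b ∈ ρ a)).card → b ∈ P.biUnion ρ := by
        intro b _ h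
        obtain ⟨x, hx⟩ := card_pos.1 h
        rw [mem_filter] at hx
        exact mem_biUnion.2 ⟨x, hx.1, hx.2⟩
      have hgood' : good (insert a P) := by
        refine ⟨fun b hb => ?_, fun b hb => ?_⟩
        · by_cases hba : b ∈ ρ a
          · rw [hdeg b hba]
            by_contra hcon
            push Not at hcon
            have h1 : Bh ≤ 2 * ((P.filter (fun a => b ∈ ρ a)).card : ℝ) := by linarith
            have h2 : (0 : ℝ) < ((P.filter (fun a => b ∈ ρ a)).card : ℝ) := by linarith
            have h3 : b ∈ G := mem_filter.2 ⟨hin b hba (by exact_mod_cast h2), hb, h1⟩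
            exact hab b (mem_union_left _ h3) hba
          · rw [hdeg' b hba]
            exact hP1 b hb
        · by_cases hba : b ∈ ρ a
          · rw [hdeg b hba]
            by_contra hcon
            push Not at hcon
            have h1 : BU ≤ 2 * ((P.filter (fun a => b ∈ ρ a)).card : ℝ) := by linarith
            have h2 : (0 : ℝ) < ((P.filter (fun a => b ∈ ρ a)).card : ℝ) := by linarith
            have h3 : b ∈ R := mem_filter.2 ⟨hin b hba (by exact_mod_cast h2), hb, h1⟩
            exact hab b (mem_union_right _ h3) hba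
          · rw [hdeg' b hba]
            exact hP2 b hb
      have h4 := hmax (insert a P) (by
        rw [mem_filter, mem_powerset]
        exact ⟨insert_subset haN hPN, hgood'⟩)
      rw [card_insert_of_notMem haP] at h4
      omega
    have : ((NN.filter (fun a => ∀ b ∈ G ∪ R, b ∉ ρ a)).card : ℝ) ≤ P.card := by
      exact_mod_cast card_le_card hsub
    linarith

end TZ
end

section

/-!
# TZ AksA: the numerical inequality (easy)

If `a ≤ 2 x`: `8 x 2^(x-1) = 4 x 2^x ≥ 2 a 2^x ≥ a (2^x + 1)`. If `2 x < a`: `a 2^x ≤ 4 * 2^a` because `2^a = 2^x 2^(a-x)` and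
`a ≤ 4 * 2^(a-x)` (`a - x > a/2`, `2^y ≥ y + 1`), and `a ≤ 2^a`. (`x - 1` is natural subtraction, harmless for `x = 0`.)
-/

set_option autoImplicit false

namespace TZ

theorem aks_num (a x : ℕ) : a * (2 ^ x + 1) ≤ 8 * (2 ^ a + x * 2 ^ (x - 1)) := by
  by_cases h : a ≤ 2 * x
  · rcases Nat.eq_zero_or_pos x with hx | hx
    · subst hx
      have : a = 0 := by omega
      subst this
      simp
    · obtain ⟨t, rfl⟩ : ∃ t, x = t + 1 := ⟨x - 1, by omega⟩
      rw [Nat.add_sub_cancel]
      have h1 : 1 ≤ 2 ^ t := Nat.one_le_two_pow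
      have h2 : a * 2 ^ t ≤ 2 * (t + 1) * 2 ^ t := Nat.mul_le_mul_right _ h
      have h3 : a * 1 ≤ a * 2 ^ t := Nat.mul_le_mul_left _ h1
      have h4 : a * (2 ^ (t + 1) + 1) = 2 * (a * 2 ^ t) + a * 1 := by
        rw [pow_succ]
        ring
      have h5 : 8 * (2 ^ a + (t + 1) * 2 ^ t) = 8 * 2 ^ a + 4 * (2 * (t + 1) * 2 ^ t) := by
        ring
      rw [h4, h5]
      omega
  · obtain ⟨y, rfl⟩ : ∃ y, a = x + y := ⟨a - x, by omega⟩
    have hy : x < y := by omega
    have h1 : y < 2 ^ y := Nat.lt_two_pow_self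
    have h2 : x + y < 2 ^ (x + y) := Nat.lt_two_pow_self
    have h3 : (x + y) * 2 ^ x ≤ 2 * 2 ^ y * 2 ^ x := Nat.mul_le_mul_right _ (by omega)
    have h4 : 2 * 2 ^ y * 2 ^ x = 2 * 2 ^ (x + y) := by
      rw [pow_add]
      ring
    have h5 : (x + y) * (2 ^ x + 1) = (x + y) * 2 ^ x + (x + y) := by ring
    have h6 : 8 * (2 ^ (x + y) + x * 2 ^ (x - 1)) = 8 * 2 ^ (x + y) + 8 * (x * 2 ^ (x - 1)) := by
      ring
    rw [h5, h6]
    rw [h4] at h3
    omega

end TZ
end

section

/-!
# TZ AvDefs: the random set D and the remaining nonsolos (definitions)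
-/

set_option autoImplicit false

open Finset

namespace TZ

variable {V : Type*} [DecidableEq V]

open Classical in
/-- the rows of members of `F`, outside `R`, that are good for the colouring `c` -/
noncomputable def DC (k s : ℕ) (F R : Finset (Finset V)) {m : ℕ} (c : V → ZMod m) :
    Finset (Finset V) :=
  (UU k F \ R).filter (fun e => Good s c e)

/-- the nonsolos without row in `G` all of whose U-rows are in `DC` -/
noncomputable def remC (k s : ℕ) (TT F G R : Finset (Finset V)) {m : ℕ} (c : V → ZMod m) :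
    Finset (Finset V) :=
  (TT \ F).filter (fun T => 2 ≤ (tch k F T).card ∧ (∀ g ∈ G, g ∉ rows k T) ∧
    ∀ S ∈ tch k F T, T ∩ S ∈ DC k s F R c)

end TZ
end

section

/-!
# TZ Smp: random subsets (medium)

`smp q F f = ∑_{X ⊆ F} q^|X| (1-q)^(|F|-|X|) f X`.
`smp_subset`: the `X` with `A ⊆ X ⊆ F` are `A ∪ Y`, `Y ⊆ F \ A`; the sum is `q^|A| ∑_{Y ⊆ F \ A} q^|Y| (1-q)^(|F \ A| - |Y|) = q^|A|`
(`Finset.prod_add`/`Finset.sum_pow_mul_eq_add_pow`: `∑_{Y ∈ B.powerset} q^|Y| (1-q)^(|B|-|Y|) = (q + (1-q))^|B| = 1`).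
`smp_count`: `|I.filter| = ∑_{i∈I} (if Φ i ⊆ X then 1 else 0)`, exchange sums. `smp_card`: `|X| = ∑_{a ∈ F} (if {a} ⊆ X then 1 else 0)` for `X ⊆ F`.
-/

set_option autoImplicit false

open Finset

namespace TZ

variable {κ : Type*} [DecidableEq κ] {q : ℝ} {F : Finset κ}

theorem smp_mono (hq0 : 0 ≤ q) (hq1 : q ≤ 1) {f g : Finset κ → ℝ} (h : ∀ X ⊆ F, f X ≤ g X) :
    smp q F f ≤ smp q F g := by
  unfold smp
  refine Finset.sum_le_sum fun X hX => ?_
  rw [mem_powerset] at hX
  have h1 : 0 ≤ 1 - q := by linarith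
  exact mul_le_mul_of_nonneg_left (h X hX) (by positivity)

theorem smp_add (f g : Finset κ → ℝ) :
    smp q F (fun X => f X + g X) = smp q F f + smp q F g := by
  unfold smp
  rw [← Finset.sum_add_distrib]
  exact Finset.sum_congr rfl fun X _ => by ring

theorem smp_mul (a : ℝ) (f : Finset κ → ℝ) : smp q F (fun X => a * f X) = a * smp q F f := by
  unfold smp
  rw [Finset.mul_sum]
  exact Finset.sum_congr rfl fun X _ => by ring

private theorem smp_congr_aux {f g : Finset κ → ℝ} (h : ∀ X ⊆ F, f X = g X) :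
    smp q F f = smp q F g := by
  unfold smp
  refine Finset.sum_congr rfl fun X hX => ?_
  rw [mem_powerset] at hX
  rw [h X hX]

theorem smp_subset {A : Finset κ} (hA : A ⊆ F) :
    smp q F (fun X => if A ⊆ X then 1 else 0) = q ^ A.card := by
  have h1 : ∏ a ∈ F, (q + (if a ∈ A then 0 else 1 - q)) = q ^ A.card := by
    rw [← Finset.prod_sdiff hA]
    have e1 : ∏ a ∈ F \ A, (q + (if a ∈ A then 0 else 1 - q)) = 1 := by
      apply Finset.prod_eq_one
      intro a ha
      rw [if_neg (mem_sdiff.1 ha).2]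
      ring
    have e2 : ∏ a ∈ A, (q + (if a ∈ A then 0 else 1 - q)) = q ^ A.card := by
      rw [Finset.prod_congr rfl (g := fun _ => q), Finset.prod_const]
      intro a ha
      rw [if_pos ha]
      ring
    rw [e1, e2, one_mul]
  rw [← h1, Finset.prod_add]
  unfold smp
  refine Finset.sum_congr rfl fun X hX => ?_
  rw [mem_powerset] at hX
  rw [Finset.prod_const, mul_assoc]
  congr 1
  beta_reduce
  by_cases hAX : A ⊆ X
  · rw [if_pos hAX, mul_one, Finset.prod_congr rfl (g := fun _ => 1 - q), Finset.prod_const,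
      Finset.card_sdiff_of_subset hX]
    intro a ha
    rw [if_neg]
    intro haA
    exact (mem_sdiff.1 ha).2 (hAX haA)
  · rw [if_neg hAX, mul_zero]
    obtain ⟨a, ha, hax⟩ := Finset.not_subset.1 hAX
    symm
    apply Finset.prod_eq_zero (i := a) (mem_sdiff.2 ⟨hA ha, hax⟩)
    rw [if_pos ha]

theorem smp_count {ι : Type*} (I : Finset ι) (Φ : ι → Finset κ) (hΦ : ∀ i ∈ I, Φ i ⊆ F) :
    smp q F (fun X => ((I.filter (fun i => Φ i ⊆ X)).card : ℝ)) = ∑ i ∈ I, q ^ (Φ i).card := by
  have h1 : ∀ X : Finset κ, ((I.filter (fun i => Φ i ⊆ X)).card : ℝ) =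
      ∑ i ∈ I, if Φ i ⊆ X then (1 : ℝ) else 0 := by
    intro X
    rw [Finset.sum_boole]
  have h2 : smp q F (fun X => ((I.filter (fun i => Φ i ⊆ X)).card : ℝ)) =
      ∑ i ∈ I, smp q F (fun X => if Φ i ⊆ X then 1 else 0) := by
    unfold smp
    rw [Finset.sum_comm]
    refine Finset.sum_congr rfl fun X _ => ?_
    beta_reduce
    rw [h1, Finset.mul_sum]
  rw [h2]
  exact Finset.sum_congr rfl fun i hi => smp_subset (hΦ i hi)

theorem smp_card : smp q F (fun X => (X.card : ℝ)) = q * F.card := by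
  have h1 : smp q F (fun X => (X.card : ℝ)) =
      smp q F (fun X => ((F.filter (fun a => ({a} : Finset κ) ⊆ X)).card : ℝ)) := by
    apply smp_congr_aux
    intro X hX
    congr 2
    ext a
    rw [mem_filter, singleton_subset_iff]
    exact ⟨fun h => ⟨hX h, h⟩, fun h => h.2⟩
  rw [h1, smp_count F (fun a => {a}) (fun a ha => singleton_subset_iff.2 ha)]
  simp only [card_singleton, pow_one, Finset.sum_const, nsmul_eq_mul]
  ring

end TZ
end

section

/-!
# TZ AksB: the vertex lemma (Shearer / Alon-Spencer) (medium)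

`Ind P adj` = independent subsets of `P`. Let `N = P.filter (adj v)`; `N` is independent (`htri`). Partition `Ind P adj` according to
`S = W \ insert v N` (`Finset.sum_fiberwise`/`card_eq_sum_card_fiberwise` for the map `W ↦ W \ insert v N`). For an `S` in the image of this map let
`Y = N.filter (no neighbour in S)`, `x = |Y|`. The fibre of `S` consists exactly of the `2^x` sets `S ∪ Z`, `Z ⊆ Y`, and of `S ∪ {v}` (`v` has no neighbour in
`S` because `S ∩ N = ∅`; if `v ∈ W` then `W ∩ N = ∅`). So the fibre has `2^x + 1` elements, and the sum over the fibre of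
`(if v ∈ W then 2^a else 0) + |W.filter (adj v)|` is `2^a + ∑_{Z ⊆ Y} |Z| = 2^a + x 2^(x-1)` (`(S ∪ Z).filter (adj v) = Z`). Use `aks_num`.
-/

set_option autoImplicit false

open Finset

namespace TZ

/-- independent subsets of `P` -/
def Ind {α : Type*} (P : Finset α) (adj : α → α → Prop) [DecidableRel adj] : Finset (Finset α) :=
  P.powerset.filter (fun W => ∀ x ∈ W, ∀ y ∈ W, ¬ adj x y)

private theorem aks_sum_card {α : Type*} [DecidableEq α] (Y : Finset α) :
    ∑ Z ∈ Y.powerset, Z.card = Y.card * 2 ^ (Y.card - 1) := by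
  induction Y using Finset.induction_on with
  | empty => simp
  | insert y Y hy ih =>
    rw [Finset.sum_powerset_insert hy, ih, card_insert_of_notMem hy]
    have h1 : ∑ t ∈ Y.powerset, (insert y t).card = ∑ t ∈ Y.powerset, (t.card + 1) := by
      refine sum_congr rfl fun t ht => ?_
      exact card_insert_of_notMem (fun h => hy (mem_powerset.1 ht h))
    rw [h1, sum_add_distrib, ih, sum_const, card_powerset, smul_eq_mul, mul_one,
      Nat.add_sub_cancel]
    rcases Nat.eq_zero_or_pos Y.card with h0 | h0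
    · rw [h0]; norm_num
    · obtain ⟨n, hn⟩ : ∃ n, Y.card = n + 1 := ⟨Y.card - 1, by omega⟩
      rw [hn, Nat.add_sub_cancel, pow_succ]
      ring

private theorem mem_Ind {α : Type*} {P : Finset α} {adj : α → α → Prop} [DecidableRel adj]
    {W : Finset α} : W ∈ Ind P adj ↔ W ⊆ P ∧ ∀ x ∈ W, ∀ y ∈ W, ¬ adj x y := by
  simp [Ind]

theorem aks_vertex {α : Type*} [DecidableEq α] (P : Finset α) (adj : α → α → Prop)
    [DecidableRel adj] (hs : ∀ x y, adj x y → adj y x) (hi : ∀ x, ¬ adj x x) {v : α} (hv : v ∈ P)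
    (htri : ∀ x ∈ P, ∀ y ∈ P, adj v x → adj v y → ¬ adj x y) (a : ℕ) :
    a * (Ind P adj).card ≤
      8 * ∑ W ∈ Ind P adj, ((if v ∈ W then 2 ^ a else 0) + (W.filter (fun w => adj v w)).card) := by
  set N := P.filter (fun w => adj v w) with hN
  have hmN : ∀ w, w ∈ N ↔ w ∈ P ∧ adj v w := fun w => by simp [hN]
  set φ : Finset α → Finset α := fun W => W \ insert v N with hφ
  set f : Finset α → ℕ := fun W =>
    (if v ∈ W then 2 ^ a else 0) + (W.filter (fun w => adj v w)).card with hf
  have key : ∀ S ∈ (Ind P adj).image φ,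
      a * ((Ind P adj).filter (fun W => φ W = S)).card ≤
        8 * ∑ W ∈ (Ind P adj).filter (fun W => φ W = S), f W := by
    intro S hS
    obtain ⟨W₀, hW₀, rfl⟩ := mem_image.1 hS
    rw [mem_Ind] at hW₀
    set S := φ W₀ with hSdef
    have hSW : S ⊆ W₀ := sdiff_subset
    have hSP : S ⊆ P := hSW.trans hW₀.1
    have hvS : v ∉ S := fun h => (mem_sdiff.1 h).2 (mem_insert_self _ _)
    have hSN : ∀ w ∈ S, w ∉ N := fun w h h' => (mem_sdiff.1 h).2 (mem_insert_of_mem h')
    have hvs : ∀ w ∈ S, ¬ adj v w := fun w h h' => hSN w h ((hmN w).2 ⟨hSP h, h'⟩)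
    have hSi : ∀ x ∈ S, ∀ y ∈ S, ¬ adj x y := fun x hx y hy => hW₀.2 x (hSW hx) y (hSW hy)
    set Y := N.filter (fun y => ∀ s ∈ S, ¬ adj y s) with hY
    have hmY : ∀ y, y ∈ Y ↔ (y ∈ P ∧ adj v y) ∧ ∀ s ∈ S, ¬ adj y s := fun y => by
      rw [hY, mem_filter, hmN]
    have hvY : v ∉ Y := fun h => hi v ((hmY v).1 h).1.2
    have hfib : (Ind P adj).filter (fun W => φ W = S) =
        insert (insert v S) (Y.powerset.image (fun Z => S ∪ Z)) := by
      ext W
      rw [mem_filter, mem_Ind, mem_insert, mem_image]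
      constructor
      · rintro ⟨⟨hWP, hWi⟩, hWS⟩
        by_cases hvW : v ∈ W
        · left
          rw [← hWS]
          ext w
          simp only [hφ, mem_insert, mem_sdiff, hmN]
          constructor
          · intro hw
            by_cases hwv : w = v
            · exact Or.inl hwv
            · refine Or.inr ⟨hw, ?_⟩
              rintro (h | h)
              · exact hwv h
              · exact hWi v hvW w hw h.2
          · rintro (h | h)
            · rw [h]; exact hvW
            · exact h.1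
        · right
          refine ⟨W ∩ N, ?_, ?_⟩
          · rw [mem_powerset]
            intro y hy
            rw [mem_inter] at hy
            refine (hmY y).2 ⟨(hmN y).1 hy.2, fun s hs' => ?_⟩
            rw [← hWS] at hs'
            exact hWi y hy.1 s (mem_sdiff.1 hs').1
          · rw [← hWS]
            ext w
            simp only [hφ, mem_union, mem_sdiff, mem_inter, mem_insert]
            constructor
            · rintro (h | h)
              · exact h.1
              · exact h.1
            · intro hw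
              by_cases hwN : w ∈ N
              · exact Or.inr ⟨hw, hwN⟩
              · refine Or.inl ⟨hw, ?_⟩
                rintro (h | h)
                · exact hvW (h ▸ hw)
                · exact hwN h
      · rintro (rfl | ⟨Z, hZ, rfl⟩)
        · refine ⟨⟨insert_subset hv hSP, ?_⟩, ?_⟩
          · intro x hx y hy hxy
            rcases mem_insert.1 hx with rfl | hx
            · rcases mem_insert.1 hy with rfl | hy
              · exact hi _ hxy
              · exact hvs y hy hxy
            · rcases mem_insert.1 hy with rfl | hy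
              · exact hvs x hx (hs _ _ hxy)
              · exact hSi x hx y hy hxy
          · ext w
            simp only [hφ, mem_sdiff, mem_insert]
            constructor
            · rintro ⟨h1 | h1, h2⟩
              · exact absurd (Or.inl h1) h2
              · exact h1
            · intro hw
              refine ⟨Or.inr hw, ?_⟩
              rintro (h | h)
              · exact hvS (h ▸ hw)
              · exact hSN w hw h
        · rw [mem_powerset] at hZ
          have hZY : ∀ z ∈ Z, (z ∈ P ∧ adj v z) ∧ ∀ s ∈ S, ¬ adj z s := fun z hz =>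
            (hmY z).1 (hZ hz)
          refine ⟨⟨union_subset hSP (fun z hz => (hZY z hz).1.1), ?_⟩, ?_⟩
          · intro x hx y hy hxy
            rcases mem_union.1 hx with hx | hx
            · rcases mem_union.1 hy with hy | hy
              · exact hSi x hx y hy hxy
              · exact (hZY y hy).2 x hx (hs _ _ hxy)
            · rcases mem_union.1 hy with hy | hy
              · exact (hZY x hx).2 y hy hxy
              · exact htri x (hZY x hx).1.1 y (hZY y hy).1.1 (hZY x hx).1.2 (hZY y hy).1.2 hxy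
          · ext w
            simp only [hφ, mem_sdiff, mem_union, mem_insert]
            constructor
            · rintro ⟨h1 | h1, h2⟩
              · exact h1
              · exact absurd (Or.inr ((hmN w).2 (hZY w h1).1)) h2
            · intro hw
              refine ⟨Or.inl hw, ?_⟩
              rintro (h | h)
              · exact hvS (h ▸ hw)
              · exact hSN w hw h
    have hnot : insert v S ∉ Y.powerset.image (fun Z => S ∪ Z) := by
      rw [mem_image]
      rintro ⟨Z, hZ, h⟩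
      have hvZ : v ∈ S ∪ Z := by rw [h]; exact mem_insert_self _ _
      rcases mem_union.1 hvZ with h' | h'
      · exact hvS h'
      · exact hvY (mem_powerset.1 hZ h')
    have hSY : ∀ Z ∈ Y.powerset, Disjoint S Z := by
      intro Z hZ
      rw [disjoint_left]
      intro w hw hwZ
      exact hvs w hw ((hmY w).1 (mem_powerset.1 hZ hwZ)).1.2
    have hinj : Set.InjOn (fun Z => S ∪ Z) (Y.powerset : Set (Finset α)) := by
      intro Z hZ Z' hZ' h
      have h1 := hSY Z (mem_coe.1 hZ)
      have h2 := hSY Z' (mem_coe.1 hZ')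
      simp only at h
      calc Z = (S ∪ Z) \ S := (union_sdiff_cancel_left h1).symm
        _ = (S ∪ Z') \ S := by rw [h]
        _ = Z' := union_sdiff_cancel_left h2
    rw [hfib, card_insert_of_notMem hnot, card_image_of_injOn hinj, card_powerset,
      sum_insert hnot, sum_image hinj]
    have hf1 : 2 ^ a ≤ f (insert v S) := by
      simp [hf]
    have hf2 : ∑ Z ∈ Y.powerset, f (S ∪ Z) = Y.card * 2 ^ (Y.card - 1) := by
      rw [← aks_sum_card]
      refine sum_congr rfl fun Z hZ => ?_
      have hZ' := mem_powerset.1 hZ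
      have hvn : v ∉ S ∪ Z := by
        rw [mem_union]
        rintro (h | h)
        · exact hvS h
        · exact hvY (hZ' h)
      have hfil : (S ∪ Z).filter (fun w => adj v w) = Z := by
        ext w
        rw [mem_filter, mem_union]
        constructor
        · rintro ⟨h | h, h'⟩
          · exact absurd h' (hvs w h)
          · exact h
        · intro h
          exact ⟨Or.inr h, ((hmY w).1 (hZ' h)).1.2⟩
      simp only [hf, hfil, if_neg hvn, zero_add]
    calc a * (2 ^ Y.card + 1) ≤ 8 * (2 ^ a + Y.card * 2 ^ (Y.card - 1)) := aks_num a Y.card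
      _ ≤ 8 * (f (insert v S) + ∑ Z ∈ Y.powerset, f (S ∪ Z)) := by
        rw [hf2]
        exact Nat.mul_le_mul_left _ (Nat.add_le_add_right hf1 _)
  have h1 : (Ind P adj).card =
      ∑ S ∈ (Ind P adj).image φ, ((Ind P adj).filter (fun W => φ W = S)).card :=
    card_eq_sum_card_image φ (Ind P adj)
  have h2 : ∑ S ∈ (Ind P adj).image φ, ∑ W ∈ (Ind P adj).filter (fun W => φ W = S), f W =
      ∑ W ∈ Ind P adj, f W :=
    sum_fiberwise_of_maps_to (fun W hW => mem_image_of_mem φ hW) f
  rw [← h2, h1, mul_sum, mul_sum]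
  exact sum_le_sum key

end TZ
end

section

/-!
# TZ ColB: good rows of a block (easy)

`good_eq`: `∑_{T.erase v} c = 0`, so `c v = ∑_T c`.
`good_card_le` (C3): if `J` is nonempty pick `v ∈ J` and put `a = ∑_T c`; all `v' ∈ J` have colour `a` (`good_eq`); `T.erase v` contains `J.erase v`, and
colour `a` is used less than `s` times in `T.erase v`: `|J| - 1 < s`.
`cnt_good_le` (C1): `cnt_mono` with `good_eq`, and `cnt_eq_sum_le` (`J ≠ T` because of the sizes).
-/

set_option autoImplicit false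

open Finset

namespace TZ

variable {V : Type*} [DecidableEq V] {m : ℕ}

theorem good_eq {s : ℕ} {c : V → ZMod m} {T : Finset V} {v : V} (hv : v ∈ T)
    (h : Good s c (T.erase v)) : c v = ∑ u ∈ T, c u := by
  rw [← Finset.add_sum_erase T c hv, h.1, add_zero]

theorem good_card_le {s : ℕ} {c : V → ZMod m} {T J : Finset V} (hJ : J ⊆ T)
    (h : ∀ v ∈ J, Good s c (T.erase v)) : J.card ≤ s := by
  rcases J.eq_empty_or_nonempty with rfl | ⟨v, hv⟩
  · simp
  · have h1 := (h v hv).2 (∑ u ∈ T, c u)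
    have h2 : (J.erase v).card < s := by
      refine lt_of_le_of_lt (card_le_card ?_) h1
      intro u hu
      have hu' := mem_erase.1 hu
      rw [mem_filter]
      exact ⟨mem_erase.2 ⟨hu'.1, hJ hu'.2⟩, good_eq (hJ hu'.2) (h u hu'.2)⟩
    rw [card_erase_of_mem hv] at h2
    omega

theorem cnt_good_le [Fintype V] [NeZero m] (s : ℕ) (T J : Finset V) (hJ : J ⊆ T)
    (hc : J.card < T.card) :
    cnt V m (fun c => ∀ v ∈ J, Good s c (T.erase v)) * m ^ J.card ≤ m ^ Fintype.card V := by
  have hJT : J ⊂ T := (Finset.ssubset_iff_subset_ne.2 ⟨hJ, fun h => by rw [h] at hc; exact lt_irrefl _ hc⟩)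
  refine le_trans (Nat.mul_le_mul_right _ (cnt_mono ?_)) (cnt_eq_sum_le J T hJT)
  intro c h v hv
  exact good_eq (hJ hv) (h v hv)

end TZ
end

section

/-!
# TZ ColC: a set is good with probability at least (15/16)/m (medium)

If `∑_f c = 0` but `f` is not good then some colour is used at least `s` times, so there is `A ∈ f.powersetCard s` on which `c` is constant.
Hence `cnt (∑_f c = 0) ≤ cnt (Good s c f) + ∑_{A ∈ f.powersetCard s} cnt (∑_f c = 0 ∧ c constant on A)`. Multiply by `16 * m * m^s`... :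
with `N = m ^ card V`: the first number times `m` is `N` (`cnt_sum_zero`); every term of the sum times `m^s` is at most `N` (`cnt_const_le`, `A` is nonempty since
`s ≥ 1`, proper since `s < |f|`); so `16 N = 16 m cnt(∑=0) ≤ 16 m cnt(Good) + 16 m * choose * N / m^s ≤ 16 m cnt(Good) + N`.
-/

set_option autoImplicit false

open Finset

namespace TZ

variable {V : Type*} [DecidableEq V] [Fintype V] {m : ℕ} [NeZero m]

omit [DecidableEq V] in
open Classical in
/-- union bound, general form -/
private theorem cnt_le_union {ι : Type*} (p g : (V → ZMod m) → Prop) (S : Finset ι)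
    (r : ι → (V → ZMod m) → Prop) (h : ∀ c, p c → g c ∨ ∃ A ∈ S, r A c) :
    cnt V m p ≤ cnt V m g + ∑ A ∈ S, cnt V m (r A) := by
  unfold cnt
  have h1 : univ.filter p ⊆ univ.filter g ∪ S.biUnion fun A => univ.filter (r A) := by
    intro c hc
    rw [mem_filter] at hc
    rw [mem_union, mem_biUnion]
    rcases h c hc.2 with h2 | ⟨A, hA, h2⟩
    · exact Or.inl (mem_filter.2 ⟨mem_univ _, h2⟩)
    · exact Or.inr ⟨A, hA, mem_filter.2 ⟨mem_univ _, h2⟩⟩
  refine (card_le_card h1).trans ((card_union_le _ _).trans ?_)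
  exact Nat.add_le_add_left card_biUnion_le _

omit [DecidableEq V] in
/-- union bound -/
private theorem cnt_union (s : ℕ) (f : Finset V) :
    cnt V m (fun c => ∑ v ∈ f, c v = 0) ≤ cnt V m (fun c => Good s c f) +
      ∑ A ∈ f.powersetCard s, cnt V m (fun c => ∑ v ∈ f, c v = 0 ∧ ∃ a, ∀ v ∈ A, c v = a) := by
  apply cnt_le_union
  intro c hc
  by_cases hg : Good s c f
  · exact Or.inl hg
  · right
    unfold Good at hg
    rw [not_and] at hg
    have h1 := hg hc
    push Not at h1
    obtain ⟨a, ha⟩ := h1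
    obtain ⟨A, hA1, hA2⟩ := exists_subset_card_eq ha
    refine ⟨A, mem_powersetCard.2 ⟨hA1.trans (filter_subset _ _), hA2⟩, hc, a, ?_⟩
    intro v hv
    exact (mem_filter.1 (hA1 hv)).2

theorem cnt_good_ge (s : ℕ) (hs : 1 ≤ s) (f : Finset V) (hf : s < f.card)
    (hbin : 16 * f.card.choose s * m ≤ m ^ s) :
    15 * m ^ Fintype.card V ≤ 16 * m * cnt V m (fun c => Good s c f) := by
  have hfn : f.Nonempty := card_pos.1 (by omega)
  have h1 := cnt_sum_zero (m := m) f hfn
  have h2 := cnt_union (m := m) s f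
  have hm : 0 < m := Nat.pos_of_ne_zero (NeZero.ne m)
  have hms : 0 < m ^ s := Nat.pow_pos hm
  set N := m ^ Fintype.card V
  set g := cnt V m (fun c => Good s c f)
  set Z := cnt V m (fun c => ∑ v ∈ f, c v = 0)
  set S := ∑ A ∈ f.powersetCard s, cnt V m (fun c => ∑ v ∈ f, c v = 0 ∧ ∃ a, ∀ v ∈ A, c v = a) with hS
  have h3 : S * m ^ s ≤ f.card.choose s * N := by
    rw [hS, sum_mul]
    calc ∑ A ∈ f.powersetCard s, cnt V m (fun c => ∑ v ∈ f, c v = 0 ∧ ∃ a, ∀ v ∈ A, c v = a) * m ^ s
        ≤ ∑ _A ∈ f.powersetCard s, N := by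
          refine sum_le_sum fun A hA => ?_
          rw [mem_powersetCard] at hA
          have hA1 : A.Nonempty := card_pos.1 (by omega)
          have hA2 : A ⊂ f := by
            refine Finset.ssubset_iff_subset_ne.2 ⟨hA.1, ?_⟩
            rintro rfl
            omega
          have := cnt_const_le (m := m) A f hA1 hA2
          rw [hA.2] at this
          exact this
      _ = f.card.choose s * N := by
          rw [sum_const, card_powersetCard, smul_eq_mul]
  have h4 : 16 * m * S ≤ N := by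
    apply Nat.le_of_mul_le_mul_right _ hms
    calc 16 * m * S * m ^ s = 16 * m * (S * m ^ s) := by ring
      _ ≤ 16 * m * (f.card.choose s * N) := Nat.mul_le_mul_left _ h3
      _ = (16 * f.card.choose s * m) * N := by ring
      _ ≤ m ^ s * N := Nat.mul_le_mul_right _ hbin
      _ = N * m ^ s := by ring
  have h5 : 16 * N ≤ 16 * m * g + N := by
    calc 16 * N = 16 * m * Z := by rw [← h1]; ring
      _ ≤ 16 * m * (g + S) := Nat.mul_le_mul_left _ h2
      _ = 16 * m * g + 16 * m * S := by ring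
      _ ≤ 16 * m * g + N := Nat.add_le_add_left h4 _
  omega

end TZ
end

section

/-!
# TZ GeoC: (G3) three pairwise meeting blocks (easy)

Put `h = T ∩ T'` (`k-1` elements), `T = insert x h`, `T' = insert x' h`. If `h ⊆ T''` does not hold then
`|T'' ∩ h| ≤ k-2`; since `|T'' ∩ T| ≥ k-1` we get `x ∈ T''` and `|T'' ∩ h| = k-2`, likewise `x' ∈ T''` (`x ≠ x'`), and
`T'' = (T'' ∩ h) ∪ {x, x'} ⊆ T ∪ T'` because `|T''| = k`. (Or: `|T'' ∩ (T ∪ T')| = |T'' ∩ T| + |T'' ∩ T'| - |T'' ∩ T ∩ T'| ≥
2(k-1) - (k-2) = k`.)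
-/

set_option autoImplicit false

open Finset

namespace TZ

variable {V : Type*} [DecidableEq V] {k : ℕ}

theorem triple_meet {T T' T'' : Finset V} (h1 : T.card = k) (h2 : T'.card = k)
    (h3 : T''.card = k) (hne : T ≠ T') (h12 : Meet k T T') (h13 : Meet k T T'')
    (h23 : Meet k T' T'') : T ∩ T' ⊆ T'' ∨ T'' ⊆ T ∪ T' := by
  by_cases hsub : T ∩ T' ⊆ T''
  · exact Or.inl hsub
  · right
    have hc := inter_card h1 h2 hne h12
    have hlt : (T'' ∩ (T ∩ T')).card < (T ∩ T').card := by
      apply Finset.card_lt_card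
      refine ⟨Finset.inter_subset_right, ?_⟩
      intro hh
      exact hsub (fun x hx => (Finset.mem_inter.mp (hh hx)).1)
    have hA : k ≤ (T'' ∩ T).card + 1 := by
      rw [Finset.inter_comm]
      exact h13
    have hB : k ≤ (T'' ∩ T').card + 1 := by
      rw [Finset.inter_comm]
      exact h23
    have hui := Finset.card_union_add_card_inter (T'' ∩ T) (T'' ∩ T')
    have hu : (T'' ∩ T) ∪ (T'' ∩ T') = T'' ∩ (T ∪ T') := by
      ext x
      simp only [Finset.mem_union, Finset.mem_inter]
      tauto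
    have hi : (T'' ∩ T) ∩ (T'' ∩ T') = T'' ∩ (T ∩ T') := by
      ext x
      simp only [Finset.mem_inter]
      tauto
    rw [hu, hi] at hui
    have hle : T''.card ≤ (T'' ∩ (T ∪ T')).card := by omega
    have heq : T'' ∩ (T ∪ T') = T'' := Finset.eq_of_subset_of_card_le Finset.inter_subset_left hle
    exact Finset.inter_eq_left.mp heq

end TZ
end

section

/-!
# TZ AksC: independent sets in triangle-free graphs and the AKS lemma (medium)

`aks_trifree`: sum `aks_vertex` over `v ∈ P` and exchange the sums: `a |P| |Ind| ≤ 8 ∑_{W ∈ Ind} (2^a |W| + ∑_{w ∈ W} deg w)` where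
`∑_{v∈P} |W.filter (adj v)| = ∑_{w∈W} |P.filter (adj w)|` (symmetry). Since `deg ≤ 2^a` the summand is at most `2 * 2^a |W|`. `Ind` is nonempty (`∅`),
so some `W` has `a |P| ≤ 16 * 2^a |W|`.
`aks`: let `P'` = the vertices `v` of `P` with `|P.filter (adj v)| ≤ 2^a` that are in no triangle of `P` (no `x, y ∈ P` with `adj v x`, `adj v y`, `adj x y`).
The number of `v ∈ P` with degree `> 2^a` is at most `E2/2^a`, the number of `v` in a triangle is at most `T3` (map `v` to an ordered triangle `(v, x, y)`; injective).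
So `|P'| ≥ |P| - E2/2^a - T3`; apply `aks_trifree` to `P'`. (If `|P| - E2/2^a - T3` is negative take `I = ∅`, or it comes out automatically.)
-/

set_option autoImplicit false

open Finset

namespace TZ

theorem aks_trifree {α : Type*} [DecidableEq α] (P : Finset α) (adj : α → α → Prop)
    [DecidableRel adj] (hs : ∀ x y, adj x y → adj y x) (hi : ∀ x, ¬ adj x x)
    (htri : ∀ v ∈ P, ∀ x ∈ P, ∀ y ∈ P, adj v x → adj v y → ¬ adj x y) (a : ℕ)
    (hdeg : ∀ v ∈ P, (P.filter (fun w => adj v w)).card ≤ 2 ^ a) :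
    ∃ I ⊆ P, (∀ x ∈ I, ∀ y ∈ I, ¬ adj x y) ∧ a * P.card ≤ 16 * 2 ^ a * I.card := by
  have hne : (Ind P adj).Nonempty := ⟨∅, by simp [Ind]⟩
  have key : ∑ _W ∈ Ind P adj, a * P.card ≤ ∑ W ∈ Ind P adj, 16 * 2 ^ a * W.card := by
    calc ∑ _W ∈ Ind P adj, a * P.card = ∑ v ∈ P, a * (Ind P adj).card := by
          rw [sum_const, sum_const, smul_eq_mul, smul_eq_mul]; ring
      _ ≤ ∑ v ∈ P, 8 * ∑ W ∈ Ind P adj,
            ((if v ∈ W then 2 ^ a else 0) + (W.filter (fun w => adj v w)).card) :=
          sum_le_sum fun v hv => aks_vertex P adj hs hi hv (htri v hv) a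
      _ = ∑ W ∈ Ind P adj, 8 * ∑ v ∈ P,
            ((if v ∈ W then 2 ^ a else 0) + (W.filter (fun w => adj v w)).card) := by
          rw [← mul_sum, sum_comm, mul_sum]
      _ ≤ ∑ W ∈ Ind P adj, 16 * 2 ^ a * W.card := by
          refine sum_le_sum fun W hW => ?_
          have hWP : W ⊆ P := by
            simp only [Ind, mem_filter, mem_powerset] at hW
            exact hW.1
          have h1 : ∑ v ∈ P, (if v ∈ W then 2 ^ a else 0) = W.card * 2 ^ a := by
            rw [← sum_filter, sum_const, smul_eq_mul]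
            congr 2
            ext v
            simp only [mem_filter]
            exact ⟨fun h => h.2, fun h => ⟨hWP h, h⟩⟩
          have h2 : ∑ v ∈ P, (W.filter (fun w => adj v w)).card ≤ W.card * 2 ^ a := by
            have e1 : ∑ v ∈ P, (W.filter (fun w => adj v w)).card
                = ∑ w ∈ W, (P.filter (fun v => adj w v)).card := by
              simp only [card_filter]
              rw [sum_comm]
              refine sum_congr rfl fun w _ => sum_congr rfl fun v _ => ?_
              by_cases h : adj v w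
              · rw [if_pos h, if_pos (hs _ _ h)]
              · rw [if_neg h, if_neg (fun h' => h (hs _ _ h'))]
            rw [e1]
            calc ∑ w ∈ W, (P.filter (fun v => adj w v)).card ≤ ∑ w ∈ W, 2 ^ a :=
                  sum_le_sum fun w hw => hdeg w (hWP hw)
              _ = W.card * 2 ^ a := by rw [sum_const, smul_eq_mul]
          rw [sum_add_distrib, h1]
          nlinarith [h2]
  obtain ⟨W, hW, hWle⟩ := exists_le_of_sum_le hne key
  simp only [Ind, mem_filter, mem_powerset] at hW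
  exact ⟨W, hW.1, hW.2, hWle⟩

theorem aks {α : Type*} [DecidableEq α] (P : Finset α) (adj : α → α → Prop)
    [DecidableRel adj] (hs : ∀ x y, adj x y → adj y x) (hi : ∀ x, ¬ adj x x) (a : ℕ) :
    ∃ I ⊆ P, (∀ x ∈ I, ∀ y ∈ I, ¬ adj x y) ∧
      (a : ℝ) * ((P.card : ℝ) - (E2 P adj : ℝ) / 2 ^ a - (T3 P adj : ℝ)) ≤
        16 * 2 ^ a * (I.card : ℝ) := by
  classical
  set B1 := P.filter (fun v => 2 ^ a < (P.filter (fun w => adj v w)).card) with hB1
  set B2 := P.filter (fun v => ∃ x ∈ P, ∃ y ∈ P, adj v x ∧ adj v y ∧ adj x y) with hB2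
  set P' := P \ (B1 ∪ B2) with hP'
  have hP'P : P' ⊆ P := sdiff_subset
  obtain ⟨I, hI, hind, hle⟩ := aks_trifree P' adj hs hi (by
      intro v hv x hx y hy hvx hvy hxy
      have hv' := mem_sdiff.1 hv
      exact hv'.2 (mem_union_right _ (mem_filter.2 ⟨hv'.1, x, hP'P hx, y, hP'P hy, hvx, hvy, hxy⟩)))
    a (by
      intro v hv
      have hv' := mem_sdiff.1 hv
      have h1 : ¬ (2 ^ a < (P.filter (fun w => adj v w)).card) := fun h =>
        hv'.2 (mem_union_left _ (mem_filter.2 ⟨hv'.1, h⟩))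
      exact le_trans (card_le_card (filter_subset_filter _ hP'P)) (not_lt.1 h1))
  refine ⟨I, hI.trans hP'P, hind, ?_⟩
  have h1 : B1.card * 2 ^ a ≤ E2 P adj := by
    have e1 : E2 P adj = ∑ v ∈ P, (P.filter (fun w => adj v w)).card := by
      unfold E2
      rw [card_filter, sum_product]
      exact sum_congr rfl fun v _ => (card_filter _ _).symm
    rw [e1]
    calc B1.card * 2 ^ a = ∑ v ∈ B1, 2 ^ a := by rw [sum_const, smul_eq_mul]
      _ ≤ ∑ v ∈ B1, (P.filter (fun w => adj v w)).card :=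
          sum_le_sum fun v hv => (mem_filter.1 hv).2.le
      _ ≤ ∑ v ∈ P, (P.filter (fun w => adj v w)).card :=
          sum_le_sum_of_subset (filter_subset _ _)
  have h2 : B2.card ≤ T3 P adj := by
    have : B2 ⊆ ((P ×ˢ P ×ˢ P).filter
        (fun p => adj p.1 p.2.1 ∧ adj p.1 p.2.2 ∧ adj p.2.1 p.2.2)).image Prod.fst := by
      intro v hv
      obtain ⟨hvP, x, hx, y, hy, h⟩ := mem_filter.1 hv
      exact mem_image.2 ⟨(v, x, y), mem_filter.2 ⟨mem_product.2 ⟨hvP, mem_product.2 ⟨hx, hy⟩⟩, h⟩,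
        rfl⟩
    exact (card_le_card this).trans card_image_le
  have h3 : P.card ≤ P'.card + B1.card + B2.card := by
    have e1 := card_le_card_sdiff_add_card (s := P) (t := B1 ∪ B2)
    have e2 := card_union_le B1 B2
    rw [hP']
    omega
  have h2a : (0 : ℝ) < 2 ^ a := by positivity
  have h4 : (B1.card : ℝ) ≤ (E2 P adj : ℝ) / 2 ^ a := by
    rw [le_div_iff₀ h2a]
    exact_mod_cast h1
  have h5 : (B2.card : ℝ) ≤ (T3 P adj : ℝ) := by exact_mod_cast h2
  have h6 : (P.card : ℝ) ≤ P'.card + B1.card + B2.card := by exact_mod_cast h3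
  have h7 : (a : ℝ) * (P'.card : ℝ) ≤ 16 * 2 ^ a * (I.card : ℝ) := by exact_mod_cast hle
  refine le_trans ?_ h7
  refine mul_le_mul_of_nonneg_left ?_ (Nat.cast_nonneg a)
  linarith

end TZ
end

section

/-!
# TZ Bd: families of nonsolos with bounded degrees (definition)
-/

set_option autoImplicit false

open Finset

namespace TZ

variable {V : Type*} [DecidableEq V]

/-- `P` is a family of members of `NS t` with pairwise different `tch`; rows outside `UU` have degree at most
`Bh`, rows in `UU` have degree at most `BU`. -/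
structure Bd (k t : ℕ) (TT F P : Finset (Finset V)) (Bh BU : ℝ) : Prop where
  sub : P ⊆ NS k TT F t
  inj : ∀ T ∈ P, ∀ T' ∈ P, tch k F T = tch k F T' → T = T'
  hBh : 0 ≤ Bh
  hBU : 0 ≤ BU
  bh : ∀ e, e ∉ UU k F → (deg k P e : ℝ) ≤ Bh
  bU : ∀ e ∈ UU k F, (deg k P e : ℝ) ≤ BU

end TZ
end

section

/-!
# TZ AvA: the U-rows of a nonsolo as erased vertices, counting colourings (easy/medium)

`exists_J`: every `T ∩ S`, `S ∈ tch k F T`, is a row of `T` (`inter_mem_UU`), hence `T.erase v` for a `v ∈ T` (`row_eq_erase`); different `S`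
give different `T ∩ S` (`inter_inj`), hence different `v`. `J` = the set of these `v` (image of `tch` under a choice function).
`cnt_all_good`: (i) if `t = |tch| ≤ s < k`: the property implies `Good s c (T.erase v)` for all `v ∈ J`, `|J| = t < k = |T|`, so `cnt_mono`, `cnt_good_le`.
(ii) if `t > s`: `good_card_le` would give `t = |J| ≤ s`.
-/

set_option autoImplicit false

open Finset

namespace TZ

variable {V : Type*} [DecidableEq V] {k : ℕ} {TT F : Finset (Finset V)}

theorem exists_J (h : Std k TT F) {T : Finset V} (hT : T ∈ TT) (hTF : T ∉ F) :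
    ∃ J ⊆ T, J.card = (tch k F T).card ∧ (∀ v ∈ J, ∃ S ∈ tch k F T, T ∩ S = T.erase v) ∧
      ∀ S ∈ tch k F T, ∃ v ∈ J, T ∩ S = T.erase v := by
  classical
  have hex : ∀ S : Finset V, S ∈ tch k F T → ∃ v ∈ T, T ∩ S = T.erase v := by
    intro S hS
    exact row_eq_erase (h.card T hT) (inter_mem_UU h hT hTF hS).2 Finset.inter_subset_left
  have hTne : T.Nonempty := by
    rw [← Finset.card_pos, h.card T hT]
    have := h.three
    omega
  haveI : Nonempty V := ⟨hTne.choose⟩
  choose! f hf using hex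
  refine ⟨(tch k F T).image f, ?_, ?_, ?_, ?_⟩
  · intro v hv
    obtain ⟨S, hS, rfl⟩ := Finset.mem_image.1 hv
    exact (hf S hS).1
  · apply Finset.card_image_of_injOn
    intro S hS S' hS' he
    have hS1 := Finset.mem_coe.1 hS
    have hS2 := Finset.mem_coe.1 hS'
    apply inter_inj h hT hTF hS1 hS2
    have he' : f S = f S' := he
    rw [(hf S hS1).2, (hf S' hS2).2, he']
  · intro v hv
    obtain ⟨S, hS, rfl⟩ := Finset.mem_image.1 hv
    exact ⟨S, hS, (hf S hS).2⟩
  · intro S hS
    exact ⟨f S, Finset.mem_image_of_mem f hS, (hf S hS).2⟩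

theorem cnt_all_good (h : Std k TT F) [Fintype V] {m : ℕ} [NeZero m] {s : ℕ} (hsk : s < k)
    {T : Finset V} (hT : T ∈ TT) (hTF : T ∉ F) (hts : (tch k F T).card ≤ s) :
    cnt V m (fun c => ∀ S ∈ tch k F T, Good s c (T ∩ S)) * m ^ (tch k F T).card ≤
      m ^ Fintype.card V := by
  obtain ⟨J, hJT, hJc, hJ1, _⟩ := exists_J h hT hTF
  rw [← hJc]
  refine le_trans (Nat.mul_le_mul_right _ (cnt_mono ?_)) (cnt_good_le s T J hJT ?_)
  · intro c hc v hv
    obtain ⟨S, hS, hSe⟩ := hJ1 v hv
    rw [← hSe]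
    exact hc S hS
  · rw [hJc, h.card T hT]
    exact lt_of_le_of_lt hts hsk

theorem not_all_good (h : Std k TT F) {m : ℕ} {s : ℕ} {T : Finset V} (hT : T ∈ TT) (hTF : T ∉ F)
    (hts : s < (tch k F T).card) (c : V → ZMod m) :
    ¬ ∀ S ∈ tch k F T, Good s c (T ∩ S) := by
  intro hall
  obtain ⟨J, hJT, hJc, hJ1, _⟩ := exists_J h hT hTF
  have h1 : J.card ≤ s := by
    apply good_card_le (c := c) hJT
    intro v hv
    obtain ⟨S, hS, hSe⟩ := hJ1 v hv
    rw [← hSe]
    exact hall S hS
  omega

end TZ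
end

section

/-!
# TZ NbA: numbers of neighbours (medium)

All members of `P ⊆ NS k TT F t` are in `TT \ F`, have `k` elements and `|tch| = t`.
`nb0`: for `T'` in the filter `e = T ∩ T'` is a row of `T` and of `T'` (`inter_card`, `mem_rows`); `e ∉ UU`: otherwise `e ⊆ S ∈ F` and both `T`, `T'` meet `S`
(`meet_of_row`), contradiction to the disjointness. So the filter is contained in the union over the `e ∈ rows k T`, `e ∉ UU`, of the
`P.filter (e ∈ rows k ·)`, at most `k` sets (`card_rows`) of at most `Bh` members each.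
`nb2`: `T'` in the filter: choose two different `S, S' ∈ tch k F T' ∩ Y`; they do not meet (`h.pack`), at most 4 blocks meet both (`two_meet_card_le`). Sum over
the `2`-element subsets of `Y` (`Y.powersetCard 2`, `C(y,2)` of them; `4 C(y,2) = 2 y (y-1) ≤ 2 y^2`).
-/

set_option autoImplicit false

open Finset

namespace TZ

variable {V : Type*} [DecidableEq V] {k t : ℕ} {TT F P : Finset (Finset V)} {Bh BU : ℝ}

theorem nb0 (h : Std k TT F) (hb : Bd k t TT F P Bh BU) {T : Finset V} (hT : T ∈ P) :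
    ((P.filter (fun T' => Cf k T T' ∧ Disjoint (tch k F T) (tch k F T'))).card : ℝ) ≤
      k * Bh := by
  have hk : 1 ≤ k := le_trans (by norm_num) h.three
  have hTT : ∀ T ∈ P, T ∈ TT := by
    intro T hT
    have h1 := hb.sub hT
    rw [NS, mem_filter, mem_sdiff] at h1
    exact h1.1.1
  have hsub : P.filter (fun T' => Cf k T T' ∧ Disjoint (tch k F T) (tch k F T')) ⊆
      ((rows k T).filter (fun e => e ∉ UU k F)).biUnion (fun e => P.filter (fun T' => e ∈ rows k T')) := by
    intro T' hT'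
    rw [mem_filter] at hT'
    obtain ⟨hP', ⟨hne, hm⟩, hdis⟩ := hT'
    have hc := inter_card (h.card T (hTT T hT)) (h.card T' (hTT T' hP')) hne hm
    rw [mem_biUnion]
    refine ⟨T ∩ T', ?_, ?_⟩
    · rw [mem_filter]
      refine ⟨(mem_rows hk).2 ⟨inter_subset_left, hc⟩, fun hU => ?_⟩
      obtain ⟨-, S, hS, heS⟩ := (mem_UU h).1 hU
      rw [Finset.disjoint_left] at hdis
      exact hdis (mem_tch.2 ⟨hS, meet_of_row hc inter_subset_left heS⟩)
        (mem_tch.2 ⟨hS, meet_of_row hc inter_subset_right heS⟩)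
    · rw [mem_filter]
      exact ⟨hP', (mem_rows hk).2 ⟨inter_subset_right, hc⟩⟩
  have h1 : (P.filter (fun T' => Cf k T T' ∧ Disjoint (tch k F T) (tch k F T'))).card ≤
      ∑ e ∈ (rows k T).filter (fun e => e ∉ UU k F), deg k P e :=
    (card_le_card hsub).trans card_biUnion_le
  have h2 : ((P.filter (fun T' => Cf k T T' ∧ Disjoint (tch k F T) (tch k F T'))).card : ℝ) ≤
      ∑ e ∈ (rows k T).filter (fun e => e ∉ UU k F), (deg k P e : ℝ) := by
    exact_mod_cast h1
  refine h2.trans ?_
  have h3 : ∑ e ∈ (rows k T).filter (fun e => e ∉ UU k F), (deg k P e : ℝ) ≤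
      ∑ _e ∈ (rows k T).filter (fun e => e ∉ UU k F), Bh :=
    sum_le_sum fun e he => hb.bh e (mem_filter.1 he).2
  refine h3.trans ?_
  rw [sum_const, nsmul_eq_mul]
  refine mul_le_mul_of_nonneg_right ?_ hb.hBh
  have h4 : ((rows k T).filter (fun e => e ∉ UU k F)).card ≤ k :=
    (card_filter_le _ _).trans (card_rows hk (h.card T (hTT T hT))).le
  exact_mod_cast h4

theorem nb2 (h : Std k TT F) (hP : P ⊆ TT) (Y : Finset (Finset V)) (hY : Y ⊆ F) :
    (P.filter (fun T' => 2 ≤ (tch k F T' ∩ Y).card)).card ≤ 2 * Y.card ^ 2 := by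
  have hsub : P.filter (fun T' => 2 ≤ (tch k F T' ∩ Y).card) ⊆
      (Y.powersetCard 2).biUnion (fun p => P.filter (fun T' => p ⊆ tch k F T')) := by
    intro T' hT'
    rw [mem_filter] at hT'
    obtain ⟨p, hp, hpc⟩ := Finset.exists_subset_card_eq hT'.2
    rw [mem_biUnion]
    refine ⟨p, mem_powersetCard.2 ⟨hp.trans inter_subset_right, hpc⟩, mem_filter.2 ⟨hT'.1, ?_⟩⟩
    exact hp.trans inter_subset_left
  have h1 : ∀ p ∈ Y.powersetCard 2, (P.filter (fun T' => p ⊆ tch k F T')).card ≤ 4 := by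
    intro p hp
    rw [mem_powersetCard] at hp
    obtain ⟨S, S', hne, rfl⟩ := card_eq_two.1 hp.2
    have hS : S ∈ F := hY (hp.1 (mem_insert_self _ _))
    have hS' : S' ∈ F := hY (hp.1 (mem_insert_of_mem (mem_singleton_self _)))
    refine two_meet_card_le (h.card S (h.sub hS)) (h.card S' (h.sub hS')) (h.pack S hS S' hS' hne) _ ?_
    intro T' hT'
    rw [mem_filter] at hT'
    refine ⟨h.card T' (hP hT'.1), ?_, ?_⟩
    · exact (mem_tch.1 (hT'.2 (mem_insert_self _ _))).2
    · exact (mem_tch.1 (hT'.2 (mem_insert_of_mem (mem_singleton_self _)))).2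
  have h2 : (P.filter (fun T' => 2 ≤ (tch k F T' ∩ Y).card)).card ≤ Y.card.choose 2 * 4 := by
    refine (card_le_card hsub).trans (card_biUnion_le.trans ?_)
    refine (sum_le_sum h1).trans ?_
    rw [sum_const, card_powersetCard, smul_eq_mul]
  refine h2.trans ?_
  rw [Nat.choose_two_right]
  have h3 : Y.card * (Y.card - 1) / 2 * 2 ≤ Y.card * (Y.card - 1) := Nat.div_mul_le_self _ _
  have h4 : Y.card * (Y.card - 1) ≤ Y.card * Y.card := Nat.mul_le_mul_left _ (Nat.sub_le _ _)
  rw [pow_two]
  omega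

end TZ
end

section

/-!
# TZ NbB: numbers of neighbours, continued (medium)

`nb1`: for `T'` in the filter `e = T ∩ T'` is a row of `T` and of `T'`. If `e ∈ UU`: `e` is one of the `t` rows of `T` in `UU` (`card_rows_UU`), each has at most
`BU` members of `P`: together at most `t * BU`. If `e ∉ UU`: `T'` has the row `e ∈ rows k T` and meets an `S ∈ Y ⊆ F`; `e` is not contained in `S` (else `e ∈ UU`,
`mem_UU`), so for every pair `(e, S) ∈ rows k T × Y` there are at most 2 such `T'` (`row_meet_card_le`): together at most `k * |Y| * 2`.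
`nb3`: `e = T ∩ T'` has `k-1` elements and is not in `UU` (as in nb0: otherwise `T`, `T'` touch a common `S`). By `triple_meet` every `T''` in the filter contains `e`
(so `e ∈ rows k T''`, at most `Bh` such members) or is a `k`-subset of the `(k+1)`-set `T ∪ T'` (`union_card`; `k + 1` such subsets).
-/

set_option autoImplicit false

open Finset

namespace TZ

variable {V : Type*} [DecidableEq V] {k t : ℕ} {TT F P : Finset (Finset V)} {Bh BU : ℝ}

theorem nb1 (h : Std k TT F) (hb : Bd k t TT F P Bh BU) {T : Finset V} (hT : T ∈ P)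
    (Y : Finset (Finset V)) (hY : Y ⊆ F) :
    ((P.filter (fun T' => Cf k T T' ∧ (tch k F T' ∩ Y).Nonempty)).card : ℝ) ≤
      t * BU + 2 * k * Y.card := by
  have hk : 1 ≤ k := by have := h.three; omega
  have hNS : ∀ T ∈ P, T ∈ TT ∧ T ∉ F ∧ (tch k F T).card = t ∧ T.card = k := by
    intro T hT
    have h1 := hb.sub hT
    rw [NS, mem_filter, mem_sdiff] at h1
    exact ⟨h1.1.1, h1.1.2, h1.2, h.card T h1.1.1⟩
  obtain ⟨hTT, hTF, hTt, hTk⟩ := hNS T hT
  set A := ((rows k T).filter (fun e => e ∈ UU k F)).biUnion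
    (fun e => P.filter (fun T' => e ∈ rows k T')) with hA
  set B := (((rows k T) ×ˢ Y).filter (fun p => ¬ p.1 ⊆ p.2)).biUnion
    (fun p => P.filter (fun T' => p.1 ⊆ T' ∧ Meet k T' p.2)) with hB
  have hsub : P.filter (fun T' => Cf k T T' ∧ (tch k F T' ∩ Y).Nonempty) ⊆ A ∪ B := by
    intro T' hT'
    rw [mem_filter] at hT'
    obtain ⟨hT'P, ⟨hne, hm⟩, ⟨S, hS⟩⟩ := hT'
    obtain ⟨hTT', hTF', hTt', hTk'⟩ := hNS T' hT'P
    have hc := inter_card hTk hTk' hne hm
    have he1 : T ∩ T' ∈ rows k T := (mem_rows hk).2 ⟨inter_subset_left, hc⟩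
    have he2 : T ∩ T' ∈ rows k T' := (mem_rows hk).2 ⟨inter_subset_right, hc⟩
    by_cases hU : T ∩ T' ∈ UU k F
    · refine mem_union_left _ (mem_biUnion.2 ⟨T ∩ T', mem_filter.2 ⟨he1, hU⟩, ?_⟩)
      exact mem_filter.2 ⟨hT'P, he2⟩
    · rw [mem_inter, mem_tch] at hS
      obtain ⟨⟨hSF, hmS⟩, hSY⟩ := hS
      have hn : ¬ (T ∩ T') ⊆ S := fun hsub => hU ((mem_UU h).2 ⟨hc, S, hSF, hsub⟩)
      refine mem_union_right _ (mem_biUnion.2 ⟨(T ∩ T', S), ?_, ?_⟩)
      · exact mem_filter.2 ⟨mem_product.2 ⟨he1, hSY⟩, hn⟩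
      · exact mem_filter.2 ⟨hT'P, inter_subset_right, hmS⟩
  have hAc : (A.card : ℝ) ≤ t * BU := by
    calc (A.card : ℝ) ≤ ((∑ e ∈ (rows k T).filter (fun e => e ∈ UU k F),
          (P.filter (fun T' => e ∈ rows k T')).card : ℕ) : ℝ) := by
          exact_mod_cast card_biUnion_le
      _ = ∑ e ∈ (rows k T).filter (fun e => e ∈ UU k F), (deg k P e : ℝ) := by
          push_cast; rfl
      _ ≤ ∑ e ∈ (rows k T).filter (fun e => e ∈ UU k F), BU :=
          sum_le_sum fun e he => hb.bU e (mem_filter.1 he).2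
      _ = t * BU := by
          rw [sum_const, card_rows_UU h hTT hTF, hTt, nsmul_eq_mul]
  have hBc : B.card ≤ 2 * k * Y.card := by
    calc B.card ≤ ∑ p ∈ ((rows k T) ×ˢ Y).filter (fun p => ¬ p.1 ⊆ p.2),
          (P.filter (fun T' => p.1 ⊆ T' ∧ Meet k T' p.2)).card := card_biUnion_le
      _ ≤ ∑ p ∈ ((rows k T) ×ˢ Y).filter (fun p => ¬ p.1 ⊆ p.2), 2 := by
          refine sum_le_sum fun p hp => ?_
          rw [mem_filter, mem_product] at hp
          obtain ⟨⟨hp1, hp2⟩, hpn⟩ := hp
          refine row_meet_card_le (k := k) (h.card _ (h.sub (hY hp2))) ((mem_rows hk).1 hp1).2 hpn _ ?_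
          intro T' hT'
          rw [mem_filter] at hT'
          exact ⟨(hNS T' hT'.1).2.2.2, hT'.2.1, hT'.2.2⟩
      _ = (((rows k T) ×ˢ Y).filter (fun p => ¬ p.1 ⊆ p.2)).card * 2 := by
          rw [sum_const, smul_eq_mul]
      _ ≤ ((rows k T) ×ˢ Y).card * 2 := Nat.mul_le_mul_right _ (card_filter_le _ _)
      _ = 2 * k * Y.card := by
          rw [card_product, card_rows hk hTk]; ring
  have hBc' : (B.card : ℝ) ≤ 2 * k * Y.card := by exact_mod_cast hBc
  calc ((P.filter (fun T' => Cf k T T' ∧ (tch k F T' ∩ Y).Nonempty)).card : ℝ)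
      ≤ ((A ∪ B).card : ℝ) := by exact_mod_cast card_le_card hsub
    _ ≤ (A.card : ℝ) + B.card := by exact_mod_cast card_union_le A B
    _ ≤ t * BU + 2 * k * Y.card := add_le_add hAc hBc'

theorem nb3 (h : Std k TT F) (hb : Bd k t TT F P Bh BU) {T T' : Finset V} (hT : T ∈ P)
    (hT' : T' ∈ P) (hc : Cf k T T') (hd : Disjoint (tch k F T) (tch k F T')) :
    ((P.filter (fun T'' => Cf k T T'' ∧ Cf k T' T'')).card : ℝ) ≤ Bh + (k + 1) := by
  have hk : 1 ≤ k := by have := h.three; omega
  have hNS : ∀ T ∈ P, T.card = k := by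
    intro T hT
    have h1 := hb.sub hT
    rw [NS, mem_filter, mem_sdiff] at h1
    exact h.card T h1.1.1
  have hTk := hNS T hT
  have hTk' := hNS T' hT'
  obtain ⟨hne, hm⟩ := hc
  have hcard := inter_card hTk hTk' hne hm
  have hU : T ∩ T' ∉ UU k F := by
    intro hU
    obtain ⟨_, S, hSF, hS⟩ := (mem_UU h).1 hU
    have h1 : S ∈ tch k F T := mem_tch.2 ⟨hSF, meet_of_row hcard inter_subset_left hS⟩
    have h2 : S ∈ tch k F T' := mem_tch.2 ⟨hSF, meet_of_row hcard inter_subset_right hS⟩
    exact (disjoint_left.1 hd) h1 h2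
  have hsub : P.filter (fun T'' => Cf k T T'' ∧ Cf k T' T'') ⊆
      P.filter (fun T'' => T ∩ T' ∈ rows k T'') ∪ (T ∪ T').powersetCard k := by
    intro T'' hT''
    rw [mem_filter] at hT''
    obtain ⟨hP'', h1, h2⟩ := hT''
    have hTk'' := hNS T'' hP''
    rcases triple_meet hTk hTk' hTk'' hne hm h1.2 h2.2 with h3 | h3
    · exact mem_union_left _ (mem_filter.2 ⟨hP'', (mem_rows hk).2 ⟨h3, hcard⟩⟩)
    · exact mem_union_right _ (mem_powersetCard.2 ⟨h3, hTk''⟩)
  have hA : ((P.filter (fun T'' => T ∩ T' ∈ rows k T'')).card : ℝ) ≤ Bh := hb.bh _ hU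
  have hB : ((T ∪ T').powersetCard k).card = k + 1 := by
    rw [card_powersetCard, union_card hTk hTk' hne hm]
    exact Nat.choose_succ_self_right k
  calc ((P.filter (fun T'' => Cf k T T'' ∧ Cf k T' T'')).card : ℝ)
      ≤ ((P.filter (fun T'' => T ∩ T' ∈ rows k T'') ∪ (T ∪ T').powersetCard k).card : ℝ) := by
        exact_mod_cast card_le_card hsub
    _ ≤ ((P.filter (fun T'' => T ∩ T' ∈ rows k T'')).card : ℝ)
          + (((T ∪ T').powersetCard k).card : ℝ) := by exact_mod_cast card_union_le _ _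
    _ ≤ Bh + (k + 1) := by
        rw [hB]; push_cast; linarith

end TZ
end

section

/-!
# TZ AvB: size of the random set DC (medium)

`DC_row_lt`: the members of the filter are rows of `S` (`DC ⊆ UU`, `mem_UU`), so `S.erase v` with `v ∈ S` (`row_eq_erase`); with `J` = the set of the
`v ∈ S` with `Good s c (S.erase v)` the filter is contained in the image of `J` under `S.erase`, and `|J| ≤ s` (`good_card_le`).
`sum_DC`: `∑_c |DC c| = ∑_{e ∈ UU \ R} cnt (Good s · e)` (exchange the sums), every term is at least `15/(16 m) * m^|V|` (`cnt_good_ge` with `f = e`,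
`|e| = k - 1 > s`), and `|UU \ R| = k ν - |R|` (`card_UU`, `hR`).
-/

set_option autoImplicit false

open Finset

namespace TZ

variable {V : Type*} [DecidableEq V] {k : ℕ} {TT F : Finset (Finset V)}

theorem DC_row_le (h : Std k TT F) {s m : ℕ} (R : Finset (Finset V)) (c : V → ZMod m)
    {S : Finset V} (hS : S ∈ F) : ((DC k s F R c).filter (fun e => e ⊆ S)).card ≤ s := by
  classical
  have hSk : S.card = k := h.card S (h.sub hS)
  set J := S.filter (fun v => Good s c (S.erase v)) with hJ
  have h1 : (DC k s F R c).filter (fun e => e ⊆ S) ⊆ J.image (fun v => S.erase v) := by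
    intro e he
    rw [mem_filter] at he
    obtain ⟨he1, he2⟩ := he
    unfold DC at he1
    rw [mem_filter, mem_sdiff] at he1
    obtain ⟨⟨hU, _⟩, hg⟩ := he1
    have hec := ((mem_UU h).1 hU).1
    have hd : (S \ e).card = 1 := by
      rw [card_sdiff_of_subset he2]
      omega
    obtain ⟨v, hv⟩ := card_eq_one.1 hd
    have hvS : v ∈ S \ e := by rw [hv]; exact mem_singleton_self v
    have hee : S.erase v = e := by
      rw [erase_eq, ← hv]
      exact Finset.sdiff_sdiff_eq_self he2
    rw [mem_image]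
    refine ⟨v, ?_, hee⟩
    rw [hJ, mem_filter]
    refine ⟨(mem_sdiff.1 hvS).1, ?_⟩
    rw [hee]
    exact hg
  refine (card_le_card h1).trans (card_image_le.trans ?_)
  exact good_card_le (filter_subset _ _) (fun v hv => (mem_filter.1 hv).2)

theorem sum_DC [Fintype V] (h : Std k TT F) {s m : ℕ} [NeZero m] (hs : 1 ≤ s) (hsk : s + 1 < k)
    (hbin : 16 * (k - 1).choose s * m ≤ m ^ s) (R : Finset (Finset V)) (hR : R ⊆ UU k F) :
    15 / 16 * (((k : ℝ) * F.card - R.card) / m) * (m : ℝ) ^ Fintype.card V ≤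
      ∑ c : V → ZMod m, ((DC k s F R c).card : ℝ) := by
  classical
  have hm : (0 : ℝ) < m := by
    have := Nat.pos_of_ne_zero (NeZero.ne m)
    exact_mod_cast this
  have h1 : ∑ c : V → ZMod m, ((DC k s F R c).card : ℝ) =
      ∑ e ∈ UU k F \ R, (cnt V m (fun c => Good s c e) : ℝ) := by
    have h2 : ∀ c : V → ZMod m, ((DC k s F R c).card : ℝ) =
        ∑ e ∈ UU k F \ R, (if Good s c e then (1 : ℝ) else 0) := by
      intro c
      unfold DC
      rw [Finset.sum_boole]
    rw [Finset.sum_congr rfl (fun c _ => h2 c), Finset.sum_comm]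
    refine Finset.sum_congr rfl fun e _ => ?_
    unfold cnt
    rw [Finset.card_filter, Nat.cast_sum]
    refine Finset.sum_congr (by ext x; simp only [mem_univ]) fun c _ => ?_
    by_cases hg : Good s c e
    · rw [if_pos hg, if_pos hg, Nat.cast_one]
    · rw [if_neg hg, if_neg hg, Nat.cast_zero]
  rw [h1]
  have h3 : ∀ e ∈ UU k F \ R, 15 / 16 / (m : ℝ) * (m : ℝ) ^ Fintype.card V ≤
      (cnt V m (fun c => Good s c e) : ℝ) := by
    intro e he
    have hec := ((mem_UU h).1 (mem_sdiff.1 he).1).1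
    have hek : e.card = k - 1 := by omega
    have h4 := cnt_good_ge (m := m) s hs e (by omega) (by rw [hek]; exact hbin)
    have h5 : (15 : ℝ) * (m : ℝ) ^ Fintype.card V ≤
        16 * m * (cnt V m (fun c => Good s c e) : ℝ) := by exact_mod_cast h4
    rw [div_div, div_mul_eq_mul_div, div_le_iff₀ (by positivity)]
    calc (15 : ℝ) * (m : ℝ) ^ Fintype.card V ≤
        16 * m * (cnt V m (fun c => Good s c e) : ℝ) := h5
      _ = _ := by ring
  have h6 := Finset.sum_le_sum h3
  rw [Finset.sum_const, card_sdiff_of_subset hR, card_UU h, nsmul_eq_mul] at h6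
  have h7 : R.card ≤ k * F.card := by
    rw [← card_UU h]
    exact card_le_card hR
  rw [Nat.cast_sub h7] at h6
  push_cast at h6
  calc 15 / 16 * (((k : ℝ) * F.card - R.card) / m) * (m : ℝ) ^ Fintype.card V
      = ((k : ℝ) * F.card - R.card) * (15 / 16 / (m : ℝ) * (m : ℝ) ^ Fintype.card V) := by ring
    _ ≤ _ := h6

end TZ
end

section

/-!
# TZ AvC: expected number of remaining nonsolos (medium)

Exchange the sums: `∑_c |remC c| = ∑_{T ∈ TT \ F} #{c : T ∈ remC c}`. Let `t = |tch k F T|`. If `T ∈ remC c` for some `c` then `2 ≤ t`, no row of `T` is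
in `G`, no row of `T` is in `R` (a row `e ∈ R ⊆ UU` of `T` is `T ∩ S` with `S ∈ tch` by `row_UU`, but `T ∩ S ∈ DC ⊆ UU \ R`), `Good s c (T ∩ S)` for all
`S ∈ tch`, so `t ≤ s` (`not_all_good`). So only the `T` in `(NS k TT F t).filter (no row in G ∪ R)`, `t ∈ Icc 2 s`, contribute, and each contributes at most
`cnt (∀ S ∈ tch, Good s c (T ∩ S)) ≤ m^|V| / m^t` (`cnt_all_good`).
-/

set_option autoImplicit false

open Finset

namespace TZ

variable {V : Type*} [DecidableEq V] {k : ℕ} {TT F : Finset (Finset V)}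

private lemma mem_DC_aux {s m : ℕ} {R : Finset (Finset V)} {c : V → ZMod m} {e : Finset V}
    (he : e ∈ DC k s F R c) : e ∉ R ∧ Good s c e := by
  unfold DC at he
  have h1 := (@Finset.mem_filter _ _ (_) _ _).1 he
  exact ⟨(mem_sdiff.1 h1.1).2, h1.2⟩

private lemma mem_remC_aux {s m : ℕ} {G R : Finset (Finset V)} {c : V → ZMod m} {T : Finset V}
    (hT : T ∈ remC k s TT F G R c) : 2 ≤ (tch k F T).card ∧ (∀ g ∈ G, g ∉ rows k T) ∧
      ∀ S ∈ tch k F T, T ∩ S ∉ R ∧ Good s c (T ∩ S) := by
  unfold remC at hT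
  have h1 := (@Finset.mem_filter _ _ (_) _ _).1 hT
  exact ⟨h1.2.1, h1.2.2.1, fun S hS => mem_DC_aux (h1.2.2.2 S hS)⟩

private lemma remC_sub_aux {s m : ℕ} {G R : Finset (Finset V)} {c : V → ZMod m} :
    remC k s TT F G R c ⊆ TT \ F := by
  unfold remC
  intro T hT
  exact ((@Finset.mem_filter _ _ (_) _ _).1 hT).1

omit [DecidableEq V] in
private lemma le_cnt_aux [Fintype V] {m : ℕ} [NeZero m] (p : (V → ZMod m) → Prop)
    (A : Finset (V → ZMod m)) (hA : ∀ c ∈ A, p c) : A.card ≤ cnt V m p := by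
  unfold cnt
  refine card_le_card fun c hc => ?_
  exact (@Finset.mem_filter _ _ (_) _ _).2 ⟨@Finset.mem_univ _ (_) _, hA c hc⟩

theorem sum_rem [Fintype V] (h : Std k TT F) {s m : ℕ} [NeZero m] (hsk : s < k)
    (G R : Finset (Finset V)) (hR : R ⊆ UU k F) :
    ∑ c : V → ZMod m, ((remC k s TT F G R c).card : ℝ) ≤
      (∑ t ∈ Icc 2 s, (((NS k TT F t).filter (fun T => ∀ g ∈ G ∪ R, g ∉ rows k T)).card : ℝ) /
        (m : ℝ) ^ t) * (m : ℝ) ^ Fintype.card V := by
  have hm : (0 : ℝ) < m := by
    exact_mod_cast Nat.pos_of_ne_zero (NeZero.ne m)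
  have hsubR : ∀ c : V → ZMod m, remC k s TT F G R c ⊆ TT \ F := by
    intro c
    exact remC_sub_aux
  have h1 : ∀ c : V → ZMod m, ((remC k s TT F G R c).card : ℝ) =
      ∑ T ∈ TT \ F, if T ∈ remC k s TT F G R c then (1 : ℝ) else 0 := by
    intro c
    rw [sum_ite_mem, inter_eq_right.2 (hsubR c)]
    simp
  have h2 : ∀ t, (((NS k TT F t).filter (fun T => ∀ g ∈ G ∪ R, g ∉ rows k T)).card : ℝ) =
      ∑ T ∈ TT \ F, if ((tch k F T).card = t ∧ ∀ g ∈ G ∪ R, g ∉ rows k T)
        then (1 : ℝ) else 0 := by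
    intro t
    unfold NS
    rw [filter_filter, card_filter]
    push_cast
    rfl
  have key : ∀ T ∈ TT \ F, (∑ c : V → ZMod m, if T ∈ remC k s TT F G R c then (1 : ℝ) else 0) ≤
      ∑ t ∈ Icc 2 s, (if ((tch k F T).card = t ∧ ∀ g ∈ G ∪ R, g ∉ rows k T)
        then (1 : ℝ) else 0) / (m : ℝ) ^ t * (m : ℝ) ^ Fintype.card V := by
    intro T hT
    rw [mem_sdiff] at hT
    have hnn : ∀ t ∈ Icc 2 s, 0 ≤ (if ((tch k F T).card = t ∧ ∀ g ∈ G ∪ R, g ∉ rows k T)
        then (1 : ℝ) else 0) / (m : ℝ) ^ t * (m : ℝ) ^ Fintype.card V := by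
      intro t _
      split_ifs <;> positivity
    by_cases hex : ∃ c : V → ZMod m, T ∈ remC k s TT F G R c
    · obtain ⟨c0, hc0⟩ := hex
      obtain ⟨h2t, hG, hDC⟩ := mem_remC_aux hc0
      have hts : (tch k F T).card ≤ s := by
        by_contra hcon
        exact not_all_good h hT.1 hT.2 (not_le.1 hcon) c0 (fun S hS => (hDC S hS).2)
      have hrow : ∀ g ∈ G ∪ R, g ∉ rows k T := by
        intro g hg
        rcases mem_union.1 hg with hg | hg
        · exact hG g hg
        · intro hgT
          obtain ⟨S, hS, rfl⟩ := row_UU h hT.1 hT.2 hgT (hR hg)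
          exact (hDC S hS).1 hg
      have hcnt := cnt_all_good (m := m) h hsk hT.1 hT.2 hts
      have hle : (univ.filter (fun c : V → ZMod m => T ∈ remC k s TT F G R c)).card ≤
          cnt V m (fun c => ∀ S ∈ tch k F T, Good s c (T ∩ S)) :=
        le_cnt_aux _ _ fun c hc S hS => ((mem_remC_aux (mem_filter.1 hc).2).2.2 S hS).2
      have hle2 : ((univ.filter (fun c : V → ZMod m => T ∈ remC k s TT F G R c)).card : ℝ) *
          (m : ℝ) ^ (tch k F T).card ≤ (m : ℝ) ^ Fintype.card V := by
        exact_mod_cast (Nat.mul_le_mul_right _ hle).trans hcnt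
      refine le_trans ?_ (single_le_sum hnn (mem_Icc.2 ⟨h2t, hts⟩))
      rw [if_pos ⟨rfl, hrow⟩, ← sum_filter, sum_const, nsmul_eq_mul, mul_one, one_div,
        inv_mul_eq_div, le_div_iff₀ (by positivity)]
      exact hle2
    · push Not at hex
      rw [sum_eq_zero (fun c _ => if_neg (hex c))]
      exact sum_nonneg hnn
  calc ∑ c : V → ZMod m, ((remC k s TT F G R c).card : ℝ)
      = ∑ c : V → ZMod m, ∑ T ∈ TT \ F, (if T ∈ remC k s TT F G R c then (1 : ℝ) else 0) :=
        sum_congr rfl fun c _ => h1 c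
    _ = ∑ T ∈ TT \ F, ∑ c : V → ZMod m, (if T ∈ remC k s TT F G R c then (1 : ℝ) else 0) :=
        sum_comm
    _ ≤ ∑ T ∈ TT \ F, ∑ t ∈ Icc 2 s,
        (if ((tch k F T).card = t ∧ ∀ g ∈ G ∪ R, g ∉ rows k T)
          then (1 : ℝ) else 0) / (m : ℝ) ^ t * (m : ℝ) ^ Fintype.card V := sum_le_sum key
    _ = ∑ t ∈ Icc 2 s, ∑ T ∈ TT \ F,
        (if ((tch k F T).card = t ∧ ∀ g ∈ G ∪ R, g ∉ rows k T)
          then (1 : ℝ) else 0) / (m : ℝ) ^ t * (m : ℝ) ^ Fintype.card V := sum_comm
    _ = _ := by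
        rw [sum_mul]
        refine sum_congr rfl fun t _ => ?_
        rw [h2 t, sum_div, sum_mul]

end TZ
end

section

/-!
# TZ Inj: at most 4 nonsolos have the same tch (easy)

`exists_inj`: choose one element of every nonempty fibre of `f` on `P` (e.g. induct, or take for every `b ∈ P.image f` a preimage; `P'` = image of the choice function):
`|P| = ∑_{b ∈ P.image f} |fibre| ≤ M |P.image f| = M |P'|` (`Finset.card_eq_sum_card_image`).
`fiber_le`: `P ⊆ NS t`, `t ≥ 2`: if the fibre of `Y` is nonempty then `|Y| = t ≥ 2`, `Y ⊆ F`: take `S ≠ S'` in `Y`; all members of the fibre meet both, and `S`, `S'` do not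
meet (`h.pack`): `two_meet_card_le`.
-/

set_option autoImplicit false

open Finset

namespace TZ

theorem exists_inj {α β : Type*} [DecidableEq α] [DecidableEq β] (P : Finset α) (f : α → β)
    (M : ℕ) (hM : ∀ b, (P.filter (fun a => f a = b)).card ≤ M) :
    ∃ P' ⊆ P, (∀ x ∈ P', ∀ y ∈ P', f x = f y → x = y) ∧ P.card ≤ M * P'.card := by
  have hsurj : Set.SurjOn f (P : Set α) ((P.image f : Finset β) : Set β) := by
    intro b hb
    simpa using hb
  obtain ⟨u, hus, hinj, himg⟩ := Finset.exists_subset_injOn_image_eq_of_surjOn _ _ hsurj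
  refine ⟨u, by exact_mod_cast hus, ?_, ?_⟩
  · intro x hx y hy hxy
    exact hinj (by exact_mod_cast hx) (by exact_mod_cast hy) hxy
  · have hcard : u.card = (P.image f).card := by
      rw [← himg]
      exact (Finset.card_image_of_injOn hinj).symm
    rw [hcard, Finset.card_eq_sum_card_image f P, mul_comm, ← smul_eq_mul, ← Finset.sum_const]
    exact Finset.sum_le_sum fun b _ => hM b

variable {V : Type*} [DecidableEq V] {k t : ℕ} {TT F P : Finset (Finset V)}

theorem fiber_le (h : Std k TT F) (ht : 2 ≤ t) (hP : P ⊆ NS k TT F t) (Y : Finset (Finset V)) :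
    (P.filter (fun T => tch k F T = Y)).card ≤ 4 := by
  rcases (P.filter (fun T => tch k F T = Y)).eq_empty_or_nonempty with hE | ⟨T₀, hT₀⟩
  · rw [hE]; simp
  have hT₀' := Finset.mem_filter.1 hT₀
  have hNS := hP hT₀'.1
  unfold NS at hNS
  have hc : (tch k F T₀).card = t := (Finset.mem_filter.1 hNS).2
  rw [hT₀'.2] at hc
  have h1 : 1 < Y.card := by omega
  obtain ⟨S, hS, S', hS', hne⟩ := Finset.one_lt_card.1 h1
  have hSF : S ∈ F := by
    have : S ∈ tch k F T₀ := by rw [hT₀'.2]; exact hS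
    exact (mem_tch.1 this).1
  have hSF' : S' ∈ F := by
    have : S' ∈ tch k F T₀ := by rw [hT₀'.2]; exact hS'
    exact (mem_tch.1 this).1
  refine two_meet_card_le (h.card S (h.sub hSF)) (h.card S' (h.sub hSF')) (h.pack S hSF S' hSF' hne)
    _ ?_
  intro T hT
  obtain ⟨hTP, hTY⟩ := Finset.mem_filter.1 hT
  have hTNS := hP hTP
  unfold NS at hTNS
  have hTT : T ∈ TT := (Finset.mem_sdiff.1 (Finset.mem_filter.1 hTNS).1).1
  refine ⟨h.card T hTT, ?_, ?_⟩
  · have : S ∈ tch k F T := by rw [hTY]; exact hS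
    exact (mem_tch.1 this).2
  · have : S' ∈ tch k F T := by rw [hTY]; exact hS'
    exact (mem_tch.1 this).2

end TZ
end
end
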