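import Mathlib
import Pool.Agent.Lib.MP_1f562f_co.T.Defs
import Pool.Agent.Lib.MP_1f562f_co.T.StdA

section

section

/-!
# TZ GreedyN: the numerical steps of the greedy algorithm (easy/medium)

`exists_q`: `q = (Λ/N)^(1/n)` (`Real.rpow`, `Real.rpow_natCast`, or continuity).
`step_G`: `x = cG/(q Λ)`. From `N q^n = Λ`: `N q^(n+1) = q Λ`, so `N'/N ≤ 1 - x` and `(q/q')^n = N'/N ≤ 1 - x ≤ (1 - x/n)^n` (Bernoulli `one_add_mul_le_pow`, `x ≤ 1 ≤ n` as
`N' > 0`). So `q/q' ≤ 1 - x/n`, `q' ≥ q/(1 - x/n) ≥ q (1 + x/n) = q + cG/(n Λ)`. (Or directly: if `q' < q + cG/(nΛ)` then ...)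
`step_R`: `(q/q')^n = N'/N ≤ 1 - cR ≤ exp(-cR)`, take logs: `n (log q - log q') ≤ -cR`.
`step_mono`: `N' ≤ N` gives `q ≤ q'`.
-/

set_option autoImplicit false

namespace TZ

theorem exists_q {Λ N : ℝ} (hΛ : 0 < Λ) (hN : 0 < N) {n : ℕ} (hn : 1 ≤ n) :
    ∃ q : ℝ, 0 < q ∧ N * q ^ n = Λ := by
  refine ⟨(Λ / N) ^ ((n : ℝ)⁻¹), Real.rpow_pos_of_pos (div_pos hΛ hN) _, ?_⟩
  rw [Real.rpow_inv_natCast_pow (div_pos hΛ hN).le (by omega)]
  field_simp

theorem step_mono {Λ N N' q q' : ℝ} {n : ℕ} (hn : 1 ≤ n) (hΛ : 0 < Λ) (hq : 0 < q)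
    (hq' : 0 < q') (hN' : 0 < N') (h1 : N * q ^ n = Λ) (h2 : N' * q' ^ n = Λ) (h : N' ≤ N) :
    q ≤ q' := by
  by_contra hc
  rw [not_le] at hc
  have h3 : q' ^ n < q ^ n := pow_lt_pow_left₀ hc hq'.le (by omega)
  have hN : 0 < N := lt_of_lt_of_le hN' h
  have h4 : N' * q' ^ n ≤ N * q' ^ n := mul_le_mul_of_nonneg_right h (by positivity)
  have h5 : N * q' ^ n < N * q ^ n := mul_lt_mul_of_pos_left h3 hN
  linarith

theorem step_G {Λ N N' q q' cG : ℝ} {n : ℕ} (hn : 1 ≤ n) (hΛ : 0 < Λ) (hq : 0 < q)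
    (hq' : 0 < q') (hN' : 0 < N') (hcG : 0 < cG) (h1 : N * q ^ n = Λ) (h2 : N' * q' ^ n = Λ)
    (h : N' * q ^ (n + 1) ≤ N * q ^ (n + 1) - cG) : q + cG / (n * Λ) ≤ q' := by
  by_contra hc
  rw [not_le] at hc
  have hn0 : (0 : ℝ) < n := by exact_mod_cast hn
  have hn1 : (1 : ℝ) ≤ n := by exact_mod_cast hn
  set x : ℝ := cG / (q * Λ) with hx
  have hx0 : 0 < x := by positivity
  have e1 : q + cG / (n * Λ) = q * (1 + x / n) := by
    rw [hx]; field_simp
  have h3 : N' * q ^ n ≤ Λ * (1 - x) := by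
    have h4 : N' * q ^ n * q ≤ Λ * (1 - x) * q := by
      have h5 : Λ * (1 - x) * q = Λ * q - cG := by
        rw [hx]; field_simp
      have h6 : N * q ^ (n + 1) = Λ * q := by rw [pow_succ, ← mul_assoc, h1]
      rw [h5, ← h6, mul_assoc, ← pow_succ]
      exact h
    exact le_of_mul_le_mul_right h4 hq
  have hx1 : 0 < 1 - x := by
    have h4 : 0 < Λ * (1 - x) := lt_of_lt_of_le (by positivity) h3
    exact (pos_iff_pos_of_mul_pos h4).1 hΛ
  have hxn : x / n ≤ 1 := by
    rw [div_le_one hn0]; linarith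
  have hxn0 : 0 < x / n := by positivity
  have hB : 1 - x ≤ (1 - x / n) ^ n := by
    have := one_add_mul_le_pow (a := -(x / n)) (by linarith) n
    have e2 : 1 + (n : ℝ) * -(x / n) = 1 - x := by field_simp; ring
    have e3 : 1 + -(x / n) = 1 - x / n := by ring
    rwa [e2, e3] at this
  have hle : (1 - x) * (1 + x / n) ^ n ≤ 1 := by
    calc (1 - x) * (1 + x / n) ^ n ≤ (1 - x / n) ^ n * (1 + x / n) ^ n :=
          mul_le_mul_of_nonneg_right hB (by positivity)
      _ = ((1 - x / n) * (1 + x / n)) ^ n := (mul_pow _ _ _).symm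
      _ ≤ 1 := by
          apply pow_le_one₀
          · exact mul_nonneg (by linarith) (by linarith)
          · nlinarith [sq_nonneg (x / n)]
  rw [e1] at hc
  have h4 : q' ^ n < (q * (1 + x / n)) ^ n := pow_lt_pow_left₀ hc hq'.le (by omega)
  have h5 : N' * q' ^ n < N' * (q * (1 + x / n)) ^ n := mul_lt_mul_of_pos_left h4 hN'
  rw [mul_pow, ← mul_assoc, h2] at h5
  have h6 : N' * q ^ n * (1 + x / n) ^ n ≤ Λ * (1 - x) * (1 + x / n) ^ n :=
    mul_le_mul_of_nonneg_right h3 (by positivity)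
  have h7 : Λ * (1 - x) * (1 + x / n) ^ n ≤ Λ := by
    rw [mul_assoc]
    calc Λ * ((1 - x) * (1 + x / n) ^ n) ≤ Λ * 1 := mul_le_mul_of_nonneg_left hle hΛ.le
      _ = Λ := mul_one _
  linarith

theorem step_R {Λ N N' q q' cR : ℝ} {n : ℕ} (hn : 1 ≤ n) (hΛ : 0 < Λ) (hq : 0 < q)
    (hq' : 0 < q') (hN' : 0 < N') (hcR : 0 < cR) (h1 : N * q ^ n = Λ) (h2 : N' * q' ^ n = Λ)
    (h : N' ≤ (1 - cR) * N) : Real.log q + cR / n ≤ Real.log q' := by
  have hn0 : (0 : ℝ) < n := by exact_mod_cast hn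
  have hqn : 0 < q ^ n := by positivity
  have h3 : N' * q ^ n ≤ (1 - cR) * Λ := by
    calc N' * q ^ n ≤ (1 - cR) * N * q ^ n := mul_le_mul_of_nonneg_right h hqn.le
      _ = (1 - cR) * Λ := by rw [mul_assoc, h1]
  have h4 : 1 - cR ≤ Real.exp (-cR) := by
    have := Real.add_one_le_exp (-cR); linarith
  have h5 : N' * q ^ n ≤ Real.exp (-cR) * (N' * q' ^ n) := by
    rw [h2]
    exact h3.trans (mul_le_mul_of_nonneg_right h4 hΛ.le)
  have h6 : q ^ n ≤ Real.exp (-cR) * q' ^ n := by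
    have : N' * q ^ n ≤ N' * (Real.exp (-cR) * q' ^ n) := by
      calc N' * q ^ n ≤ Real.exp (-cR) * (N' * q' ^ n) := h5
        _ = N' * (Real.exp (-cR) * q' ^ n) := by ring
    exact le_of_mul_le_mul_left this hN'
  have h7 := Real.log_le_log hqn h6
  rw [Real.log_mul (Real.exp_ne_zero _) (by positivity), Real.log_exp, Real.log_pow,
    Real.log_pow] at h7
  have h8 : (n : ℝ) * (Real.log q + cR / n) ≤ n * Real.log q' := by
    have : (n : ℝ) * (Real.log q + cR / n) = n * Real.log q + cR := by field_simp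
    rw [this]; linarith
  exact le_of_mul_le_mul_left h8 hn0

end TZ
end

section

/-!
# TZ Pairing: a finset of n elements is covered by ⌈n/2⌉ pairs of its elements (easy)

Strong induction on the size: `E = ∅`: `P = ∅`. `E = {a}`: `P = {(a, a)}`. Otherwise take `a ≠ b` in `E`, use the
statement for `E \ {a, b}` and add the pair `(a, b)`.
-/

set_option autoImplicit false

open Finset

namespace TZ

theorem exists_pairing_aux {α : Type*} [DecidableEq α] (n : ℕ) : ∀ E : Finset α, E.card = n →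
    ∃ P : Finset (α × α), P.card ≤ (E.card + 1) / 2 ∧ (∀ p ∈ P, p.1 ∈ E ∧ p.2 ∈ E) ∧
      ∀ e ∈ E, ∃ p ∈ P, p.1 = e ∨ p.2 = e := by
  induction n using Nat.strong_induction_on with
  | _ n ih =>
    intro E hE
    rcases Nat.lt_or_ge n 2 with hn | hn
    · rcases Nat.lt_or_ge n 1 with hn1 | hn1
      · have h0 : E = ∅ := by
          rw [← Finset.card_eq_zero]
          omega
        subst h0
        exact ⟨∅, by simp, by simp, by simp⟩
      · have h1 : E.card = 1 := by omega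
        obtain ⟨a, rfl⟩ := Finset.card_eq_one.mp h1
        refine ⟨{(a, a)}, by simp, by simp, by simp⟩
    · have h2 : 1 < E.card := by omega
      obtain ⟨a, ha, b, hb, hab⟩ := Finset.one_lt_card.mp h2
      have hb' : b ∈ E.erase a := Finset.mem_erase.mpr ⟨hab.symm, hb⟩
      have hc : ((E.erase a).erase b).card = n - 2 := by
        rw [Finset.card_erase_of_mem hb', Finset.card_erase_of_mem ha]
        omega
      obtain ⟨P, hP1, hP2, hP3⟩ := ih (n - 2) (by omega) ((E.erase a).erase b) hc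
      refine ⟨insert (a, b) P, ?_, ?_, ?_⟩
      · refine (Finset.card_insert_le _ _).trans ?_
        omega
      · intro p hp
        rcases Finset.mem_insert.mp hp with rfl | hp
        · exact ⟨ha, hb⟩
        · exact ⟨Finset.mem_of_mem_erase (Finset.mem_of_mem_erase (hP2 p hp).1),
            Finset.mem_of_mem_erase (Finset.mem_of_mem_erase (hP2 p hp).2)⟩
      · intro e he
        by_cases hea : e = a
        · exact ⟨(a, b), Finset.mem_insert_self _ _, Or.inl hea.symm⟩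
        · by_cases heb : e = b
          · exact ⟨(a, b), Finset.mem_insert_self _ _, Or.inr heb.symm⟩
          · obtain ⟨p, hp, hpe⟩ := hP3 e (Finset.mem_erase.mpr ⟨heb, Finset.mem_erase.mpr ⟨hea, he⟩⟩)
            exact ⟨p, Finset.mem_insert_of_mem hp, hpe⟩

theorem exists_pairing {α : Type*} [DecidableEq α] (E : Finset α) :
    ∃ P : Finset (α × α), P.card ≤ (E.card + 1) / 2 ∧ (∀ p ∈ P, p.1 ∈ E ∧ p.2 ∈ E) ∧
      ∀ e ∈ E, ∃ p ∈ P, p.1 = e ∨ p.2 = e :=
  exists_pairing_aux E.card E rfl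

end TZ
end

section

/-!
# TZ KeyN: the numerical part of the key lemma (easy/medium)

`k > 0` by `c3`. With `Bh = 2^t/(k q^t)`, `BU = η/(t q^(t-1))`: `k Bh q^t = 2^t`, `t BU q^(t-1) = η`, `2 k t q^(t-1) ≤ 2 k t q₀^(t-1) ≤ η` (c1, `q ≤ q₀`),
`2 t^2 q ≤ η` (c2). `SE ≤ 2^t + 3 η ≤ 2 * 2^t` since `η ≤ 1/200`.
`ST`: `k Bh Bh q^(2t) = 4^t/k ≤ 1/16` (c3), `k Bh (k+1) q^(2t) = 2^t (k+1) q^t ≤ 1/16` (c4, `q^t ≤ q₀^t`),
`3 (3 η) (2^t + η + 2 η + 8 t^2) = 9 η (2^t + 8 t^2) + 27 η^2 = 9/200 + 27 η^2 ≤ 1/8`. Total `≤ 1/4`.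
-/

set_option autoImplicit false

namespace TZ

theorem key_num {k t : ℕ} (ht : 2 ≤ t) {q₀ q : ℝ} (hc : Cond k t q₀) (hq : 0 < q)
    (hqq : q ≤ q₀) :
    SE k t (2 ^ t / (k * q ^ t)) (eta t / (t * q ^ (t - 1))) q ≤ 2 * 2 ^ t ∧
      ST k t (2 ^ t / (k * q ^ t)) (eta t / (t * q ^ (t - 1))) q ≤ 1 / 4 := by
  have hA4 : (4 : ℝ) ≤ 2 ^ t := by
    calc (4 : ℝ) = 2 ^ 2 := by norm_num
      _ ≤ 2 ^ t := pow_le_pow_right₀ (by norm_num) ht
  have h4t : (4 : ℝ) ^ t = 2 ^ t * 2 ^ t := by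
    rw [← mul_pow]
    norm_num
  obtain ⟨hpos, hle, c1, c2, c3, c4⟩ := hc
  have hK : (0 : ℝ) < k := by
    have h1 : (0 : ℝ) < 4 ^ t := by positivity
    linarith
  have hT : (2 : ℝ) ≤ t := by exact_mod_cast ht
  have hT0 : (0 : ℝ) < t := by linarith
  have hP : 0 < q ^ t := pow_pos hq t
  have hQ : 0 < q ^ (t - 1) := pow_pos hq (t - 1)
  have hPle : q ^ t ≤ q₀ ^ t := pow_le_pow_left₀ hq.le hqq t
  have hQle : q ^ (t - 1) ≤ q₀ ^ (t - 1) := pow_le_pow_left₀ hq.le hqq (t - 1)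
  have hη0 : 0 < eta t := by
    unfold eta
    positivity
  have hη : eta t * (2 ^ t + 8 * (t : ℝ) ^ 2) = 1 / 200 := by
    unfold eta
    have h1 : (2 : ℝ) ^ t + 8 * (t : ℝ) ^ 2 ≠ 0 := by positivity
    field_simp
  have hη1 : eta t ≤ 1 / 200 := by
    have h1 : (1 : ℝ) ≤ 2 ^ t + 8 * (t : ℝ) ^ 2 := by
      have h2 : (0 : ℝ) ≤ (t : ℝ) ^ 2 := by positivity
      linarith
    nlinarith
  have hq2 : q ^ (2 * t) = q ^ t * q ^ t := by
    rw [two_mul, pow_add]
  unfold SE ST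
  rw [hq2]
  generalize eta t = η at *
  generalize q ^ t = P at *
  generalize q ^ (t - 1) = Q at *
  generalize (2 : ℝ) ^ t = A at *
  generalize (k : ℝ) = K at *
  generalize (t : ℝ) = T at *
  have e1 : K * (A / (K * P)) * P = A := by field_simp
  have e2 : T * (η / (T * Q)) * Q = η := by field_simp
  have i1 : 2 * K * T * Q ≤ η := by
    refine le_trans ?_ c1
    exact mul_le_mul_of_nonneg_left hQle (by positivity)
  have i2 : 2 * T ^ 2 * q ≤ η := by
    refine le_trans ?_ c2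
    exact mul_le_mul_of_nonneg_left hqq (by positivity)
  have j1 : 0 ≤ 2 * K * T * Q := by positivity
  have j2 : 0 ≤ 2 * T ^ 2 * q := by positivity
  constructor
  · have e3 : K * (A / (K * P)) * P + (T * (η / (T * Q)) + 2 * K * T) * Q + 2 * T ^ 2 * q =
        K * (A / (K * P)) * P + T * (η / (T * Q)) * Q + 2 * K * T * Q + 2 * T ^ 2 * q := by ring
    rw [e3, e1, e2]
    linarith
  · have e4 : K * (A / (K * P)) * (A / (K * P) + K + 1) * (P * P) =
        (K * (A / (K * P)) * P) * ((K * (A / (K * P)) * P) / K + (K + 1) * P) := by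
      field_simp
      ring
    have e5 : (T * (η / (T * Q)) + 2 * K * T) * Q + 2 * T ^ 2 * q =
        T * (η / (T * Q)) * Q + 2 * K * T * Q + 2 * T ^ 2 * q := by ring
    have e6 : K * (A / (K * P)) * P + (T * (η / (T * Q)) + 4 * K * T) * Q + 8 * T ^ 2 =
        K * (A / (K * P)) * P + T * (η / (T * Q)) * Q + 2 * (2 * K * T * Q) + 8 * T ^ 2 := by ring
    rw [e4, e5, e6, e1, e2]
    have s1 : A * (A / K + (K + 1) * P) ≤ 1 / 16 + 1 / 16 := by
      have h1 : A * (A / K) ≤ 1 / 16 := by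
        rw [← mul_div_assoc, div_le_iff₀ hK]
        linarith
      have h2 : A * ((K + 1) * P) ≤ 1 / 16 := by
        refine le_trans ?_ c4
        rw [← mul_assoc]
        exact mul_le_mul_of_nonneg_left hPle (by positivity)
      rw [mul_add]
      linarith
    have s2 : 3 * (η + 2 * K * T * Q + 2 * T ^ 2 * q) * (A + η + 2 * (2 * K * T * Q) + 8 * T ^ 2) ≤
        3 * (3 * η) * (A + 3 * η + 8 * T ^ 2) := by
      apply mul_le_mul
      · linarith
      · linarith
      · positivity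
      · positivity
    have s3 : 3 * (3 * η) * (A + 3 * η + 8 * T ^ 2) = 9 * (η * (A + 8 * T ^ 2)) + 27 * η ^ 2 := by ring
    have s4 : η ^ 2 ≤ 1 / 200 := by nlinarith
    rw [s3, hη] at s2
    nlinarith

end TZ
end

section

/-!
# TZ Solo: covering the solos of S with rows in E by ⌈|E|/2⌉ rows (medium)

A solo of `S` is a `T ∈ TT \ F` with `tch k F T = {S}`; put `e(T) = T ∩ S` (a row of `S`, `inter_mem_UU`), so `T = insert x e(T)`
with `x ∉ S`. Let `Σ` be the set of the solos with `e(T) ∈ E`.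
(1) Two different solos `T`, `T'` of `S` meet: else `exch` with `I = {T, T'}`, `X = {S}` gives `2 ≤ 1`.
(2) If all members of `Σ` have the same `e(T) = e`: take `C = {e}` (`C = ∅` if `Σ = ∅`); `E` is nonempty, so `1 ≤ (|E|+1)/2`.
(3) Otherwise, for `T = insert x e`, `T' = insert x' e'` in `Σ` with `e ≠ e'`: `e`, `e'` are different `(k-1)`-subsets of `S`, so
`|e ∩ e'| = k-2`, and `T ∩ T' = (e ∩ e') ∪ ({x} ∩ {x'})` (`x, x' ∉ S`), so `|T ∩ T'| ≥ k-1` forces `x = x'`. As every `T'' ∈ Σ` has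
`e(T'')` different from `e` or from `e'`, all members of `Σ` are `insert x e''` with one and the same `x`.
Take the pairs `P` of `exists_pairing E` and `C = ` the rows `insert x (p.1 ∩ p.2)` for `p ∈ P` with `p.1 ≠ p.2` (this has `k-1` elements and
is contained in `insert x p.1` and in `insert x p.2`) and `p.1` for `p ∈ P` with `p.1 = p.2`. (`k ≥ 3` is not needed, `k ≥ 2` is.)
-/

set_option autoImplicit false

open Finset

namespace TZ

variable {V : Type*} [DecidableEq V] {k : ℕ} {TT F : Finset (Finset V)}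

private theorem card_inter_row {S p q : Finset V} (hS : S.card = k) (hp : p ⊆ S)
    (hpc : p.card + 1 = k) (hq : q ⊆ S) (hqc : q.card + 1 = k) (hne : p ≠ q) :
    (p ∩ q).card + 2 = k := by
  have h1 : (p ∪ q).card ≤ k := by
    rw [← hS]
    exact card_le_card (union_subset hp hq)
  have h2 := card_union_add_card_inter p q
  have h3 : (p ∩ q).card < p.card := by
    apply card_lt_card
    rw [ssubset_iff_subset_ne]
    refine ⟨inter_subset_left, ?_⟩
    intro he
    have h4 : p ⊆ q := by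
      rw [← he]
      exact inter_subset_right
    exact hne (eq_of_subset_of_card_le h4 (by omega))
  omega

theorem solo_cover (h : Std k TT F) {S : Finset V} (hS : S ∈ F) (E : Finset (Finset V))
    (hE : E ⊆ rows k S) :
    ∃ C : Finset (Finset V), (∀ c ∈ C, c.card + 1 = k) ∧ C.card ≤ (E.card + 1) / 2 ∧
      ∀ T ∈ TT, T ∉ F → tch k F T = {S} → T ∩ S ∈ E → ∃ c ∈ C, c ⊆ T := by
  have hk3 : 3 ≤ k := h.three
  have hSc : S.card = k := h.card S (h.sub hS)
  have hrow : ∀ {e : Finset V}, e ∈ E → e ⊆ S ∧ e.card + 1 = k := by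
    intro e he
    have h1 := hE he
    unfold rows at h1
    rw [mem_powersetCard] at h1
    exact ⟨h1.1, by omega⟩
  -- two different solos meet
  have hmeet : ∀ T ∈ TT, tch k F T = {S} → ∀ T' ∈ TT, tch k F T' = {S} → T ≠ T' →
      Meet k T T' := by
    intro T hT hTt T' hT' hTt' hne
    by_contra hcon
    have h1 := exch h (I := {T, T'}) (X := {S}) (by
        intro A hA
        rw [mem_insert, mem_singleton] at hA
        rcases hA with rfl | rfl
        · exact hT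
        · exact hT') (by
        intro A hA B hB hAB
        rw [mem_insert, mem_singleton] at hA hB
        have hcon' : ¬ Meet k T' T := by
          unfold Meet at hcon ⊢
          rwa [inter_comm]
        rcases hA with rfl | rfl <;> rcases hB with rfl | rfl
        · exact absurd rfl hAB
        · exact hcon
        · exact hcon'
        · exact absurd rfl hAB) (by
        intro A hA
        rw [mem_singleton] at hA
        rw [hA]
        exact hS) (by
        intro A hA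
        rw [mem_insert, mem_singleton] at hA
        rcases hA with rfl | rfl
        · rw [hTt]
        · rw [hTt'])
    rw [card_pair hne, card_singleton] at h1
    omega
  -- solos with different rows have the same new vertex
  have hsd : ∀ T ∈ TT, T ∩ S ∈ E → (T \ S).card = 1 := by
    intro T hT hTE
    have h1 := card_sdiff_add_card_inter T S
    have h2 := h.card T hT
    have h3 := (hrow hTE).2
    omega
  have hsame : ∀ T ∈ TT, tch k F T = {S} → T ∩ S ∈ E → ∀ T' ∈ TT, tch k F T' = {S} →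
      T' ∩ S ∈ E → T ∩ S ≠ T' ∩ S → T \ S = T' \ S := by
    intro T hT hTt hTE T' hT' hTt' hTE' hne
    have hTT : T ≠ T' := by
      intro he
      rw [he] at hne
      exact hne rfl
    have hm := hmeet T hT hTt T' hT' hTt' hTT
    unfold Meet at hm
    have h1 := card_sdiff_add_card_inter (T ∩ T') S
    have h2 : (T ∩ T') ∩ S = (T ∩ S) ∩ (T' ∩ S) := by
      ext v
      simp only [mem_inter]
      tauto
    have h3 := card_inter_row hSc (hrow hTE).1 (hrow hTE).2 (hrow hTE').1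
      (hrow hTE').2 hne
    rw [h2] at h1
    have h4 : 0 < ((T ∩ T') \ S).card := by omega
    obtain ⟨x, hx⟩ := card_pos.1 h4
    rw [mem_sdiff, mem_inter] at hx
    obtain ⟨a, ha⟩ := card_eq_one.1 (hsd T hT hTE)
    obtain ⟨b, hb⟩ := card_eq_one.1 (hsd T' hT' hTE')
    have h5 : x ∈ T \ S := mem_sdiff.2 ⟨hx.1.1, hx.2⟩
    have h6 : x ∈ T' \ S := mem_sdiff.2 ⟨hx.1.2, hx.2⟩
    rw [ha, mem_singleton] at h5
    rw [hb, mem_singleton] at h6
    rw [ha, hb, ← h5, ← h6]
  by_cases hex : ∃ T ∈ TT, T ∉ F ∧ tch k F T = {S} ∧ T ∩ S ∈ E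
  · obtain ⟨T0, hT0, hT0F, hT0t, hT0E⟩ := hex
    by_cases hex2 : ∃ T ∈ TT, T ∉ F ∧ tch k F T = {S} ∧ T ∩ S ∈ E ∧ T ∩ S ≠ T0 ∩ S
    · obtain ⟨T1, hT1, hT1F, hT1t, hT1E, hne⟩ := hex2
      obtain ⟨x, hx⟩ := card_eq_one.1 (hsd T0 hT0 hT0E)
      have h10 : T1 \ S = {x} := by
        rw [← hx]
        exact hsame T1 hT1 hT1t hT1E T0 hT0 hT0t hT0E hne
      have hall : ∀ T ∈ TT, tch k F T = {S} → T ∩ S ∈ E → T \ S = {x} := by
        intro T hT hTt hTE
        by_cases he : T ∩ S = T0 ∩ S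
        · rw [← h10]
          refine hsame T hT hTt hTE T1 hT1 hT1t hT1E ?_
          rw [he]
          exact hne.symm
        · rw [← hx]
          exact hsame T hT hTt hTE T0 hT0 hT0t hT0E he
      have hxS : x ∉ S := by
        have h1 : x ∈ T0 \ S := by
          rw [hx]
          exact mem_singleton_self x
        exact (mem_sdiff.1 h1).2
      obtain ⟨P, hP1, hP2, hP3⟩ := exists_pairing E
      refine ⟨P.image (fun p => if p.1 = p.2 then p.1 else insert x (p.1 ∩ p.2)), ?_,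
        card_image_le.trans hP1, ?_⟩
      · intro c hc
        obtain ⟨p, hp, rfl⟩ := mem_image.1 hc
        obtain ⟨hp1, hp2⟩ := hP2 p hp
        by_cases hpp : p.1 = p.2
        · rw [if_pos hpp]
          exact (hrow hp1).2
        · rw [if_neg hpp]
          have h3 := card_inter_row hSc (hrow hp1).1 (hrow hp1).2 (hrow hp2).1
            (hrow hp2).2 hpp
          rw [card_insert_of_notMem]
          · omega
          · intro hmem
            exact hxS ((hrow hp1).1 (mem_inter.1 hmem).1)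
      · intro T hT _ hTt hTE
        obtain ⟨p, hp, hpe⟩ := hP3 _ hTE
        refine ⟨_, mem_image_of_mem _ hp, ?_⟩
        have hxT : x ∈ T := by
          have h1 : x ∈ T \ S := by
            rw [hall T hT hTt hTE]
            exact mem_singleton_self x
          exact (mem_sdiff.1 h1).1
        by_cases hpp : p.1 = p.2
        · rw [if_pos hpp]
          rcases hpe with he | he
          · rw [he]
            exact inter_subset_left
          · rw [hpp, he]
            exact inter_subset_left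
        · rw [if_neg hpp]
          intro v hv
          rw [mem_insert] at hv
          rcases hv with rfl | hv
          · exact hxT
          · rw [mem_inter] at hv
            rcases hpe with he | he
            · rw [he] at hv
              exact (mem_inter.1 hv.1).1
            · rw [he] at hv
              exact (mem_inter.1 hv.2).1
    · push Not at hex2
      refine ⟨{T0 ∩ S}, ?_, ?_, ?_⟩
      · intro c hc
        rw [mem_singleton] at hc
        rw [hc]
        exact (hrow hT0E).2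
      · rw [card_singleton]
        have : 0 < E.card := card_pos.2 ⟨_, hT0E⟩
        omega
      · intro T hT hTF hTt hTE
        refine ⟨T0 ∩ S, mem_singleton_self _, ?_⟩
        rw [← hex2 T hT hTF hTt hTE]
        exact inter_subset_left
  · refine ⟨∅, ?_, ?_, ?_⟩
    · intro c hc
      exact absurd hc (notMem_empty c)
    · rw [card_empty]
      exact Nat.zero_le _
    · intro T hT hTF hTt hTE
      exact absurd ⟨T, hT, hTF, hTt, hTE⟩ hex

end TZ
end

section

/-!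
# TZ Assembly: dropping the rows in D (medium)

`C = (UU k F \ D) ∪ (⋃_{S ∈ F} C_S) ∪ G ∪ {one row of every T in the last family}`, `C_S` from `solo_cover` for
`E = D.filter (· ⊆ S)`.
Cover. `T ∈ F`: `rows k T` has `k` elements and less than `k` of them are in `D` (`hDS`), so a row of `T` is in `UU k F \ D`.
`T ∈ TT \ F` with `tch = {S}`: if `T ∩ S ∉ D` then it is in `UU \ D`, otherwise `C_S` works. `T ∈ TT \ F` with at least two touched members:
if some `T ∩ S ∉ D`, it is in `UU \ D`; if a row of `T` is in `G`, fine; else `T` is in the last family (any row of `T` is taken).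
(`tch_nonempty`.)
Size. `|UU \ D| = k ν - |D|` (`card_UU`, `hD`), `|C_S| ≤ (|D_S|+1)/2`, and `∑_S |D_S| = |D|` because every `e ∈ D ⊆ UU` is contained in exactly one
`S ∈ F` (`owner_unique`, `mem_UU`), so `∑ |C_S| ≤ |D|/2 + ν/2`.
-/

set_option autoImplicit false

open Finset

namespace TZ

variable {V : Type*} [DecidableEq V] {k : ℕ} {TT F : Finset (Finset V)}

theorem assembly (h : Std k TT F) (D G : Finset (Finset V)) (hD : D ⊆ UU k F)
    (hDS : ∀ S ∈ F, (D.filter (fun e => e ⊆ S)).card < k) (hG : ∀ g ∈ G, g.card + 1 = k) :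
    ∃ C : Finset (Finset V), Cover k TT C ∧
      (C.card : ℝ) ≤ k * F.card - (D.card : ℝ) / 2 + (F.card : ℝ) / 2 + G.card +
        (((TT \ F).filter (fun T => 2 ≤ (tch k F T).card ∧ (∀ g ∈ G, g ∉ rows k T) ∧
          ∀ S ∈ tch k F T, T ∩ S ∈ D)).card : ℝ) := by
  have hk3 : 3 ≤ k := h.three
  have hrow : ∀ {e T : Finset V}, e ∈ rows k T ↔ e ⊆ T ∧ e.card = k - 1 := by
    intro e T
    unfold rows
    exact mem_powersetCard
  -- the covers of the solos
  have hsolo : ∀ S : Finset V, ∃ C : Finset (Finset V), S ∈ F →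
      ((∀ c ∈ C, c.card + 1 = k) ∧ C.card ≤ ((D.filter (fun e => e ⊆ S)).card + 1) / 2 ∧
      ∀ T ∈ TT, T ∉ F → tch k F T = {S} → T ∩ S ∈ D.filter (fun e => e ⊆ S) → ∃ c ∈ C, c ⊆ T) := by
    intro S
    by_cases hS : S ∈ F
    · have hE : D.filter (fun e => e ⊆ S) ⊆ rows k S := by
        intro e he
        rw [mem_filter] at he
        rw [hrow]
        refine ⟨he.2, ?_⟩
        have := ((mem_UU h).1 (hD he.1)).1
        omega
      obtain ⟨C, hC⟩ := solo_cover h hS _ hE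
      exact ⟨C, fun _ => hC⟩
    · exact ⟨∅, fun h' => absurd h' hS⟩
  choose CS hCS using hsolo
  -- a row of every set
  have hrw : ∀ T : Finset V, ∃ e : Finset V, T ∈ TT → e ∈ rows k T := by
    intro T
    by_cases hT : T ∈ TT
    · have hc := h.card T hT
      obtain ⟨e, he, hec⟩ := exists_subset_card_eq (s := T) (n := k - 1) (by omega)
      exact ⟨e, fun _ => hrow.2 ⟨he, hec⟩⟩
    · exact ⟨∅, fun h' => absurd h' hT⟩
  choose rw' hrw' using hrw
  set L := (TT \ F).filter (fun T => 2 ≤ (tch k F T).card ∧ (∀ g ∈ G, g ∉ rows k T) ∧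
          ∀ S ∈ tch k F T, T ∩ S ∈ D) with hL
  have hLT : ∀ T ∈ L, T ∈ TT := by
    intro T hT
    rw [hL, mem_filter, mem_sdiff] at hT
    exact hT.1.1
  refine ⟨((UU k F \ D) ∪ F.biUnion CS) ∪ (G ∪ L.image rw'), ⟨?_, ?_⟩, ?_⟩
  · intro c hc
    rw [mem_union, mem_union, mem_union] at hc
    rcases hc with (hc | hc) | (hc | hc)
    · exact ((mem_UU h).1 (mem_sdiff.1 hc).1).1
    · obtain ⟨S, hS, hcS⟩ := mem_biUnion.1 hc
      exact (hCS S hS).1 c hcS
    · exact hG c hc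
    · obtain ⟨T, hT, rfl⟩ := mem_image.1 hc
      have := (hrow.1 (hrw' T (hLT T hT))).2
      omega
  · intro T hT
    by_cases hTF : T ∈ F
    · have hex : ∃ e ∈ rows k T, e ∉ D := by
        by_contra hcon
        push Not at hcon
        have hsub : rows k T ⊆ D.filter (fun e => e ⊆ T) := by
          intro e he
          rw [mem_filter]
          exact ⟨hcon e he, (hrow.1 he).1⟩
        have h1 := card_le_card hsub
        have h2 : (rows k T).card = k := by
          unfold rows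
          rw [card_powersetCard, h.card T hT, Nat.choose_symm (by omega : 1 ≤ k),
            Nat.choose_one_right]
        have h3 := hDS T hTF
        omega
      obtain ⟨e, he, heD⟩ := hex
      obtain ⟨he1, he2⟩ := hrow.1 he
      refine ⟨e, ?_, he1⟩
      apply mem_union_left
      apply mem_union_left
      rw [mem_sdiff]
      exact ⟨(mem_UU h).2 ⟨by omega, T, hTF, he1⟩, heD⟩
    · by_cases hall : ∀ S ∈ tch k F T, T ∩ S ∈ D
      · obtain ⟨S, hS⟩ := tch_nonempty h hT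
        by_cases h2 : 2 ≤ (tch k F T).card
        · by_cases hg : ∀ g ∈ G, g ∉ rows k T
          · have hTL : T ∈ L := by
              rw [hL, mem_filter, mem_sdiff]
              exact ⟨⟨hT, hTF⟩, h2, hg, hall⟩
            refine ⟨rw' T, ?_, (hrow.1 (hrw' T hT)).1⟩
            apply mem_union_right
            apply mem_union_right
            exact mem_image_of_mem _ hTL
          · push Not at hg
            obtain ⟨g, hg1, hg2⟩ := hg
            refine ⟨g, ?_, (hrow.1 hg2).1⟩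
            apply mem_union_right
            apply mem_union_left
            exact hg1
        · have hc1 : (tch k F T).card = 1 := by
            have : 0 < (tch k F T).card := card_pos.2 ⟨S, hS⟩
            omega
          obtain ⟨S', hS'⟩ := card_eq_one.1 hc1
          have hSS : S = S' := by
            rw [hS', mem_singleton] at hS
            exact hS
          subst hSS
          have hSF : S ∈ F := (mem_tch.1 hS).1
          obtain ⟨c, hc, hcT⟩ := (hCS S hSF).2.2 T hT hTF hS'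
            (mem_filter.2 ⟨hall S hS, inter_subset_right⟩)
          refine ⟨c, ?_, hcT⟩
          apply mem_union_left
          apply mem_union_right
          exact mem_biUnion.2 ⟨S, hSF, hc⟩
      · push Not at hall
        obtain ⟨S, hS, hSD⟩ := hall
        refine ⟨T ∩ S, ?_, inter_subset_left⟩
        apply mem_union_left
        apply mem_union_left
        rw [mem_sdiff]
        exact ⟨(inter_mem_UU h hT hTF hS).1, hSD⟩
  · -- the size
    have hDsum : D.card = ∑ S ∈ F, (D.filter (fun e => e ⊆ S)).card := by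
      rw [← card_biUnion]
      · congr 1
        ext e
        rw [mem_biUnion]
        constructor
        · intro he
          obtain ⟨_, S, hS, heS⟩ := (mem_UU h).1 (hD he)
          exact ⟨S, hS, mem_filter.2 ⟨he, heS⟩⟩
        · rintro ⟨S, _, he⟩
          exact (mem_filter.1 he).1
      · intro S hS S' hS' hne
        change Disjoint (D.filter (fun e => e ⊆ S)) (D.filter (fun e => e ⊆ S'))
        rw [disjoint_left]
        intro e he he'
        rw [mem_filter] at he he'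
        exact hne (owner_unique h ((mem_UU h).1 (hD he.1)).1 hS hS' he.2 he'.2)
    have h1 : (((UU k F \ D) ∪ F.biUnion CS) ∪ (G ∪ L.image rw')).card ≤
        (UU k F \ D).card + ∑ S ∈ F, (CS S).card + (G.card + L.card) := by
      refine (card_union_le _ _).trans ?_
      refine add_le_add ((card_union_le _ _).trans ?_) ((card_union_le _ _).trans ?_)
      · exact add_le_add le_rfl card_biUnion_le
      · exact add_le_add le_rfl card_image_le
    have h2 : (UU k F \ D).card + D.card = k * F.card := by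
      rw [card_sdiff_add_card_eq_card hD, card_UU h]
    have h3 : (∑ S ∈ F, ((CS S).card : ℝ)) ≤ (D.card : ℝ) / 2 + (F.card : ℝ) / 2 := by
      have h4 : ∀ S ∈ F, ((CS S).card : ℝ) ≤
          ((D.filter (fun e => e ⊆ S)).card : ℝ) / 2 + 1 / 2 := by
        intro S hS
        have h5 := (hCS S hS).2.1
        have h6 : 2 * (CS S).card ≤ (D.filter (fun e => e ⊆ S)).card + 1 := by omega
        have h7 : (2 : ℝ) * ((CS S).card : ℝ) ≤ ((D.filter (fun e => e ⊆ S)).card : ℝ) + 1 := by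
          exact_mod_cast h6
        linarith
      refine (sum_le_sum h4).trans ?_
      rw [sum_add_distrib, ← sum_div, sum_const, nsmul_eq_mul, hDsum]
      push_cast
      linarith
    have h1' : ((((UU k F \ D) ∪ F.biUnion CS) ∪ (G ∪ L.image rw')).card : ℝ) ≤
        ((UU k F \ D).card : ℝ) + ∑ S ∈ F, ((CS S).card : ℝ) + ((G.card : ℝ) + (L.card : ℝ)) := by
      exact_mod_cast h1
    have h2' : ((UU k F \ D).card : ℝ) + (D.card : ℝ) = k * F.card := by
      exact_mod_cast h2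
    linarith

end TZ
end

section

/-!
# TZ Greedy: the greedy algorithm with a potential (medium)

Claim, by strong induction on `|M|`: for every `M ⊆ NN` and `q ≥ q1`, `q < q0`, with `|M| q^n = Λ` (so `M` is nonempty) there are `G`, `R` with `¬ isU` / `isU` members,
`|G| ≤ 1 + (q0 - q) (n Λ)/cG`, `|R| ≤ 1 + (log q0 - log q) n/cR` and `|M.filter (no b ∈ G ∪ R in ρ a)| * q0^n ≤ Λ`.
Proof: `hkey M q` gives `b`; put it into `G` (first case) or `R` (second case); `M' = M.filter (b ∉ ρ ·)`, `|M'| = |M| - deg < |M|` (`deg > 0` in both cases).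
If `M' = ∅`: done with the single `b` (the potential terms are nonnegative). Otherwise let `q'` be given by `|M'| q'^n = Λ` (`exists_q`): `q' ≥ q` (`step_mono`) and
in the first case `q' ≥ q + cG/(nΛ)` (`step_G`), in the second case `log q' ≥ log q + cR/n` (`step_R`). If `q' ≥ q0` then `|M'| q0^n ≤ |M'| q'^n = Λ`, done with the single `b`.
If `q' < q0` use the induction hypothesis for `M'`, `q'` and insert `b`: in the first case `1 + 1 + (q0 - q') nΛ/cG ≤ 1 + (q0 - q) nΛ/cG` and the `R`-bound is monotone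
(`log q' ≥ log q`); similarly in the second case.
Start: `M = NN`. If `NN = ∅` or `|NN| q0^n ≤ Λ` take `G = R = ∅`. Otherwise `q` with `|NN| q^n = Λ`; `q ≥ q1` by `hstart`, `q < q0`; finally
`(q0 - q) nΛ/cG ≤ n Λ q0/cG` and `log q0 - log q ≤ log (q0/q1)`.
-/

set_option autoImplicit false

open Finset

namespace TZ

private theorem greedy_aux {α β : Type*} [DecidableEq α] [DecidableEq β] (ρ : α → Finset β)
    (isU : β → Prop) {n : ℕ} (hn : 1 ≤ n) {Λ q0 q1 cG cR : ℝ} (hΛ : 0 < Λ) (hq1 : 0 < q1)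
    (hcG : 0 < cG) (hcR : 0 < cR) (NN : Finset α)
    (hkey : ∀ M ⊆ NN, M.Nonempty → ∀ q, q1 ≤ q → q ≤ q0 → (M.card : ℝ) * q ^ n = Λ →
      (∃ b, ¬ isU b ∧ cG ≤ ((M.filter (fun a => b ∈ ρ a)).card : ℝ) * q ^ (n + 1)) ∨
      (∃ b, isU b ∧ cR * M.card ≤ ((M.filter (fun a => b ∈ ρ a)).card : ℝ))) :
    ∀ N : ℕ, ∀ M ⊆ NN, M.card = N → ∀ q, q1 ≤ q → q < q0 → (M.card : ℝ) * q ^ n = Λ →
    ∃ G R : Finset β, (∀ b ∈ G, ¬ isU b) ∧ (∀ b ∈ R, isU b) ∧
      (G.card : ℝ) ≤ 1 + (q0 - q) * (n * Λ) / cG ∧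
      (R.card : ℝ) ≤ 1 + (Real.log q0 - Real.log q) * n / cR ∧
      ((M.filter (fun a => ∀ b ∈ G ∪ R, b ∉ ρ a)).card : ℝ) * q0 ^ n ≤ Λ := by
  intro N
  induction N using Nat.strong_induction_on with
  | _ N ih =>
  intro M hM hMN q hqq1 hqq0 hq
  have hn0 : (0 : ℝ) < n := by exact_mod_cast hn
  have hqpos : 0 < q := lt_of_lt_of_le hq1 hqq1
  have hlogq : Real.log q ≤ Real.log q0 := Real.log_le_log hqpos hqq0.le
  have hMpos : 0 < (M.card : ℝ) := by
    by_contra hcon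
    push Not at hcon
    have h0 : (M.card : ℝ) * q ^ n ≤ 0 := mul_nonpos_of_nonpos_of_nonneg hcon (by positivity)
    linarith
  have hMne : M.Nonempty := by
    rw [← card_pos]
    exact_mod_cast hMpos
  have hG0 : 0 ≤ (q0 - q) * (n * Λ) / cG := by
    apply div_nonneg _ hcG.le
    apply mul_nonneg (by linarith)
    positivity
  have hR0 : 0 ≤ (Real.log q0 - Real.log q) * n / cR := by
    apply div_nonneg _ hcR.le
    exact mul_nonneg (by linarith) hn0.le
  -- the new family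
  have hsplit : ∀ b : β, ((M.filter (fun a => b ∉ ρ a)).card : ℝ) =
      (M.card : ℝ) - ((M.filter (fun a => b ∈ ρ a)).card : ℝ) := by
    intro b
    have h1 := card_filter_add_card_filter_not (s := M) (fun a => b ∈ ρ a)
    have h2 : ((M.filter (fun a => b ∈ ρ a)).card : ℝ) +
        ((M.filter (fun a => ¬ b ∈ ρ a)).card : ℝ) = (M.card : ℝ) := by exact_mod_cast h1
    linarith
  have hsub : ∀ b : β, M.filter (fun a => b ∉ ρ a) ⊆ NN := fun b =>
    (filter_subset _ _).trans hM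
  -- the recursion with one more element `b`
  have hstep : ∀ b : β, 0 < ((M.filter (fun a => b ∈ ρ a)).card : ℝ) →
      (∃ q', q ≤ q' ∧ q' < q0 ∧ 0 < ((M.filter (fun a => b ∉ ρ a)).card : ℝ) ∧
        ((M.filter (fun a => b ∉ ρ a)).card : ℝ) * q' ^ n = Λ ∧
        ∃ G R : Finset β, (∀ b ∈ G, ¬ isU b) ∧ (∀ b ∈ R, isU b) ∧
      (G.card : ℝ) ≤ 1 + (q0 - q') * (n * Λ) / cG ∧
      (R.card : ℝ) ≤ 1 + (Real.log q0 - Real.log q') * n / cR ∧
      (((M.filter (fun a => b ∉ ρ a)).filter (fun a => ∀ b ∈ G ∪ R, b ∉ ρ a)).card : ℝ) *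
        q0 ^ n ≤ Λ) ∨
      ((M.filter (fun a => b ∉ ρ a)).card : ℝ) * q0 ^ n ≤ Λ := by
    intro b hb
    by_cases h0 : ((M.filter (fun a => b ∉ ρ a)).card : ℝ) * q0 ^ n ≤ Λ
    · exact Or.inr h0
    · left
      push Not at h0
      have hpos : 0 < ((M.filter (fun a => b ∉ ρ a)).card : ℝ) := by
        by_contra hcon
        push Not at hcon
        have h1 : ((M.filter (fun a => b ∉ ρ a)).card : ℝ) * q0 ^ n ≤ 0 :=
          mul_nonpos_of_nonpos_of_nonneg hcon (pow_nonneg (hqpos.trans hqq0).le n)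
        linarith
      obtain ⟨q', hq'0, hq'⟩ := exists_q hΛ hpos hn
      have hle : ((M.filter (fun a => b ∉ ρ a)).card : ℝ) ≤ (M.card : ℝ) := by
        rw [hsplit b]
        linarith
      have hqq' : q ≤ q' := step_mono hn hΛ hqpos hq'0 hpos hq hq' hle
      have hq'q0 : q' < q0 := by
        by_contra hcon
        push Not at hcon
        have h1 : q0 ^ n ≤ q' ^ n := pow_le_pow_left₀ (hqpos.trans hqq0).le hcon n
        have h2 := mul_le_mul_of_nonneg_left h1 hpos.le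
        linarith
      have hlt : (M.filter (fun a => b ∉ ρ a)).card < N := by
        rw [← hMN]
        have h3 := hsplit b
        have h4 : ((M.filter (fun a => b ∉ ρ a)).card : ℝ) < (M.card : ℝ) := by linarith
        exact_mod_cast h4
      exact ⟨q', hqq', hq'q0, hpos, hq', ih _ hlt _ (hsub b) rfl q' (hqq1.trans hqq') hq'q0 hq'⟩
  have hfilt : ∀ (b : β) (G R : Finset β), M.filter (fun a => ∀ b' ∈ insert b G ∪ R, b' ∉ ρ a) =
      (M.filter (fun a => b ∉ ρ a)).filter (fun a => ∀ b' ∈ G ∪ R, b' ∉ ρ a) := by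
    intro b G R
    ext a
    simp only [mem_filter, mem_union, mem_insert]
    constructor
    · rintro ⟨h1, h2⟩
      exact ⟨⟨h1, h2 b (Or.inl (Or.inl rfl))⟩, fun b' hb' => h2 b' (by tauto)⟩
    · rintro ⟨⟨h1, h2⟩, h3⟩
      refine ⟨h1, fun b' hb' => ?_⟩
      rcases hb' with (rfl | hb') | hb'
      · exact h2
      · exact h3 b' (Or.inl hb')
      · exact h3 b' (Or.inr hb')
  have hfilt2 : ∀ (b : β) (G R : Finset β), M.filter (fun a => ∀ b' ∈ G ∪ insert b R, b' ∉ ρ a) =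
      (M.filter (fun a => b ∉ ρ a)).filter (fun a => ∀ b' ∈ G ∪ R, b' ∉ ρ a) := by
    intro b G R
    ext a
    simp only [mem_filter, mem_union, mem_insert]
    constructor
    · rintro ⟨h1, h2⟩
      exact ⟨⟨h1, h2 b (Or.inr (Or.inl rfl))⟩, fun b' hb' => h2 b' (by tauto)⟩
    · rintro ⟨⟨h1, h2⟩, h3⟩
      refine ⟨h1, fun b' hb' => ?_⟩
      rcases hb' with hb' | (rfl | hb')
      · exact h3 b' (Or.inl hb')
      · exact h2
      · exact h3 b' (Or.inr hb')
  rcases hkey M hM hMne q hqq1 hqq0.le hq with ⟨b, hbU, hb⟩ | ⟨b, hbU, hb⟩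
  · have hdeg : 0 < ((M.filter (fun a => b ∈ ρ a)).card : ℝ) := by
      by_contra hcon
      push Not at hcon
      have h1 : ((M.filter (fun a => b ∈ ρ a)).card : ℝ) * q ^ (n + 1) ≤ 0 :=
        mul_nonpos_of_nonpos_of_nonneg hcon (by positivity)
      linarith
    rcases hstep b hdeg with ⟨q', hqq', hq'q0, hpos, hq', G, R, hG, hR, hGc, hRc, hfin⟩ | hfin
    · have hq'0 : 0 < q' := lt_of_lt_of_le hqpos hqq'
      have hinc := step_G (cG := cG) hn hΛ hqpos hq'0 hpos hcG hq hq' (by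
        rw [hsplit b, sub_mul]
        linarith)
      refine ⟨insert b G, R, ?_, hR, ?_, ?_, ?_⟩
      · intro b' hb'
        rw [mem_insert] at hb'
        rcases hb' with rfl | hb'
        · exact hbU
        · exact hG b' hb'
      · have h1 : ((insert b G).card : ℝ) ≤ (G.card : ℝ) + 1 := by
          exact_mod_cast card_insert_le b G
        have h2 : 1 + (q0 - q') * (n * Λ) / cG ≤ (q0 - q) * (n * Λ) / cG := by
          have h3 : (cG / (n * Λ)) * (n * Λ) / cG = 1 := by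
            field_simp
          have h4 : cG / (n * Λ) * (n * Λ) / cG + (q0 - q') * (n * Λ) / cG =
              (cG / (n * Λ) + (q0 - q')) * (n * Λ) / cG := by ring
          rw [← h3, h4]
          apply div_le_div_of_nonneg_right _ hcG.le
          apply mul_le_mul_of_nonneg_right _ (by positivity)
          linarith
        linarith
      · refine hRc.trans ?_
        have h1 : Real.log q ≤ Real.log q' := Real.log_le_log hqpos hqq'
        have h2 : (Real.log q0 - Real.log q') * n / cR ≤ (Real.log q0 - Real.log q) * n / cR := by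
          apply div_le_div_of_nonneg_right _ hcR.le
          apply mul_le_mul_of_nonneg_right _ hn0.le
          linarith
        linarith
      · rw [hfilt]
        exact hfin
    · refine ⟨{b}, ∅, ?_, ?_, ?_, ?_, ?_⟩
      · intro b' hb'
        rw [mem_singleton] at hb'
        rw [hb']
        exact hbU
      · intro b' hb'
        exact absurd hb' (notMem_empty _)
      · rw [card_singleton, Nat.cast_one]
        linarith
      · rw [card_empty, Nat.cast_zero]
        linarith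
      · have h1 := hfilt b ∅ ∅
        rw [insert_empty_eq] at h1
        rw [h1]
        simpa using hfin
  · have hdeg : 0 < ((M.filter (fun a => b ∈ ρ a)).card : ℝ) :=
      lt_of_lt_of_le (mul_pos hcR hMpos) hb
    rcases hstep b hdeg with ⟨q', hqq', hq'q0, hpos, hq', G, R, hG, hR, hGc, hRc, hfin⟩ | hfin
    · have hq'0 : 0 < q' := lt_of_lt_of_le hqpos hqq'
      have hinc := step_R (cR := cR) hn hΛ hqpos hq'0 hpos hcR hq hq' (by
        rw [hsplit b]
        linarith)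
      refine ⟨G, insert b R, hG, ?_, ?_, ?_, ?_⟩
      · intro b' hb'
        rw [mem_insert] at hb'
        rcases hb' with rfl | hb'
        · exact hbU
        · exact hR b' hb'
      · refine hGc.trans ?_
        have h2 : (q0 - q') * (n * Λ) / cG ≤ (q0 - q) * (n * Λ) / cG := by
          apply div_le_div_of_nonneg_right _ hcG.le
          apply mul_le_mul_of_nonneg_right _ (by positivity)
          linarith
        linarith
      · have h1 : ((insert b R).card : ℝ) ≤ (R.card : ℝ) + 1 := by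
          exact_mod_cast card_insert_le b R
        have h2 : 1 + (Real.log q0 - Real.log q') * n / cR ≤
            (Real.log q0 - Real.log q) * n / cR := by
          have h3 : (cR / n) * n / cR = 1 := by
            field_simp
          have h4 : cR / n * n / cR + (Real.log q0 - Real.log q') * n / cR =
              (cR / n + (Real.log q0 - Real.log q')) * n / cR := by ring
          rw [← h3, h4]
          apply div_le_div_of_nonneg_right _ hcR.le
          apply mul_le_mul_of_nonneg_right _ hn0.le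
          linarith
        linarith
      · rw [hfilt2]
        exact hfin
    · refine ⟨∅, {b}, ?_, ?_, ?_, ?_, ?_⟩
      · intro b' hb'
        exact absurd hb' (notMem_empty _)
      · intro b' hb'
        rw [mem_singleton] at hb'
        rw [hb']
        exact hbU
      · rw [card_empty, Nat.cast_zero]
        linarith
      · rw [card_singleton, Nat.cast_one]
        linarith
      · have h1 := hfilt2 b ∅ ∅
        rw [insert_empty_eq] at h1
        rw [h1]
        simpa using hfin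

theorem greedy {α β : Type*} [DecidableEq α] [DecidableEq β] (ρ : α → Finset β)
    (isU : β → Prop) {n : ℕ} (hn : 1 ≤ n) {Λ q0 q1 cG cR : ℝ} (hΛ : 0 < Λ) (hq1 : 0 < q1)
    (hq01 : q1 ≤ q0) (hcG : 0 < cG) (hcR : 0 < cR) (NN : Finset α)
    (hstart : (NN.card : ℝ) * q1 ^ n ≤ Λ)
    (hkey : ∀ M ⊆ NN, M.Nonempty → ∀ q, q1 ≤ q → q ≤ q0 → (M.card : ℝ) * q ^ n = Λ →
      (∃ b, ¬ isU b ∧ cG ≤ ((M.filter (fun a => b ∈ ρ a)).card : ℝ) * q ^ (n + 1)) ∨
      (∃ b, isU b ∧ cR * M.card ≤ ((M.filter (fun a => b ∈ ρ a)).card : ℝ))) :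
    ∃ G R : Finset β, (∀ b ∈ G, ¬ isU b) ∧ (∀ b ∈ R, isU b) ∧
      (G.card : ℝ) ≤ 1 + n * Λ * q0 / cG ∧
      (R.card : ℝ) ≤ 1 + n / cR * Real.log (q0 / q1) ∧
      ((NN.filter (fun a => ∀ b ∈ G ∪ R, b ∉ ρ a)).card : ℝ) * q0 ^ n ≤ Λ := by
  have hn0 : (0 : ℝ) < n := by exact_mod_cast hn
  have hq0 : 0 < q0 := lt_of_lt_of_le hq1 hq01
  have hlog0 : 0 ≤ Real.log (q0 / q1) := by
    apply Real.log_nonneg
    rw [le_div_iff₀ hq1]
    linarith
  by_cases hdone : (NN.card : ℝ) * q0 ^ n ≤ Λ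
  · refine ⟨∅, ∅, ?_, ?_, ?_, ?_, ?_⟩
    · intro b' hb'
      exact absurd hb' (notMem_empty _)
    · intro b' hb'
      exact absurd hb' (notMem_empty _)
    · rw [card_empty, Nat.cast_zero]
      positivity
    · rw [card_empty, Nat.cast_zero]
      have : 0 ≤ n / cR * Real.log (q0 / q1) := mul_nonneg (by positivity) hlog0
      linarith
    · simpa using hdone
  · push Not at hdone
    have hpos : 0 < (NN.card : ℝ) := by
      by_contra hcon
      push Not at hcon
      have h1 : (NN.card : ℝ) * q0 ^ n ≤ 0 :=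
        mul_nonpos_of_nonpos_of_nonneg hcon (pow_nonneg hq0.le n)
      linarith
    obtain ⟨q, hqpos, hq⟩ := exists_q hΛ hpos hn
    have hqq0 : q < q0 := by
      by_contra hcon
      push Not at hcon
      have h1 : q0 ^ n ≤ q ^ n := pow_le_pow_left₀ hq0.le hcon n
      have h2 := mul_le_mul_of_nonneg_left h1 hpos.le
      linarith
    have hqq1 : q1 ≤ q := by
      by_contra hcon
      push Not at hcon
      have h1 : q ^ n < q1 ^ n := pow_lt_pow_left₀ hcon hqpos.le (by omega)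
      have h2 := mul_lt_mul_of_pos_left h1 hpos
      linarith
    obtain ⟨G, R, hG, hR, hGc, hRc, hfin⟩ := greedy_aux ρ isU hn hΛ hq1 hcG hcR NN hkey
      NN.card NN (Subset.refl _) rfl q hqq1 hqq0 hq
    refine ⟨G, R, hG, hR, hGc.trans ?_, hRc.trans ?_, hfin⟩
    · have h1 : (q0 - q) * (n * Λ) / cG ≤ n * Λ * q0 / cG := by
        apply div_le_div_of_nonneg_right _ hcG.le
        have : 0 ≤ q * (n * Λ) := by positivity
        linarith
      linarith
    · have h1 : (Real.log q0 - Real.log q) * n / cR ≤ n / cR * Real.log (q0 / q1) := by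
        rw [Real.log_div hq0.ne' hq1.ne']
        have h2 : Real.log q1 ≤ Real.log q := Real.log_le_log hq1 hqq1
        have h3 : (Real.log q0 - Real.log q) * n / cR = n / cR * (Real.log q0 - Real.log q) := by
          ring
        rw [h3]
        apply mul_le_mul_of_nonneg_left _ (by positivity)
        linarith
      linarith

end TZ
end
end

section

section

/-!
# TZ ParA: the load bound s (medium)

`s` = the least number with `16 (2C)^s m ≤ s!` (`Nat.find`; it exists because `c^n * M ≤ n!` for large `n`, e.g. from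
`FloorSemiring.tendsto_pow_div_factorial_atTop`). `s ≥ 1` as `0! = 1 < 16 m`. For `s - 1` the inequality fails: `(s-1)! < 16 (2C)^(s-1) m`.
`s ≥ S'` as soon as `m > (S')!`: for `j < S'` we have `j! ≤ S'! < m ≤ 16 (2C)^j m`. Take `S' ≥ max S 2` such that `16 (2C)^(n-1) K^n ≤ (n-1)!` for all `n ≥ S'` (again because
factorials beat exponentials). Then `16 (2C)^(s-1) K^s ≤ (s-1)! < 16 (2C)^(s-1) m`, so `K^s < m`.
-/

set_option autoImplicit false

namespace TZ

private theorem fact_beats (a M : ℕ) : ∃ N : ℕ, ∀ n, N ≤ n → a ^ n * M ≤ n.factorial := by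
  have h := FloorSemiring.tendsto_pow_div_factorial_atTop (a : ℝ)
  have h1 : ∀ᶠ n : ℕ in Filter.atTop, (a : ℝ) ^ n / (n.factorial : ℝ) < 1 / ((M : ℝ) + 1) := by
    apply h.eventually_lt_const
    positivity
  obtain ⟨N, hN⟩ := Filter.eventually_atTop.mp h1
  refine ⟨N, ?_⟩
  intro n hn
  have h2 := hN n hn
  have h3 : (0 : ℝ) < (n.factorial : ℝ) := by exact_mod_cast Nat.factorial_pos n
  have h4 : (0 : ℝ) < (M : ℝ) + 1 := by positivity
  rw [div_lt_div_iff₀ h3 h4, one_mul] at h2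
  have h5 : (a : ℝ) ^ n * M ≤ (n.factorial : ℝ) := by
    have h6 : (0 : ℝ) ≤ (a : ℝ) ^ n := by positivity
    nlinarith
  exact_mod_cast h5

theorem exists_s (C K S : ℕ) (hC : 1 ≤ C) : ∃ m₀ : ℕ, 1 ≤ m₀ ∧ ∀ m, m₀ ≤ m → ∃ s, S ≤ s ∧ 2 ≤ s ∧
    16 * (2 * C) ^ s * m ≤ s.factorial ∧ (s - 1).factorial < 16 * (2 * C) ^ (s - 1) * m ∧
      K ^ s ≤ m := by
  obtain ⟨N1, hN1⟩ := fact_beats (2 * C * K) (16 * K)
  obtain ⟨S', hS'⟩ : ∃ S' : ℕ, S' = max (max S 2) (N1 + 1) := ⟨_, rfl⟩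
  have hS1 : S ≤ S' := by
    rw [hS']
    exact le_trans (le_max_left _ _) (le_max_left _ _)
  have hS2 : 2 ≤ S' := by
    rw [hS']
    exact le_trans (le_max_right _ _) (le_max_left _ _)
  have hS3 : N1 + 1 ≤ S' := by
    rw [hS']
    exact le_max_right _ _
  refine ⟨S'.factorial + 1, by omega, ?_⟩
  intro m hm
  have hex : ∃ s : ℕ, 16 * (2 * C) ^ s * m ≤ s.factorial := by
    obtain ⟨N2, hN2⟩ := fact_beats (2 * C) (16 * m)
    refine ⟨N2, ?_⟩
    calc 16 * (2 * C) ^ N2 * m = (2 * C) ^ N2 * (16 * m) := by ring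
      _ ≤ N2.factorial := hN2 N2 le_rfl
  classical
  obtain ⟨s, hs⟩ : ∃ s, s = Nat.find hex := ⟨_, rfl⟩
  have hspec : 16 * (2 * C) ^ s * m ≤ s.factorial := by
    rw [hs]
    exact Nat.find_spec hex
  have hge : S' ≤ s := by
    by_contra hlt
    rw [not_le] at hlt
    have h1 : s.factorial ≤ S'.factorial := Nat.factorial_le hlt.le
    have h2 : m ≤ 16 * (2 * C) ^ s * m := by
      have h3 : 1 ≤ 16 * (2 * C) ^ s := Nat.mul_pos (by norm_num) (pow_pos (by omega) _)
      exact Nat.le_mul_of_pos_left m h3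
    omega
  have hpre : (s - 1).factorial < 16 * (2 * C) ^ (s - 1) * m := by
    have h1 : s - 1 < Nat.find hex := by omega
    have h2 := Nat.find_min hex h1
    rw [not_le] at h2
    exact h2
  refine ⟨s, hS1.trans hge, hS2.trans hge, hspec, hpre, ?_⟩
  have h1 : (2 * C * K) ^ (s - 1) * (16 * K) ≤ (s - 1).factorial := hN1 (s - 1) (by omega)
  have h2 : (2 * C * K) ^ (s - 1) * (16 * K) = 16 * (2 * C) ^ (s - 1) * K ^ s := by
    have h3 : K ^ s = K ^ (s - 1) * K := by
      rw [← pow_succ]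
      congr 1
      omega
    rw [h3, mul_pow]
    ring
  rw [h2] at h1
  have h4 : 16 * (2 * C) ^ (s - 1) * K ^ s < 16 * (2 * C) ^ (s - 1) * m := lt_of_le_of_lt h1 hpre
  exact (lt_of_mul_lt_mul_left h4 (Nat.zero_le _)).le

end TZ
end

section

/-!
# TZ ParB: the main sum (medium)

For `j = n - i` (`0 ≤ i < n`): `n/j ≥ 1 + i/n` because `(n - i)(n + i) ≤ n^2`. So `w^(-(n/j)) ≤ w^(-1) ρ^i` with `ρ = w^(-1/n) = exp(-y)`,
`y = log w/n ∈ (0, 1]`. `∑_{i<n} ρ^i ≤ 1/(1 - ρ)` and `1 - exp(-y) ≥ y/2` on `[0,1]` (`exp(-y) ≤ 1 - y + y^2/2`; or `exp(-y) ≤ 1/(1+y)`, so `1 - exp(-y) ≥ y/(1+y) ≥ y/2`).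
Together `≤ w^(-1) * 2/y = 2 n/(w log w)`.
-/

set_option autoImplicit false

open Finset

namespace TZ

private theorem one_sub_exp_ge (y : ℝ) (h0 : 0 < y) (h1 : y ≤ 1) :
    y / 2 ≤ 1 - Real.exp (-y) := by
  have h2 : y + 1 ≤ Real.exp y := Real.add_one_le_exp y
  have h3 : Real.exp (-y) ≤ 1 / (1 + y) := by
    rw [Real.exp_neg, ← one_div]
    exact one_div_le_one_div_of_le (by linarith) (by linarith)
  have h4 : 1 / (1 + y) ≤ 1 - y / 2 := by
    rw [div_le_iff₀ (by linarith)]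
    nlinarith
  linarith

theorem sum_rpow_le (n : ℕ) (hn : 1 ≤ n) (w : ℝ) (hw : 1 < w) (hwn : Real.log w ≤ n) :
    ∑ j ∈ Icc 1 n, w ^ (-((n : ℝ) / j)) ≤ 2 * n / (w * Real.log w) := by
  have hn0 : (0 : ℝ) < n := by exact_mod_cast hn
  have hw0 : 0 < w := by linarith
  have hlog : 0 < Real.log w := Real.log_pos hw
  obtain ⟨y, hy⟩ : ∃ y : ℝ, y = Real.log w / n := ⟨_, rfl⟩
  have hy0 : 0 < y := by
    rw [hy]
    positivity
  have hy1 : y ≤ 1 := by
    rw [hy, div_le_one hn0]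
    exact hwn
  have hlw : Real.log w = n * y := by
    rw [hy]
    field_simp
  have hterm : ∀ j ∈ Icc 1 n, w ^ (-((n : ℝ) / j)) ≤ w⁻¹ * Real.exp (-y) ^ (n - j) := by
    intro j hj
    rw [mem_Icc] at hj
    have hj0 : (0 : ℝ) < j := by exact_mod_cast hj.1
    have h1 : w⁻¹ * Real.exp (-y) ^ (n - j) = Real.exp (-(n * y) - ((n - j : ℕ) : ℝ) * y) := by
      rw [← Real.exp_nat_mul]
      have h2 : w⁻¹ = Real.exp (-(n * y)) := by
        rw [Real.exp_neg, ← hlw, Real.exp_log hw0]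
      rw [h2, ← Real.exp_add]
      congr 1
      ring
    rw [h1, Real.rpow_def_of_pos hw0, hlw]
    apply Real.exp_le_exp.mpr
    have h3 : ((n - j : ℕ) : ℝ) = n - j := by
      rw [Nat.cast_sub hj.2]
    rw [h3]
    have h4 : (1 : ℝ) + (n - j) / n ≤ n / j := by
      rw [le_div_iff₀ hj0]
      have h5 : (1 + ((n : ℝ) - j) / n) * j = (2 * n * j - j * j) / n := by
        field_simp
        ring
      rw [h5, div_le_iff₀ hn0]
      nlinarith [sq_nonneg ((n : ℝ) - j)]
    have h6 : n * y * (1 + (n - j) / n) = n * y + (n - j) * y := by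
      field_simp
    have h7 : n * y * (1 + (n - j) / n) ≤ n * y * (n / j) :=
      mul_le_mul_of_nonneg_left h4 (by positivity)
    have h8 : n * y * -((n : ℝ) / j) = -(n * y * (n / j)) := by ring
    rw [h8]
    linarith
  have hsum : ∑ j ∈ Icc 1 n, w⁻¹ * Real.exp (-y) ^ (n - j) =
      w⁻¹ * ∑ i ∈ range n, Real.exp (-y) ^ i := by
    rw [mul_sum]
    refine sum_nbij' (fun j => n - j) (fun i => n - i) ?_ ?_ ?_ ?_ ?_
    · intro j hj
      rw [mem_Icc] at hj
      rw [mem_range]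
      omega
    · intro i hi
      rw [mem_range] at hi
      rw [mem_Icc]
      omega
    · intro j hj
      rw [mem_Icc] at hj
      omega
    · intro i hi
      rw [mem_range] at hi
      omega
    · intro j _
      rfl
  have hρ0 : 0 ≤ Real.exp (-y) := (Real.exp_pos _).le
  have h9 := one_sub_exp_ge y hy0 hy1
  have hgeom : ∑ i ∈ range n, Real.exp (-y) ^ i ≤ 2 / y := by
    have h10 : (∑ i ∈ range n, Real.exp (-y) ^ i) * (1 - Real.exp (-y)) =
        1 - Real.exp (-y) ^ n := geom_sum_mul_neg (Real.exp (-y)) n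
    have h11 : (∑ i ∈ range n, Real.exp (-y) ^ i) * (1 - Real.exp (-y)) ≤ 1 := by
      rw [h10]
      have : 0 ≤ Real.exp (-y) ^ n := by positivity
      linarith
    have h12 : 0 ≤ ∑ i ∈ range n, Real.exp (-y) ^ i := sum_nonneg fun i _ => pow_nonneg hρ0 i
    rw [le_div_iff₀ hy0]
    nlinarith [mul_le_mul_of_nonneg_left h9 h12]
  calc ∑ j ∈ Icc 1 n, w ^ (-((n : ℝ) / j)) ≤ ∑ j ∈ Icc 1 n, w⁻¹ * Real.exp (-y) ^ (n - j) :=
        sum_le_sum hterm
    _ = w⁻¹ * ∑ i ∈ range n, Real.exp (-y) ^ i := hsum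
    _ ≤ w⁻¹ * (2 / y) := mul_le_mul_of_nonneg_left hgeom (inv_nonneg.mpr hw0.le)
    _ = 2 * n / (w * Real.log w) := by
        rw [hlw]
        field_simp

end TZ
end

section

/-!
# TZ ParC: the density qq (easy/medium)

`qq m t = (10 * 2^t * LL t / m^t)^(1/(t-1))` (real power), `10 * 2^t * LL t = 20480 * 4^t/(t+2)`.
`qq_pow`: `Real.rpow_natCast`, `Real.rpow_mul`; `((t - 1 : ℕ) : ℝ) = t - 1`.
`qq_le`: put `j = t - 1`; `20480 * 4^t/(t+2) ≤ 5120 * 4^t = 20480 * 4^j`, so `qq ≤ (20480 * 4^j * m^(-(j+1)))^(1/j) = 20480^(1/j) * 4 * m^(-1) * m^(-1/j)` and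
`20480^(1/j) ≤ 20480`.
`root_le`: `n^n/n! ≤ exp n ≤ 3^n` (`Real.pow_div_factorial_le_exp`), so `n! ≥ (n/3)^n` and `m > n!/(16 (2C)^n) ≥ w^n/16` with `w = n/(6C)`; so
`m^(-1/j) ≤ (w^n/16)^(-1/j) = 16^(1/j) w^(-n/j) ≤ 16 w^(-n/j)`.
-/

set_option autoImplicit false

open Finset

namespace TZ

private theorem LL_pos (t : ℕ) : 0 < LL t := by
  unfold LL
  positivity

private theorem base_pos {m t : ℕ} (hm : 1 ≤ m) : 0 < 10 * 2 ^ t * LL t / (m : ℝ) ^ t := by
  have h1 := LL_pos t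
  have h2 : (0 : ℝ) < m := by exact_mod_cast hm
  positivity

theorem qq_pos {m t : ℕ} (hm : 1 ≤ m) (ht : 2 ≤ t) : 0 < qq m t :=
  Real.rpow_pos_of_pos (base_pos hm) _

theorem qq_pow {m t : ℕ} (hm : 1 ≤ m) (ht : 2 ≤ t) :
    qq m t ^ (t - 1) = 10 * 2 ^ t * LL t / (m : ℝ) ^ t := by
  unfold qq
  rw [← Real.rpow_natCast, ← Real.rpow_mul (base_pos hm).le]
  have h1 : ((t - 1 : ℕ) : ℝ) = (t : ℝ) - 1 := by
    rw [Nat.cast_sub (by omega), Nat.cast_one]
  have h2 : (0 : ℝ) < (t : ℝ) - 1 := by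
    have : (2 : ℝ) ≤ t := by exact_mod_cast ht
    linarith
  rw [h1, one_div, inv_mul_cancel₀ h2.ne', Real.rpow_one]

theorem qq_le {m t : ℕ} (hm : 1 ≤ m) (ht : 2 ≤ t) :
    (m : ℝ) * qq m t ≤ 81920 * (m : ℝ) ^ (-((1 : ℝ) / ((t : ℝ) - 1))) := by
  have hm0 : (0 : ℝ) < m := by exact_mod_cast hm
  obtain ⟨j, rfl⟩ : ∃ j, t = j + 1 := ⟨t - 1, by omega⟩
  have hj : 1 ≤ j := by omega
  have hj0 : (0 : ℝ) < j := by exact_mod_cast hj
  have hne : j ≠ 0 := by omega
  have hq := qq_pos hm ht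
  have hqp := qq_pow hm ht
  rw [Nat.add_sub_cancel] at hqp
  have hr0 : 0 < (m : ℝ) ^ (-((1 : ℝ) / (((j + 1 : ℕ) : ℝ) - 1))) := Real.rpow_pos_of_pos hm0 _
  refine (pow_le_pow_iff_left₀ (by positivity) (by positivity) hne).mp ?_
  have h1 : ((m : ℝ) ^ (-((1 : ℝ) / (((j + 1 : ℕ) : ℝ) - 1)))) ^ j = (m : ℝ)⁻¹ := by
    rw [← Real.rpow_natCast, ← Real.rpow_mul hm0.le]
    have h2 : -((1 : ℝ) / (((j + 1 : ℕ) : ℝ) - 1)) * (j : ℝ) = -1 := by
      push_cast
      rw [add_sub_cancel_right]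
      field_simp
    rw [h2, Real.rpow_neg_one]
  rw [mul_pow, mul_pow, h1, hqp]
  unfold LL
  have h3 : (m : ℝ) ^ j * (10 * 2 ^ (j + 1) * (2048 * 2 ^ (j + 1) / (((j + 1 : ℕ) : ℝ) + 2)) /
      (m : ℝ) ^ (j + 1)) = (81920 * 4 ^ j / ((j : ℝ) + 3)) * (m : ℝ)⁻¹ := by
    have h4 : (4 : ℝ) ^ j = 2 ^ j * 2 ^ j := by
      rw [← mul_pow]
      norm_num
    rw [h4]
    push_cast
    field_simp
    ring
  rw [h3]
  refine mul_le_mul_of_nonneg_right ?_ (by positivity)
  have h5 : (81920 * 4 ^ j / ((j : ℝ) + 3)) ≤ 20480 * 4 ^ j := by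
    rw [div_le_iff₀ (by positivity)]
    have h6 : (1 : ℝ) ≤ j := by exact_mod_cast hj
    have h7 : (0 : ℝ) < 4 ^ j := by positivity
    nlinarith
  have h8 : (20480 : ℝ) * 4 ^ j ≤ 81920 ^ j := by
    have h9 : (81920 : ℝ) ^ j = 20480 ^ j * 4 ^ j := by
      rw [← mul_pow]
      norm_num
    rw [h9]
    refine mul_le_mul_of_nonneg_right ?_ (by positivity)
    exact le_self_pow₀ (by norm_num) hne
  exact h5.trans h8

theorem root_le {C n m j : ℕ} (hC : 1 ≤ C) (hj : 1 ≤ j) (hjn : j ≤ n)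
    (h : n.factorial < 16 * (2 * C) ^ n * m) :
    (m : ℝ) ^ (-((1 : ℝ) / j)) ≤ 16 * ((n : ℝ) / (6 * C)) ^ (-((n : ℝ) / j)) := by
  have hm : 1 ≤ m := by
    rcases Nat.eq_zero_or_pos m with h0 | h0
    · subst h0
      simp at h
    · exact h0
  have hm0 : (0 : ℝ) < m := by exact_mod_cast hm
  have hC0 : (0 : ℝ) < C := by exact_mod_cast hC
  have hj0 : (0 : ℝ) < j := by exact_mod_cast hj
  have hn0 : (0 : ℝ) < n := by exact_mod_cast (lt_of_lt_of_le hj hjn)
  have hne : j ≠ 0 := by omega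
  have hw0 : (0 : ℝ) < (n : ℝ) / (6 * C) := by positivity
  refine (pow_le_pow_iff_left₀ (Real.rpow_pos_of_pos hm0 _).le
    (mul_pos (by norm_num) (Real.rpow_pos_of_pos hw0 _)).le hne).mp ?_
  have h1 : ((m : ℝ) ^ (-((1 : ℝ) / j))) ^ j = (m : ℝ)⁻¹ := by
    rw [← Real.rpow_natCast, ← Real.rpow_mul hm0.le]
    have h2 : -((1 : ℝ) / j) * (j : ℝ) = -1 := by
      field_simp
    rw [h2, Real.rpow_neg_one]
  have h3 : (((n : ℝ) / (6 * C)) ^ (-((n : ℝ) / j))) ^ j = (((n : ℝ) / (6 * C)) ^ n)⁻¹ := by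
    rw [← Real.rpow_natCast, ← Real.rpow_mul hw0.le]
    have h2 : -((n : ℝ) / j) * (j : ℝ) = -(n : ℝ) := by
      field_simp
    rw [h2, Real.rpow_neg hw0.le, Real.rpow_natCast]
  rw [mul_pow, h1, h3]
  have h4 : (n : ℝ) ^ n ≤ 3 ^ n * n.factorial := by
    have h5 : (n : ℝ) ^ n / n.factorial ≤ Real.exp n :=
      Real.pow_div_factorial_le_exp (n : ℝ) hn0.le n
    have h6 : Real.exp n ≤ 3 ^ n := by
      have h7 : Real.exp (n : ℝ) = Real.exp 1 ^ n := by
        rw [← Real.exp_nat_mul, mul_one]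
      rw [h7]
      exact pow_le_pow_left₀ (Real.exp_pos _).le Real.exp_one_lt_three.le n
    have h8 : (0 : ℝ) < n.factorial := by exact_mod_cast Nat.factorial_pos n
    rw [div_le_iff₀ h8] at h5
    exact h5.trans (mul_le_mul_of_nonneg_right h6 h8.le)
  have h9 : (n.factorial : ℝ) ≤ 16 * (2 * C) ^ n * m := by exact_mod_cast h.le
  have h10 : (n : ℝ) ^ n ≤ 16 * (6 * C) ^ n * m := by
    have h11 : (6 * (C : ℝ)) ^ n = 3 ^ n * (2 * C) ^ n := by
      rw [← mul_pow]
      congr 1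
      ring
    rw [h11]
    calc (n : ℝ) ^ n ≤ 3 ^ n * n.factorial := h4
      _ ≤ 3 ^ n * (16 * (2 * C) ^ n * m) := mul_le_mul_of_nonneg_left h9 (by positivity)
      _ = 16 * (3 ^ n * (2 * C) ^ n) * m := by ring
  have h12 : (16 : ℝ) ≤ 16 ^ j := le_self_pow₀ (by norm_num) hne
  rw [div_pow, inv_div, inv_eq_one_div, div_le_iff₀ hm0]
  have h13 : (16 : ℝ) ^ j * ((6 * C) ^ n / (n : ℝ) ^ n) * m =
      (16 ^ j * (6 * C) ^ n * m) / (n : ℝ) ^ n := by
    ring
  rw [h13, le_div_iff₀ (by positivity), one_mul]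
  refine h10.trans ?_
  refine mul_le_mul_of_nonneg_right ?_ hm0.le
  exact mul_le_mul_of_nonneg_right h12 (by positivity)

end TZ
end

section

/-!
# TZ ParE: the conditions Cond (medium)

`M := (10^13 C)^t ≤ m`; everything is generous. `qq m t ^ (t-1) = 20480 * 4^t/((t+2) m^t)` (`qq_pow`). First `qq m t ≤ 1/m`: since `20480 * 4^t/(t+2) ≤ 5120 * 4^t ≤ m` we have
`qq^(t-1) ≤ m^(1-t) = (1/m)^(t-1)` (`pow_le_pow_iff_left`). So `qq ≤ 1`.
c1: `2 k t qq^(t-1) ≤ 2 * (2 C m) * t * 20480 * 4^t/((t+2) m^t) ≤ 81920 C 4^t/m^(t-1) ≤ 81920 C 4^t/m`; `eta t ≥ 1/(1800 * 4^t)` because `2^t + 8 t^2 ≤ 9 * 4^t` (`t^2 ≤ 4^t`). So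
`m ≥ 147456000 C 16^t` suffices. c2: `2 t^2/m ≤ 1/(1800 * 4^t)`: `m ≥ 3600 * 16^t`. c3: `4^t ≤ m/16 ≤ k/16`.
c4: `2^t (k+1) qq^t ≤ 2^t (3 C m)/m^t ≤ 3 C 2^t/m` (`t ≥ 2`).
All follow from `(10^13 C)^t ≤ m`, `t ≥ 2`: `(10^13 C)^t ≥ 10^26 C^2 16^(t-2) ≥ 10^10 C 16^t`.
-/

set_option autoImplicit false

open Finset

namespace TZ

private theorem parE_main {C m t : ℕ} (hC : 1 ≤ C) (ht : 2 ≤ t) (hK : (10 ^ 13 * C) ^ t ≤ m) :
    10 ^ 10 * C * 16 ^ t ≤ m := by
  refine le_trans ?_ hK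
  have h1 : (10 ^ 13 * C) ^ t = 16 ^ t * ((625 * 10 ^ 9) ^ t * C ^ t) := by
    rw [← mul_pow, ← mul_pow]
    congr 1
    ring
  rw [h1]
  have h2 : 10 ^ 10 ≤ (625 * 10 ^ 9) ^ t := by
    calc 10 ^ 10 ≤ (625 * 10 ^ 9) ^ 1 := by norm_num
      _ ≤ (625 * 10 ^ 9) ^ t := Nat.pow_le_pow_right (by norm_num) (by omega)
  have h3 : C ≤ C ^ t := by
    calc C = C ^ 1 := (pow_one C).symm
      _ ≤ C ^ t := Nat.pow_le_pow_right hC (by omega)
  calc 10 ^ 10 * C * 16 ^ t = 16 ^ t * (10 ^ 10 * C) := by ring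
    _ ≤ 16 ^ t * ((625 * 10 ^ 9) ^ t * C ^ t) :=
      Nat.mul_le_mul_left _ (Nat.mul_le_mul h2 h3)

private theorem parE_sq (t : ℕ) : (t : ℝ) ^ 2 ≤ 4 ^ t := by
  have h1 : t < 2 ^ t := Nat.lt_two_pow_self
  have h2 : (t : ℝ) ≤ 2 ^ t := by exact_mod_cast h1.le
  have h3 : (0 : ℝ) ≤ t := Nat.cast_nonneg t
  calc (t : ℝ) ^ 2 ≤ (2 ^ t) ^ 2 := pow_le_pow_left₀ h3 h2 2
    _ = 4 ^ t := by rw [← pow_mul, mul_comm, pow_mul]; norm_num

private theorem parE_eta (t : ℕ) : 1 / (1800 * (4 : ℝ) ^ t) ≤ eta t := by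
  unfold eta
  have h1 : (2 : ℝ) ^ t ≤ 4 ^ t := pow_le_pow_left₀ (by norm_num) (by norm_num) t
  have h2 := parE_sq t
  have h3 : (0 : ℝ) < 2 ^ t := by positivity
  have h4 : (0 : ℝ) ≤ (t : ℝ) ^ 2 := by positivity
  refine one_div_le_one_div_of_le (by positivity) ?_
  nlinarith

theorem cond_qq {C k m t : ℕ} (hC : 1 ≤ C) (ht : 2 ≤ t) (hmk : m ≤ k) (hkm : k ≤ 2 * C * m)
    (hK : (10 ^ 13 * C) ^ t ≤ m) : Cond k t (qq m t) := by
  have hmain := parE_main hC ht hK
  have hmR : (10 : ℝ) ^ 10 * C * 16 ^ t ≤ m := by exact_mod_cast hmain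
  have hCR : (1 : ℝ) ≤ C := by exact_mod_cast hC
  have htR : (2 : ℝ) ≤ t := by exact_mod_cast ht
  have h16 : (0 : ℝ) < 16 ^ t := by positivity
  have h4pos : (0 : ℝ) < 4 ^ t := by positivity
  have h4one : (1 : ℝ) ≤ 4 ^ t := one_le_pow₀ (by norm_num)
  have h44 : (16 : ℝ) ^ t = 4 ^ t * 4 ^ t := by rw [← mul_pow]; norm_num
  have h2le : (2 : ℝ) ^ t ≤ 4 ^ t := pow_le_pow_left₀ (by norm_num) (by norm_num) t
  have h2pos : (0 : ℝ) < 2 ^ t := by positivity
  have h4le16 : (4 : ℝ) ^ t ≤ 16 ^ t := by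
    rw [h44]; exact le_mul_of_one_le_left h4pos.le h4one
  have hC16 : (16 : ℝ) ^ t ≤ C * 16 ^ t := le_mul_of_one_le_left h16.le hCR
  have hmpos : (0 : ℝ) < m := by
    refine lt_of_lt_of_le ?_ hmR
    positivity
  have hm1 : 1 ≤ m := by
    have : (0 : ℝ) < m := hmpos
    exact_mod_cast this
  have hm1R : (1 : ℝ) ≤ m := by exact_mod_cast hm1
  have hkmR : (k : ℝ) ≤ 2 * C * m := by exact_mod_cast hkm
  have hmkR : (m : ℝ) ≤ k := by exact_mod_cast hmk
  set x : ℝ := qq m t with hx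
  have hx0 : 0 < x := qq_pos hm1 ht
  have hpow : x ^ (t - 1) = 10 * 2 ^ t * LL t / (m : ℝ) ^ t := qq_pow hm1 ht
  have hLL : 10 * 2 ^ t * LL t = 20480 * 4 ^ t / ((t : ℝ) + 2) := by
    unfold LL
    have h1 : (4 : ℝ) ^ t = 2 ^ t * 2 ^ t := by rw [← mul_pow]; norm_num
    rw [h1]
    ring
  have ht2 : (0 : ℝ) < (t : ℝ) + 2 := by linarith
  have hmt : (0 : ℝ) < (m : ℝ) ^ t := pow_pos hmpos t
  have hmt1 : (m : ℝ) ^ t = m ^ (t - 1) * m := by
    rw [← pow_succ]; congr 1; omega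
  have hmt1pos : (0 : ℝ) < (m : ℝ) ^ (t - 1) := pow_pos hmpos _
  -- the first claim
  have hmx : (m : ℝ) * x ≤ 1 := by
    have h1 : ((m : ℝ) * x) ^ (t - 1) ≤ 1 := by
      rw [mul_pow, hpow, hLL, hmt1]
      have h2 : (m : ℝ) ^ (t - 1) * (20480 * 4 ^ t / ((t : ℝ) + 2) / ((m : ℝ) ^ (t - 1) * m)) =
          20480 * 4 ^ t / (((t : ℝ) + 2) * m) := by
        field_simp
      rw [h2, div_le_one (by positivity)]
      have h3 : (4 : ℝ) * m ≤ ((t : ℝ) + 2) * m :=
        mul_le_mul_of_nonneg_right (by linarith) hmpos.le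
      nlinarith
    have h2 : 0 ≤ (m : ℝ) * x := by positivity
    exact (pow_le_one_iff_of_nonneg h2 (by omega)).1 h1
  have hx1 : x ≤ 1 / m := by
    rw [le_div_iff₀ hmpos]; linarith
  have hxle1 : x ≤ 1 := by
    refine hx1.trans ?_
    rw [div_le_one hmpos]; exact hm1R
  have heta := parE_eta t
  refine ⟨hx0, hxle1, ?_, ?_, ?_, ?_⟩
  · refine le_trans ?_ heta
    rw [hpow, hLL]
    have h1 : 2 * (k : ℝ) * t * (20480 * 4 ^ t / ((t : ℝ) + 2) / (m : ℝ) ^ t) ≤
        2 * (2 * C * m) * t * (20480 * 4 ^ t / ((t : ℝ) + 2) / (m : ℝ) ^ t) := by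
      have : 0 ≤ (20480 * 4 ^ t / ((t : ℝ) + 2) / (m : ℝ) ^ t) := by positivity
      gcongr
    refine h1.trans ?_
    have h2 : (t : ℝ) / ((t : ℝ) + 2) ≤ 1 := by rw [div_le_one ht2]; linarith
    have h3 : 2 * (2 * (C : ℝ) * m) * t * (20480 * 4 ^ t / ((t : ℝ) + 2) / (m : ℝ) ^ t) =
        81920 * C * 4 ^ t * (m / (m : ℝ) ^ t) * ((t : ℝ) / ((t : ℝ) + 2)) := by
      field_simp
      ring
    rw [h3]
    have h4 : (m : ℝ) / (m : ℝ) ^ t ≤ 1 / m := by
      rw [div_le_div_iff₀ hmt hmpos, one_mul]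
      have h5 : (m : ℝ) ^ 2 ≤ (m : ℝ) ^ t := pow_le_pow_right₀ hm1R ht
      nlinarith
    have h5 : 81920 * (C : ℝ) * 4 ^ t * (m / (m : ℝ) ^ t) * ((t : ℝ) / ((t : ℝ) + 2)) ≤
        81920 * C * 4 ^ t * (1 / m) * 1 := by
      have : (0 : ℝ) ≤ m / (m : ℝ) ^ t := by positivity
      gcongr
    refine h5.trans ?_
    rw [mul_one, mul_one_div, div_le_div_iff₀ hmpos (by positivity), one_mul]
    have h6 : 81920 * (C : ℝ) * 4 ^ t * (1800 * 4 ^ t) = 147456000 * (C * 16 ^ t) := by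
      rw [h44]; ring
    rw [h6]
    have h7 : (0 : ℝ) < C * 16 ^ t := by positivity
    nlinarith
  · refine le_trans ?_ heta
    have h1 : 2 * (t : ℝ) ^ 2 * x ≤ 2 * 4 ^ t * (1 / m) := by
      have := parE_sq t
      gcongr
    refine h1.trans ?_
    rw [mul_one_div, div_le_div_iff₀ hmpos (by positivity), one_mul]
    have h6 : 2 * (4 : ℝ) ^ t * (1800 * 4 ^ t) = 3600 * 16 ^ t := by
      rw [h44]; ring
    rw [h6]
    nlinarith
  · rw [le_div_iff₀ (by norm_num)]
    nlinarith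
  · have h1 : x ^ t ≤ (1 / (m : ℝ)) ^ 2 := by
      calc x ^ t ≤ x ^ 2 := pow_le_pow_of_le_one hx0.le hxle1 ht
        _ ≤ (1 / (m : ℝ)) ^ 2 := pow_le_pow_left₀ hx0.le hx1 2
    have h2 : (k : ℝ) + 1 ≤ 3 * C * m := by
      have : (1 : ℝ) ≤ C * m := by
        calc (1 : ℝ) = 1 * 1 := by ring
          _ ≤ C * m := mul_le_mul hCR hm1R (by norm_num) (by linarith)
      linarith
    have h3 : 2 ^ t * ((k : ℝ) + 1) * x ^ t ≤ 2 ^ t * (3 * C * m) * (1 / (m : ℝ)) ^ 2 := by
      have : (0 : ℝ) ≤ x ^ t := by positivity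
      gcongr
    refine h3.trans ?_
    have h4 : (2 : ℝ) ^ t * (3 * C * m) * (1 / (m : ℝ)) ^ 2 = 3 * C * 2 ^ t / m := by
      field_simp
    rw [h4, div_le_div_iff₀ hmpos (by norm_num), one_mul]
    have h5 : (C : ℝ) * 2 ^ t ≤ C * 16 ^ t := by
      have : (2 : ℝ) ^ t ≤ 16 ^ t := h2le.trans h4le16
      exact mul_le_mul_of_nonneg_left this (by linarith)
    nlinarith

end TZ
end

section

/-!
# TZ ParF: the sum of the sizes of the sets R (medium)

`LL t/eta t = 409600 * 2^t (2^t + 8 t^2)/(t+2) ≤ 102400 * 2^t * 9 * 4^t = 921600 * 8^t` (`t^2 ≤ 4^t`). `2 t^2 + 3 t^2 log k ≤ 4^t (2 + 3 log k)`. Sum over `t ∈ Icc 2 s` (at most `s ≤ 2^s`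
terms, each at most the one with `t = s`): `≤ 921600 * 64^s (2 + 3 log k)`. `log k ≤ log (2 C m) ≤ 2 √(2 C m)` and `2 ≤ 2 √(2 C m)`: `2 + 3 log k ≤ 8 √(2 C m)`. So it suffices that
`737280000 * 64^s √(2C) ≤ √m`, i.e. `(737280000)^2 * 4096^s * 2 C ≤ m`; and `m ≥ (10^13 C)^s ≥ 10^26 C^2 4096^(s-2)`, `10^26 ≥ 2 * (737280000)^2 * 4096^2`.
-/

set_option autoImplicit false

open Finset

namespace TZ

private theorem pf_sq_le (t : ℕ) : (t : ℝ) ^ 2 ≤ 4 ^ t := by
  have h : (t : ℝ) ≤ 2 ^ t := by exact_mod_cast Nat.lt_two_pow_self.le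
  have h4 : (4 : ℝ) ^ t = (2 ^ t) ^ 2 := by
    rw [← pow_mul, mul_comm, pow_mul]
    norm_num
  rw [h4]
  exact pow_le_pow_left₀ (Nat.cast_nonneg t) h 2

private theorem pf_ratio {t : ℕ} (ht : 2 ≤ t) : LL t / eta t ≤ 921600 * 8 ^ t := by
  have h1 : LL t / eta t = 409600 * (2 ^ t * (2 ^ t + 8 * (t : ℝ) ^ 2)) / ((t : ℝ) + 2) := by
    unfold LL eta
    have h2 : (0 : ℝ) < 2 ^ t + 8 * (t : ℝ) ^ 2 := by positivity
    field_simp
    ring
  have h2 : (2 : ℝ) ≤ t := by exact_mod_cast ht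
  have h3 := pf_sq_le t
  have h4 : (2 : ℝ) ^ t ≤ 4 ^ t := pow_le_pow_left₀ (by norm_num) (by norm_num) t
  have h5 : (8 : ℝ) ^ t = 2 ^ t * 4 ^ t := by
    rw [← mul_pow]
    norm_num
  rw [h1, div_le_iff₀ (by positivity), h5]
  have h6 : (0 : ℝ) < 2 ^ t := by positivity
  have h7 : (2 : ℝ) ^ t * (2 ^ t + 8 * (t : ℝ) ^ 2) ≤ 2 ^ t * (9 * 4 ^ t) :=
    mul_le_mul_of_nonneg_left (by linarith) h6.le
  have h8 : 0 < (2 : ℝ) ^ t * 4 ^ t := by positivity
  nlinarith

theorem sumR_le {C k m s : ℕ} (hC : 1 ≤ C) (hs : 2 ≤ s) (hk : 1 ≤ k) (hkm : k ≤ 2 * C * m)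
    (hK : (10 ^ 13 * C) ^ s ≤ m) :
    ∑ t ∈ Icc 2 s, (2 * (t : ℝ) ^ 2 + 3 * (t : ℝ) ^ 2 * Real.log k) * (LL t / eta t) ≤
      (m : ℝ) / 100 := by
  have hk0 : (1 : ℝ) ≤ k := by exact_mod_cast hk
  have hlog : 0 ≤ Real.log k := Real.log_nonneg hk0
  have hC0 : (1 : ℝ) ≤ C := by exact_mod_cast hC
  have hkm' : (k : ℝ) ≤ 2 * C * m := by exact_mod_cast hkm
  have hm0 : (0 : ℝ) < m := by
    by_contra hc
    have hm' : (m : ℝ) = 0 := le_antisymm (not_lt.1 hc) (Nat.cast_nonneg m)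
    rw [hm'] at hkm'
    linarith
  -- each term
  have hterm : ∀ t ∈ Icc 2 s, (2 * (t : ℝ) ^ 2 + 3 * (t : ℝ) ^ 2 * Real.log k) * (LL t / eta t) ≤
      921600 * 32 ^ s * (2 + 3 * Real.log k) := by
    intro t ht
    rw [mem_Icc] at ht
    have h1 := pf_ratio ht.1
    have h2 := pf_sq_le t
    have h3 : 2 * (t : ℝ) ^ 2 + 3 * (t : ℝ) ^ 2 * Real.log k ≤ 4 ^ t * (2 + 3 * Real.log k) := by
      have : 2 * (t : ℝ) ^ 2 + 3 * (t : ℝ) ^ 2 * Real.log k =
          (t : ℝ) ^ 2 * (2 + 3 * Real.log k) := by ring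
      rw [this]
      exact mul_le_mul_of_nonneg_right h2 (by positivity)
    have h4 : (2 * (t : ℝ) ^ 2 + 3 * (t : ℝ) ^ 2 * Real.log k) * (LL t / eta t) ≤
        (4 ^ t * (2 + 3 * Real.log k)) * (921600 * 8 ^ t) := by
      have h5 : 0 ≤ LL t / eta t := by
        unfold LL eta
        positivity
      exact mul_le_mul h3 h1 h5 (by positivity)
    refine h4.trans ?_
    have h6 : (4 : ℝ) ^ t * 8 ^ t = 32 ^ t := by
      rw [← mul_pow]
      norm_num
    have h7 : (32 : ℝ) ^ t ≤ 32 ^ s := pow_le_pow_right₀ (by norm_num) ht.2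
    calc (4 ^ t * (2 + 3 * Real.log k)) * (921600 * 8 ^ t)
        = 921600 * (4 ^ t * 8 ^ t) * (2 + 3 * Real.log k) := by ring
      _ = 921600 * 32 ^ t * (2 + 3 * Real.log k) := by rw [h6]
      _ ≤ 921600 * 32 ^ s * (2 + 3 * Real.log k) := by
          refine mul_le_mul_of_nonneg_right ?_ (by positivity)
          exact mul_le_mul_of_nonneg_left h7 (by norm_num)
  have hsum : ∑ t ∈ Icc 2 s, (2 * (t : ℝ) ^ 2 + 3 * (t : ℝ) ^ 2 * Real.log k) * (LL t / eta t) ≤
      921600 * 64 ^ s * (2 + 3 * Real.log k) := by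
    refine (sum_le_card_nsmul _ _ _ hterm).trans ?_
    rw [Nat.card_Icc, nsmul_eq_mul]
    have h1 : ((s + 1 - 2 : ℕ) : ℝ) ≤ 2 ^ s := by
      have h2 : s + 1 - 2 ≤ 2 ^ s := by
        have := Nat.lt_two_pow_self (n := s)
        omega
      exact_mod_cast h2
    have h3 : (64 : ℝ) ^ s = 2 ^ s * 32 ^ s := by
      rw [← mul_pow]
      norm_num
    calc ((s + 1 - 2 : ℕ) : ℝ) * (921600 * 32 ^ s * (2 + 3 * Real.log k))
        ≤ 2 ^ s * (921600 * 32 ^ s * (2 + 3 * Real.log k)) :=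
          mul_le_mul_of_nonneg_right h1 (by positivity)
      _ = 921600 * 64 ^ s * (2 + 3 * Real.log k) := by rw [h3]; ring
  refine hsum.trans ?_
  -- the logarithm
  set X : ℝ := √(2 * C * m) with hX
  have hX0 : 0 < X := Real.sqrt_pos.2 (by positivity)
  have hXsq : X ^ 2 = 2 * C * m := Real.sq_sqrt (by positivity)
  have hlogX : 2 + 3 * Real.log k ≤ 6 * X := by
    have h1 : Real.log k ≤ Real.log (X ^ 2) := by
      rw [hXsq]
      exact Real.log_le_log (by linarith) hkm'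
    have h2 : Real.log (X ^ 2) = 2 * Real.log X := by
      rw [Real.log_pow]
      norm_num
    have h3 := Real.log_le_sub_one_of_pos hX0
    linarith
  -- the lower bound for `m`
  have hmlow : (552960000 : ℝ) ^ 2 * 4096 ^ s * (2 * C) ≤ m := by
    obtain ⟨j, rfl⟩ : ∃ j, s = j + 2 := ⟨s - 2, by omega⟩
    have h1 : ((10 ^ 13 * (C : ℝ)) ^ (j + 2)) ≤ m := by exact_mod_cast hK
    refine le_trans ?_ h1
    have h2 : (4096 : ℝ) ^ j ≤ (10 ^ 13 * (C : ℝ)) ^ j := by
      refine pow_le_pow_left₀ (by norm_num) ?_ j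
      linarith
    have h3 : (10 ^ 13 * (C : ℝ)) ^ (j + 2) = (10 ^ 13 * (C : ℝ)) ^ j * (10 ^ 26 * (C : ℝ) ^ 2) := by
      rw [pow_add]
      ring
    have h4 : (552960000 : ℝ) ^ 2 * 4096 ^ (j + 2) * (2 * C) =
        4096 ^ j * (552960000 ^ 2 * 4096 ^ 2 * 2 * C) := by
      rw [pow_add]
      ring
    rw [h3, h4]
    have h5 : (552960000 : ℝ) ^ 2 * 4096 ^ 2 * 2 * C ≤ 10 ^ 26 * (C : ℝ) ^ 2 := by
      nlinarith
    exact mul_le_mul h2 h5 (by positivity) (by positivity)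
  have hfin : 552960000 * 64 ^ s * X ≤ m := by
    refine (pow_le_pow_iff_left₀ (by positivity) hm0.le (two_ne_zero)).mp ?_
    have h6 : ((64 : ℝ) ^ s) ^ 2 = 4096 ^ s := by
      rw [← pow_mul, mul_comm, pow_mul]
      norm_num
    calc (552960000 * 64 ^ s * X) ^ 2 = 552960000 ^ 2 * ((64 : ℝ) ^ s) ^ 2 * X ^ 2 := by
          rw [mul_pow, mul_pow]
      _ = ((552960000 : ℝ) ^ 2 * 4096 ^ s * (2 * (C : ℝ))) * (m : ℝ) := by
          rw [h6, hXsq]; ring
      _ ≤ (m : ℝ) * m := mul_le_mul_of_nonneg_right hmlow hm0.le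
      _ = (m : ℝ) ^ 2 := by ring
  calc 921600 * 64 ^ s * (2 + 3 * Real.log k) ≤ 921600 * 64 ^ s * (6 * X) :=
        mul_le_mul_of_nonneg_left hlogX (by positivity)
    _ = (552960000 * 64 ^ s * X) / 100 := by ring
    _ ≤ m / 100 := by linarith

end TZ
end

section

/-!
# TZ ParD: the sum of the sizes of the sets G (easy/medium)

Put `n = s - 1`, `w = n/(6C)`. By `qq_le`, `root_le` (with `j = t - 1`) and `k ≤ 2 C m`: `2048 k qq m t ≤ 4096 C (m qq m t) ≤ 4096 C * 81920 * 16 * w^(-n/j)`. Sum over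
`j ∈ Icc 1 n` with `sum_rpow_le` (`w > 1`, `log w ≤ w ≤ n`): `≤ 4096 * 81920 * 16 * C * 2 n/(w log w) = c C^2/log w` with `c = 4096 * 81920 * 16 * 12` (`n/w = 6 C`), at most `1/20`
as soon as `log w ≥ 20 c C^2`, i.e. for all `s ≥ S`, `S` chosen by `Real.log` → ∞ (e.g. `S = 2 + 6 C * ⌈exp (20 c C^2)⌉`).
-/

set_option autoImplicit false

open Finset

namespace TZ

theorem sumG_le (C : ℕ) (hC : 1 ≤ C) : ∃ S : ℕ, ∀ s m k : ℕ, S ≤ s → 1 ≤ m → k ≤ 2 * C * m →
    (s - 1).factorial < 16 * (2 * C) ^ (s - 1) * m →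
      ∑ t ∈ Icc 2 s, 2048 * (k : ℝ) * qq m t ≤ 1 / 20 := by
  have hC1 : (1 : ℝ) ≤ C := by exact_mod_cast hC
  have hC0 : (0 : ℝ) < C := by linarith
  obtain ⟨c, hc⟩ : ∃ c : ℝ, c = 4096 * 81920 * 16 * 12 := ⟨_, rfl⟩
  have hc0 : 0 < c := by
    rw [hc]
    norm_num
  refine ⟨2 + ⌈6 * (C : ℝ) * Real.exp (20 * c * (C : ℝ) ^ 2)⌉₊, ?_⟩
  intro s m k hs hm hk h
  obtain ⟨n, hn⟩ : ∃ n : ℕ, s = n + 1 := ⟨s - 1, by omega⟩
  subst hn
  rw [Nat.add_sub_cancel] at h
  have hn1 : 1 ≤ n := by omega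
  have hn0 : (0 : ℝ) < n := by
    have : 0 < n := by omega
    exact_mod_cast this
  obtain ⟨w, hw⟩ : ∃ w : ℝ, w = (n : ℝ) / (6 * C) := ⟨_, rfl⟩
  have hwe : Real.exp (20 * c * (C : ℝ) ^ 2) ≤ w := by
    rw [hw, le_div_iff₀ (by positivity)]
    have h1 : ⌈6 * (C : ℝ) * Real.exp (20 * c * (C : ℝ) ^ 2)⌉₊ ≤ n := by omega
    have h2 := Nat.ceil_le.1 h1
    linarith
  have hpos : 0 < 20 * c * (C : ℝ) ^ 2 := by positivity
  have hw1 : 1 < w := lt_of_lt_of_le (Real.one_lt_exp_iff.2 hpos) hwe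
  have hw0 : 0 < w := by linarith
  have hlog : 20 * c * (C : ℝ) ^ 2 ≤ Real.log w := by
    rw [Real.le_log_iff_exp_le hw0]
    exact hwe
  have hlog0 : 0 < Real.log w := by linarith
  have hwn : w ≤ n := by
    rw [hw]
    apply div_le_self hn0.le
    linarith
  have hlogn : Real.log w ≤ n := le_trans (Real.log_le_self hw0.le) hwn
  have hsum := sum_rpow_le n hn1 w hw1 hlogn
  have hm1 : (1 : ℝ) ≤ m := by exact_mod_cast hm
  have hkr : (k : ℝ) ≤ 2 * C * m := by exact_mod_cast hk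
  -- termwise
  have hterm : ∀ j ∈ Icc 1 n, 2048 * (k : ℝ) * qq m (j + 1) ≤
      (4096 * 81920 * 16 * C) * w ^ (-((n : ℝ) / j)) := by
    intro j hj
    rw [mem_Icc] at hj
    have hq0 : 0 < qq m (j + 1) := qq_pos hm (by omega)
    have h1 := qq_le (m := m) (t := j + 1) hm (by omega)
    have h2 := root_le (C := C) (n := n) (m := m) (j := j) hC hj.1 hj.2 h
    have h3 : (((j + 1 : ℕ) : ℝ) - 1) = j := by
      push_cast
      ring
    rw [h3] at h1
    rw [← hw] at h2
    have h4 : (m : ℝ) * qq m (j + 1) ≤ 81920 * (16 * w ^ (-((n : ℝ) / j))) :=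
      le_trans h1 (mul_le_mul_of_nonneg_left h2 (by norm_num))
    calc 2048 * (k : ℝ) * qq m (j + 1) ≤ 2048 * (2 * C * m) * qq m (j + 1) := by
          apply mul_le_mul_of_nonneg_right _ hq0.le
          linarith
      _ = 4096 * C * ((m : ℝ) * qq m (j + 1)) := by ring
      _ ≤ 4096 * C * (81920 * (16 * w ^ (-((n : ℝ) / j)))) :=
          mul_le_mul_of_nonneg_left h4 (by positivity)
      _ = (4096 * 81920 * 16 * C) * w ^ (-((n : ℝ) / j)) := by ring
  have hre : ∑ t ∈ Icc 2 (n + 1), 2048 * (k : ℝ) * qq m t =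
      ∑ j ∈ Icc 1 n, 2048 * (k : ℝ) * qq m (j + 1) := by
    refine Finset.sum_nbij' (fun t => t - 1) (fun j => j + 1) ?_ ?_ ?_ ?_ ?_
    · intro t ht
      rw [mem_Icc] at ht ⊢
      omega
    · intro j hj
      rw [mem_Icc] at hj ⊢
      omega
    · intro t ht
      rw [mem_Icc] at ht
      omega
    · intro j hj
      rw [Nat.add_sub_cancel]
    · intro t ht
      rw [mem_Icc] at ht
      rw [Nat.sub_add_cancel (by omega)]
  rw [hre]
  calc ∑ j ∈ Icc 1 n, 2048 * (k : ℝ) * qq m (j + 1)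
      ≤ ∑ j ∈ Icc 1 n, (4096 * 81920 * 16 * C) * w ^ (-((n : ℝ) / j)) := Finset.sum_le_sum hterm
    _ = (4096 * 81920 * 16 * C) * ∑ j ∈ Icc 1 n, w ^ (-((n : ℝ) / j)) := by
        rw [Finset.mul_sum]
    _ ≤ (4096 * 81920 * 16 * C) * (2 * n / (w * Real.log w)) :=
        mul_le_mul_of_nonneg_left hsum (by positivity)
    _ = c * (C : ℝ) ^ 2 / Real.log w := by
        rw [hc, hw]
        rw [hw] at hlog0
        field_simp
        ring
    _ ≤ 1 / 20 := by
        rw [div_le_div_iff₀ hlog0 (by norm_num)]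
        linarith

end TZ
end

section

/-!
# TZ ParG: existence of the parameters (easy/medium)

`C = 4 (A+1)`, `S` from `sumG_le C`, `m₀` from `exists_s C (10^13 C) S`, `k₀ = C (m₀ + 1) + 3`. For `k ≥ k₀` let `m = k / C` (`≥ m₀ ≥ 1`), so `C m ≤ k < C (m+1) ≤ 2 C m`; `s` from
`exists_s`; `q = qq m`.
`hsk`: `s + 1 < (10^13 C)^s ≤ m ≤ k`. `hbin`: `(k-1).choose s * s! ≤ (k-1)^s ≤ (2 C m)^s` (`Nat.choose_le_pow_div` / `Nat.descFactorial`), so
`16 choose m s! ≤ 16 (2C)^s m * m^s ≤ s! m^s`; cancel `s!`. `hms`: `2000 s ≤ (10^13 C)^s ≤ m ≤ m^2`. `cond`: `(10^13 C)^t ≤ (10^13 C)^s ≤ m` for `t ≤ s`.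
`sumW`: `LL t/(qq^(t-1) m^t) = 1/(10 * 2^t)` (`qq_pow`), `∑_{t≥2} 2^(-t) ≤ 1/2`.
-/

set_option autoImplicit false

open Finset

namespace TZ

private theorem sum_half (s : ℕ) (hs : 1 ≤ s) :
    ∑ t ∈ Icc 2 s, (1 : ℝ) / (10 * 2 ^ t) = 1 / 20 - 1 / (10 * 2 ^ s) := by
  induction s, hs using Nat.le_induction with
  | base => norm_num
  | succ n hn ih =>
    rw [Finset.sum_Icc_succ_top (by omega), ih, pow_succ]
    field_simp
    ring

theorem exists_params (A : ℕ) : ∃ k₀ : ℕ, ∀ k, k₀ ≤ k →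
    ∃ (s m : ℕ) (q : ℕ → ℝ), Params A k s m q := by
  obtain ⟨C, hCdef⟩ : ∃ C, C = 4 * (A + 1) := ⟨_, rfl⟩
  have hC : 1 ≤ C := by omega
  obtain ⟨S, hS⟩ := sumG_le C hC
  obtain ⟨m₀, hm₀, hex⟩ := exists_s C (10 ^ 13 * C) S hC
  refine ⟨C * (m₀ + 1) + 3, fun k hk => ?_⟩
  obtain ⟨m, hmdef⟩ : ∃ m, m = k / C := ⟨_, rfl⟩
  have hmm₀ : m₀ ≤ m := by
    rw [hmdef, Nat.le_div_iff_mul_le (by omega)]
    nlinarith
  have hm : 1 ≤ m := hm₀.trans hmm₀
  have hCm : C * m ≤ k := by rw [hmdef]; exact Nat.mul_div_le k C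
  have hkC : k < C * (m + 1) := by rw [hmdef]; exact Nat.lt_mul_div_succ k (by omega)
  have hkm : k ≤ 2 * C * m := by nlinarith
  have hmk : m ≤ k := le_trans (by nlinarith) hCm
  obtain ⟨s, hSs, hs2, hfac, hfac2, hK⟩ := hex m hmm₀
  have hb : 3 ≤ 10 ^ 13 * C := by omega
  have h2s : s + 1 ≤ 2 ^ s := Nat.lt_two_pow_self
  have h3s : 2 ^ s < (10 ^ 13 * C) ^ s :=
    Nat.pow_lt_pow_left (by omega) (by omega)
  have hsm : s + 1 < m := by omega
  have h2000 : 2000 ≤ m := by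
    refine le_trans ?_ hK
    calc 2000 ≤ (10 ^ 13 * C) ^ 1 := by rw [pow_one]; omega
      _ ≤ (10 ^ 13 * C) ^ s := Nat.pow_le_pow_right (by omega) (by omega)
  refine ⟨s, m, qq m, ?_⟩
  exact
    { hs2 := hs2
      hsk := lt_of_lt_of_le hsm hmk
      hm := hm
      hmk := by rw [← hCdef]; exact hCm
      hbin := by
        have h1 : s.factorial * (k - 1).choose s ≤ (2 * C * m) ^ s := by
          rw [← Nat.descFactorial_eq_factorial_mul_choose]
          exact (Nat.descFactorial_le_pow _ _).trans (Nat.pow_le_pow_left (by omega) _)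
        refine Nat.le_of_mul_le_mul_left ?_ (Nat.factorial_pos s)
        calc s.factorial * (16 * (k - 1).choose s * m)
            = 16 * m * (s.factorial * (k - 1).choose s) := by ring
          _ ≤ 16 * m * (2 * C * m) ^ s := Nat.mul_le_mul_left _ h1
          _ = (16 * (2 * C) ^ s * m) * m ^ s := by rw [mul_pow (2 * C) m s]; ring
          _ ≤ s.factorial * m ^ s := Nat.mul_le_mul_right _ hfac
      hms := by
        rw [pow_two]
        exact Nat.mul_le_mul h2000 (by omega)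
      cond := by
        intro t ht
        rw [mem_Icc] at ht
        refine cond_qq hC ht.1 hmk hkm (le_trans ?_ hK)
        exact Nat.pow_le_pow_right (by omega) ht.2
      sumG := hS s m k hSs hm hkm hfac2
      sumR := sumR_le hC hs2 (by omega) hkm hK
      sumW := by
        have h1 : ∑ t ∈ Icc 2 s, LL t / (qq m t ^ (t - 1) * (m : ℝ) ^ t) =
            ∑ t ∈ Icc 2 s, (1 : ℝ) / (10 * 2 ^ t) := by
          refine sum_congr rfl fun t ht => ?_
          rw [mem_Icc] at ht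
          rw [qq_pow hm ht.1]
          have hmp : (0 : ℝ) < (m : ℝ) ^ t := by
            have : (0 : ℝ) < m := by exact_mod_cast hm
            positivity
          have hL : (0 : ℝ) < LL t := by
            unfold LL
            positivity
          rw [div_mul_cancel₀ _ hmp.ne']
          field_simp
        rw [h1, sum_half s (by omega)]
        have : (0 : ℝ) < 1 / (10 * 2 ^ s) := by positivity
        linarith }

end TZ
end
end
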