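import Mathlib
import Pool.Agent.Lib.MP_1f562f_co.T.Inj
import Pool.Agent.Lib.MP_1f562f_co.T.ParG
import Pool.Agent.Lib.MP_1f562f_co.Part

section

/-!
# TZ NbC: weighted numbers of neighbours (medium)

For `T' ∈ P` let `i = |tch k F T' ∩ Y|`, so `|tch k F T' \ Y| = t - i`.
`wsum`: `i = 0`: `tch k F T'` is disjoint from `tch k F T ⊆ Y`; at most `k Bh` such neighbours (`nb0`), weight `q^t`. `i = 1`: at most
`t BU + 2 k |Y|` (`nb1`), weight `q^(t-1)`. `i ≥ 2`: at most `2 |Y|^2` (`nb2`), weight at most 1 (`0 < q ≤ 1`).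
`wsum1` (`Y = tch k F T`, `|Y| = t`): only `i ≥ 1`. `i = 1`: `nb1`, weight `q^(t-1)`. `i ≥ 2`: `nb2` (`2 t^2`), weight at most `q` because
`tch k F T' \ tch k F T` is nonempty: both have `t` elements and they are different (`hb.inj`, `T ≠ T'`).
-/

set_option autoImplicit false

open Finset

namespace TZ

variable {V : Type*} [DecidableEq V] {k t : ℕ} {TT F P : Finset (Finset V)} {Bh BU q : ℝ}

private theorem nbC_tch_card (hb : Bd k t TT F P Bh BU) {T : Finset V} (hT : T ∈ P) :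
    (tch k F T).card = t := by
  have h1 := hb.sub hT
  unfold NS at h1
  exact (Finset.mem_filter.mp h1).2

private theorem nbC_sub (hb : Bd k t TT F P Bh BU) : P ⊆ TT := by
  intro T hT
  have h1 := hb.sub hT
  unfold NS at h1
  exact (Finset.mem_sdiff.mp (Finset.mem_filter.mp h1).1).1

/-- number of elements outside `Y` -/
private theorem nbC_split (hb : Bd k t TT F P Bh BU) {T' : Finset V} (hT' : T' ∈ P)
    (Y : Finset (Finset V)) : (tch k F T' \ Y).card + (tch k F T' ∩ Y).card = t := by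
  rw [Finset.card_sdiff_add_card_inter, nbC_tch_card hb hT']

/-- a sum of indicators over a filter is the cardinality of a smaller filter -/
private theorem nbC_ind (A B : Finset V → Prop) [DecidablePred A] [DecidablePred B] (c : ℝ) :
    ∑ T' ∈ P.filter A, (if B T' then c else 0) = c * ((P.filter (fun T' => A T' ∧ B T')).card : ℝ) := by
  rw [← Finset.sum_filter, Finset.filter_filter, Finset.sum_const, nsmul_eq_mul, mul_comm]

theorem wsum (h : Std k TT F) (hb : Bd k t TT F P Bh BU) (hq : 0 < q) (hq1 : q ≤ 1)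
    {T : Finset V} (hT : T ∈ P) (Y : Finset (Finset V)) (hY : Y ⊆ F) (hTY : tch k F T ⊆ Y) :
    ∑ T' ∈ P.filter (fun T' => Cf k T T'), q ^ (tch k F T' \ Y).card ≤
      k * Bh * q ^ t + (t * BU + 2 * k * Y.card) * q ^ (t - 1) + 2 * (Y.card : ℝ) ^ 2 := by
  classical
  have hpt : ∀ T' ∈ P.filter (fun T' => Cf k T T'), q ^ (tch k F T' \ Y).card ≤
      (if Disjoint (tch k F T) (tch k F T') then q ^ t else 0) +
      (if (tch k F T' ∩ Y).Nonempty then q ^ (t - 1) else 0) +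
      (if 2 ≤ (tch k F T' ∩ Y).card then (1 : ℝ) else 0) := by
    intro T' hT'
    have hT'P := (Finset.mem_filter.mp hT').1
    have hs := nbC_split (Y := Y) hb hT'P
    have a1 : (0 : ℝ) ≤ (if Disjoint (tch k F T) (tch k F T') then q ^ t else 0) := by
      split_ifs <;> positivity
    have a2 : (0 : ℝ) ≤ (if (tch k F T' ∩ Y).Nonempty then q ^ (t - 1) else 0) := by
      split_ifs <;> positivity
    have a3 : (0 : ℝ) ≤ (if 2 ≤ (tch k F T' ∩ Y).card then (1 : ℝ) else 0) := by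
      split_ifs <;> positivity
    rcases Nat.lt_trichotomy (tch k F T' ∩ Y).card 1 with h0 | h1 | h2
    · have h0' : (tch k F T' ∩ Y).card = 0 := by omega
      have hd : Disjoint (tch k F T) (tch k F T') := by
        rw [Finset.card_eq_zero] at h0'
        rw [Finset.disjoint_left]
        intro S hS hS'
        have : S ∈ tch k F T' ∩ Y := Finset.mem_inter.mpr ⟨hS', hTY hS⟩
        rw [h0'] at this
        simp at this
      have e : (tch k F T' \ Y).card = t := by omega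
      rw [if_pos hd] at a1 ⊢
      rw [e]
      linarith
    · have hne : (tch k F T' ∩ Y).Nonempty := by
        rw [← Finset.card_pos]; omega
      have e : (tch k F T' \ Y).card = t - 1 := by omega
      rw [if_pos hne] at a2 ⊢
      rw [e]
      linarith
    · have h2' : 2 ≤ (tch k F T' ∩ Y).card := by omega
      rw [if_pos h2'] at a3 ⊢
      have : q ^ (tch k F T' \ Y).card ≤ 1 := pow_le_one₀ hq.le hq1
      linarith
  refine (Finset.sum_le_sum hpt).trans ?_
  rw [Finset.sum_add_distrib, Finset.sum_add_distrib, nbC_ind, nbC_ind, nbC_ind]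
  have b0 := nb0 h hb hT
  have b1 := nb1 h hb hT Y hY
  have b2 := nb2 h (nbC_sub hb) Y hY
  have b2' : ((P.filter (fun T' => Cf k T T' ∧ 2 ≤ (tch k F T' ∩ Y).card)).card : ℝ) ≤
      2 * (Y.card : ℝ) ^ 2 := by
    have : (P.filter (fun T' => Cf k T T' ∧ 2 ≤ (tch k F T' ∩ Y).card)).card ≤ 2 * Y.card ^ 2 := by
      refine (Finset.card_le_card ?_).trans b2
      intro T' hT'
      rw [Finset.mem_filter] at hT' ⊢
      exact ⟨hT'.1, hT'.2.2⟩
    exact_mod_cast this
  have c0 := mul_le_mul_of_nonneg_left b0 (pow_nonneg hq.le t)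
  have c1 := mul_le_mul_of_nonneg_left b1 (pow_nonneg hq.le (t - 1))
  linarith

theorem wsum1 (h : Std k TT F) (hb : Bd k t TT F P Bh BU) (hq : 0 < q) (hq1 : q ≤ 1)
    {T : Finset V} (hT : T ∈ P) :
    ∑ T' ∈ P.filter (fun T' => Cf k T T' ∧ ¬ Disjoint (tch k F T) (tch k F T')),
        q ^ (tch k F T' \ tch k F T).card ≤
      (t * BU + 2 * k * t) * q ^ (t - 1) + 2 * (t : ℝ) ^ 2 * q := by
  classical
  have hTc := nbC_tch_card hb hT
  have hY : tch k F T ⊆ F := by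
    unfold tch; exact Finset.filter_subset _ _
  have hpt : ∀ T' ∈ P.filter (fun T' => Cf k T T' ∧ ¬ Disjoint (tch k F T) (tch k F T')),
      q ^ (tch k F T' \ tch k F T).card ≤
      (if (tch k F T' ∩ tch k F T).Nonempty then q ^ (t - 1) else 0) +
      (if 2 ≤ (tch k F T' ∩ tch k F T).card then q else 0) := by
    intro T' hT'
    have hT'P := (Finset.mem_filter.mp hT').1
    have hT'2 := (Finset.mem_filter.mp hT').2
    have hs := nbC_split (Y := tch k F T) hb hT'P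
    have hne : (tch k F T' ∩ tch k F T).Nonempty := by
      have := hT'2.2
      rw [Finset.not_disjoint_iff] at this
      obtain ⟨S, hS, hS'⟩ := this
      exact ⟨S, Finset.mem_inter.mpr ⟨hS', hS⟩⟩
    have hpos := Finset.card_pos.mpr hne
    have a2 : (0 : ℝ) ≤ q ^ (t - 1) := by positivity
    have a3 : (0 : ℝ) ≤ (if 2 ≤ (tch k F T' ∩ tch k F T).card then q else 0) := by
      split_ifs <;> positivity
    rw [if_pos hne]
    by_cases h2 : 2 ≤ (tch k F T' ∩ tch k F T).card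
    · rw [if_pos h2]
      have hlt : (tch k F T' ∩ tch k F T).card ≠ t := by
        intro he
        have e1 : tch k F T' ∩ tch k F T = tch k F T' :=
          Finset.eq_of_subset_of_card_le Finset.inter_subset_left
            (by rw [he, nbC_tch_card hb hT'P])
        have e2 : tch k F T' ∩ tch k F T = tch k F T :=
          Finset.eq_of_subset_of_card_le Finset.inter_subset_right
            (by rw [he, hTc])
        have e3 : tch k F T = tch k F T' := by rw [← e1]; exact e2.symm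
        exact hT'2.1.1 (hb.inj T hT T' hT'P e3)
      have h1 : 1 ≤ (tch k F T' \ tch k F T).card := by omega
      have : q ^ (tch k F T' \ tch k F T).card ≤ q ^ 1 := pow_le_pow_of_le_one hq.le hq1 h1
      rw [pow_one] at this
      linarith
    · rw [if_neg h2]
      have e : (tch k F T' \ tch k F T).card = t - 1 := by omega
      rw [e]; linarith
  refine (Finset.sum_le_sum hpt).trans ?_
  rw [Finset.sum_add_distrib, nbC_ind, nbC_ind]
  have b1 := nb1 h hb hT (tch k F T) hY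
  have b2 := nb2 h (nbC_sub hb) (tch k F T) hY
  rw [hTc] at b1 b2
  have b1' : ((P.filter (fun T' => (Cf k T T' ∧ ¬ Disjoint (tch k F T) (tch k F T')) ∧
      (tch k F T' ∩ tch k F T).Nonempty)).card : ℝ) ≤ t * BU + 2 * k * t := by
    refine le_trans ?_ b1
    have : (P.filter (fun T' => (Cf k T T' ∧ ¬ Disjoint (tch k F T) (tch k F T')) ∧
      (tch k F T' ∩ tch k F T).Nonempty)).card ≤ (P.filter (fun T' => Cf k T T' ∧
        (tch k F T' ∩ tch k F T).Nonempty)).card := by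
      refine Finset.card_le_card ?_
      intro T' hT'
      rw [Finset.mem_filter] at hT' ⊢
      exact ⟨hT'.1, hT'.2.1.1, hT'.2.2⟩
    exact_mod_cast this
  have b2' : ((P.filter (fun T' => (Cf k T T' ∧ ¬ Disjoint (tch k F T) (tch k F T')) ∧
      2 ≤ (tch k F T' ∩ tch k F T).card)).card : ℝ) ≤ 2 * (t : ℝ) ^ 2 := by
    have : (P.filter (fun T' => (Cf k T T' ∧ ¬ Disjoint (tch k F T) (tch k F T')) ∧
      2 ≤ (tch k F T' ∩ tch k F T).card)).card ≤ 2 * t ^ 2 := by
      refine (Finset.card_le_card ?_).trans b2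
      intro T' hT'
      rw [Finset.mem_filter] at hT' ⊢
      exact ⟨hT'.1, hT'.2.2⟩
    exact_mod_cast this
  have c1 := mul_le_mul_of_nonneg_left b1' (pow_nonneg hq.le (t - 1))
  have c2 := mul_le_mul_of_nonneg_left b2' hq.le
  linarith

end TZ
end

section

/-!
# TZ SumE: weighted number of conflicting pairs (easy/medium)

`|tch T ∪ tch T'| = t + |tch T' \ tch T|`. For fixed `T ∈ P`: the neighbours `T'` with disjoint `tch`: at most `k Bh` (`nb0`), weight `q^(2t)`; the others: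
`q^t *` (`wsum1`). Sum over `T ∈ P` (`Finset.sum_filter`, `Finset.sum_product`).
-/

set_option autoImplicit false

open Finset

namespace TZ

variable {V : Type*} [DecidableEq V] {k t : ℕ} {TT F P : Finset (Finset V)} {Bh BU q : ℝ}

private theorem card_tchP (hb : Bd k t TT F P Bh BU) {T : Finset V} (hT : T ∈ P) :
    (tch k F T).card = t := by
  have h1 := hb.sub hT
  unfold NS at h1
  exact (Finset.mem_filter.1 h1).2

private theorem fix_sum (h : Std k TT F) (hb : Bd k t TT F P Bh BU) (hq : 0 < q) (hq1 : q ≤ 1)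
    {T : Finset V} (hT : T ∈ P) :
    ∑ T' ∈ P.filter (fun T' => Cf k T T'), q ^ (tch k F T ∪ tch k F T').card ≤
      q ^ t * SE k t Bh BU q := by
  have h1 : ∀ T' ∈ P.filter (fun T' => Cf k T T'), q ^ (tch k F T ∪ tch k F T').card =
      q ^ t * q ^ (tch k F T' \ tch k F T).card := by
    intro T' _
    rw [← pow_add]
    congr 1
    rw [← Finset.union_sdiff_self_eq_union, Finset.card_union_of_disjoint Finset.disjoint_sdiff,
      card_tchP hb hT]
  rw [Finset.sum_congr rfl h1, ← Finset.mul_sum]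
  apply mul_le_mul_of_nonneg_left _ (pow_nonneg hq.le _)
  rw [← Finset.sum_filter_add_sum_filter_not _
    (fun T' => Disjoint (tch k F T) (tch k F T'))]
  rw [Finset.filter_filter, Finset.filter_filter]
  have h2 : ∑ T' ∈ P.filter (fun T' => Cf k T T' ∧ Disjoint (tch k F T) (tch k F T')),
      q ^ (tch k F T' \ tch k F T).card ≤ k * Bh * q ^ t := by
    have h3 : ∀ T' ∈ P.filter (fun T' => Cf k T T' ∧ Disjoint (tch k F T) (tch k F T')),
        q ^ (tch k F T' \ tch k F T).card = q ^ t := by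
      intro T' hT'
      rw [Finset.mem_filter] at hT'
      rw [Finset.sdiff_eq_self_of_disjoint hT'.2.2.symm, card_tchP hb hT'.1]
    rw [Finset.sum_congr rfl h3, Finset.sum_const, nsmul_eq_mul]
    exact mul_le_mul_of_nonneg_right (nb0 h hb hT) (pow_nonneg hq.le _)
  have h4 := wsum1 h hb hq hq1 hT
  unfold SE
  linarith

theorem pair_sum (h : Std k TT F) (hb : Bd k t TT F P Bh BU) (hq : 0 < q) (hq1 : q ≤ 1) :
    ∑ p ∈ (P ×ˢ P).filter (fun p => Cf k p.1 p.2), q ^ (tch k F p.1 ∪ tch k F p.2).card ≤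
      P.card * q ^ t * SE k t Bh BU q := by
  rw [Finset.sum_filter, Finset.sum_product]
  have h1 : ∀ T ∈ P, (∑ T' ∈ P, if Cf k (T, T').1 (T, T').2 then
      q ^ (tch k F (T, T').1 ∪ tch k F (T, T').2).card else 0) ≤ q ^ t * SE k t Bh BU q := by
    intro T hT
    have h2 := fix_sum h hb hq hq1 hT
    rw [Finset.sum_filter] at h2
    exact h2
  refine le_trans (Finset.sum_le_sum h1) ?_
  rw [Finset.sum_const, nsmul_eq_mul]
  apply le_of_eq
  ring

end TZ
end

section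

/-!
# TZ SumT: weighted number of triangles (medium/long)

Write `τ` for `tch k F`. `A` part: triangles with `τ T`, `τ T'`, `τ T''` pairwise disjoint: `|τ T ∪ τ T' ∪ τ T''| = 3t`; for fixed `T` at most `k Bh` choices of `T'`
(`nb0`) and for fixed `T, T'` at most `Bh + (k+1)` choices of `T''` (`nb3`): `triA`.
`B` part: `triB`: triangles with `τ T`, `τ T'` not disjoint. `|τ T ∪ τ T' ∪ τ T''| = t + |τ T' \ τ T| + |τ T'' \ (τ T ∪ τ T')|`. For fixed `T, T'` sum over `T''`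
(a neighbour of `T`) with `wsum`, `Y = τ T ∪ τ T'`, `|Y| ≤ 2 t`: at most `k Bh q^t + (t BU + 4 k t) q^(t-1) + 8 t^2`; then sum over `T'` with `wsum1`.
`tri_sum`: a triangle is of type `A`, or one of the three pairs is not disjoint; by the symmetry of `Cf` and of the union the sum over the triangles whose pair
(1,3) or (2,3) is not disjoint is the same as for the pair (1,2) (bijections `(T,T',T'') ↦ (T,T'',T')`, `↦ (T',T'',T)`), hence the factor 3. `ST` in Defs.
-/

set_option autoImplicit false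

open Finset

namespace TZ

variable {V : Type*} [DecidableEq V] {k t : ℕ} {TT F P : Finset (Finset V)} {Bh BU q : ℝ}

private theorem sum_tri {α : Type*} (P : Finset α) (a : α → α → Prop) (b : α → α → α → Prop)
    [∀ x, DecidablePred (a x)] [∀ x y, DecidablePred (b x y)]
    [DecidablePred (fun p : α × α × α => a p.1 p.2.1 ∧ b p.1 p.2.1 p.2.2)] (f : α → α → α → ℝ) :
    ∑ p ∈ (P ×ˢ P ×ˢ P).filter (fun p => a p.1 p.2.1 ∧ b p.1 p.2.1 p.2.2), f p.1 p.2.1 p.2.2 =
      ∑ x ∈ P, ∑ y ∈ P.filter (a x), ∑ z ∈ P.filter (b x y), f x y z := by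
  rw [Finset.sum_filter, Finset.sum_product]
  refine Finset.sum_congr rfl ?_
  intro x _
  rw [Finset.sum_product, Finset.sum_filter]
  refine Finset.sum_congr rfl ?_
  intro y _
  by_cases hxy : a x y
  · rw [if_pos hxy, Finset.sum_filter]
    refine Finset.sum_congr rfl ?_
    intro z _
    by_cases hz : b x y z
    · rw [if_pos hz, if_pos ⟨hxy, hz⟩]
    · rw [if_neg hz, if_neg (fun hh => hz hh.2)]
  · rw [if_neg hxy]
    refine Finset.sum_eq_zero ?_
    intro z _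
    rw [if_neg (fun hh => hxy hh.1)]

private theorem tcard (hb : Bd k t TT F P Bh BU) {T : Finset V} (hT : T ∈ P) :
    (tch k F T).card = t := (Finset.mem_filter.1 (hb.sub hT)).2

private theorem tsub {T : Finset V} : tch k F T ⊆ F := Finset.filter_subset _ _

private theorem cf_symm {S T : Finset V} (h : Cf k S T) : Cf k T S := by
  refine ⟨h.1.symm, ?_⟩
  have h2 : k ≤ (S ∩ T).card + 1 := h.2
  show k ≤ (T ∩ S).card + 1
  rwa [Finset.inter_comm]

theorem triA (h : Std k TT F) (hb : Bd k t TT F P Bh BU) (hq : 0 < q) :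
    ∑ p ∈ (P ×ˢ P ×ˢ P).filter (fun p => (Cf k p.1 p.2.1 ∧ Cf k p.1 p.2.2 ∧ Cf k p.2.1 p.2.2) ∧
        Disjoint (tch k F p.1) (tch k F p.2.1) ∧ Disjoint (tch k F p.1) (tch k F p.2.2) ∧
        Disjoint (tch k F p.2.1) (tch k F p.2.2)),
      q ^ (tch k F p.1 ∪ tch k F p.2.1 ∪ tch k F p.2.2).card ≤
      P.card * q ^ t * (k * Bh * (Bh + k + 1) * q ^ (2 * t)) := by
  have e1 : ∑ p ∈ (P ×ˢ P ×ˢ P).filter (fun p => (Cf k p.1 p.2.1 ∧ Cf k p.1 p.2.2 ∧ Cf k p.2.1 p.2.2) ∧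
        Disjoint (tch k F p.1) (tch k F p.2.1) ∧ Disjoint (tch k F p.1) (tch k F p.2.2) ∧
        Disjoint (tch k F p.2.1) (tch k F p.2.2)),
      q ^ (tch k F p.1 ∪ tch k F p.2.1 ∪ tch k F p.2.2).card =
      ∑ p ∈ (P ×ˢ P ×ˢ P).filter (fun p => (Cf k p.1 p.2.1 ∧ Cf k p.1 p.2.2 ∧ Cf k p.2.1 p.2.2) ∧
        Disjoint (tch k F p.1) (tch k F p.2.1) ∧ Disjoint (tch k F p.1) (tch k F p.2.2) ∧
        Disjoint (tch k F p.2.1) (tch k F p.2.2)), q ^ (3 * t) := by
    refine Finset.sum_congr rfl ?_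
    intro p hp
    obtain ⟨hpP, _, h1, h2, h3⟩ := Finset.mem_filter.1 hp
    obtain ⟨hx, hyz⟩ := Finset.mem_product.1 hpP
    obtain ⟨hy, hz⟩ := Finset.mem_product.1 hyz
    congr 1
    rw [Finset.card_union_of_disjoint (Finset.disjoint_union_left.2 ⟨h2, h3⟩),
      Finset.card_union_of_disjoint h1, tcard hb hx, tcard hb hy, tcard hb hz]
    ring
  rw [e1]
  have hq3 : (0 : ℝ) ≤ q ^ (3 * t) := by positivity
  calc ∑ p ∈ (P ×ˢ P ×ˢ P).filter (fun p => (Cf k p.1 p.2.1 ∧ Cf k p.1 p.2.2 ∧ Cf k p.2.1 p.2.2) ∧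
        Disjoint (tch k F p.1) (tch k F p.2.1) ∧ Disjoint (tch k F p.1) (tch k F p.2.2) ∧
        Disjoint (tch k F p.2.1) (tch k F p.2.2)), q ^ (3 * t)
      ≤ ∑ p ∈ (P ×ˢ P ×ˢ P).filter (fun p =>
        (Cf k p.1 p.2.1 ∧ Disjoint (tch k F p.1) (tch k F p.2.1)) ∧
          (Cf k p.1 p.2.2 ∧ Cf k p.2.1 p.2.2)), q ^ (3 * t) := by
        refine Finset.sum_le_sum_of_subset_of_nonneg ?_ (fun _ _ _ => hq3)
        intro p hp
        obtain ⟨hpP, ⟨c1, c2, c3⟩, h1, h2, h3⟩ := Finset.mem_filter.1 hp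
        exact Finset.mem_filter.2 ⟨hpP, ⟨c1, h1⟩, c2, c3⟩
    _ = ∑ x ∈ P, ∑ y ∈ P.filter (fun y => Cf k x y ∧ Disjoint (tch k F x) (tch k F y)),
          ∑ z ∈ P.filter (fun z => Cf k x z ∧ Cf k y z), q ^ (3 * t) :=
        sum_tri P (fun x y => Cf k x y ∧ Disjoint (tch k F x) (tch k F y))
          (fun x y z => Cf k x z ∧ Cf k y z) (fun _ _ _ => q ^ (3 * t))
    _ ≤ ∑ x ∈ P, ∑ y ∈ P.filter (fun y => Cf k x y ∧ Disjoint (tch k F x) (tch k F y)),
          (Bh + (k + 1)) * q ^ (3 * t) := by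
        refine Finset.sum_le_sum ?_
        intro x hx
        refine Finset.sum_le_sum ?_
        intro y hy
        obtain ⟨hyP, hc, hd⟩ := Finset.mem_filter.1 hy
        rw [Finset.sum_const, nsmul_eq_mul]
        exact mul_le_mul_of_nonneg_right (nb3 h hb hx hyP hc hd) hq3
    _ ≤ ∑ x ∈ P, (k * Bh) * ((Bh + (k + 1)) * q ^ (3 * t)) := by
        refine Finset.sum_le_sum ?_
        intro x hx
        rw [Finset.sum_const, nsmul_eq_mul]
        refine mul_le_mul_of_nonneg_right (nb0 h hb hx) ?_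
        have := hb.hBh
        positivity
    _ = P.card * q ^ t * (k * Bh * (Bh + k + 1) * q ^ (2 * t)) := by
        rw [Finset.sum_const, nsmul_eq_mul]
        have : q ^ (3 * t) = q ^ t * q ^ (2 * t) := by
          rw [← pow_add]
          congr 1
          ring
        rw [this]
        ring

theorem triB (h : Std k TT F) (hb : Bd k t TT F P Bh BU) (hq : 0 < q) (hq1 : q ≤ 1) :
    ∑ p ∈ (P ×ˢ P ×ˢ P).filter (fun p => (Cf k p.1 p.2.1 ∧ Cf k p.1 p.2.2 ∧ Cf k p.2.1 p.2.2) ∧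
        ¬ Disjoint (tch k F p.1) (tch k F p.2.1)),
      q ^ (tch k F p.1 ∪ tch k F p.2.1 ∪ tch k F p.2.2).card ≤
      P.card * q ^ t * (((t * BU + 2 * k * t) * q ^ (t - 1) + 2 * t ^ 2 * q) *
        (k * Bh * q ^ t + (t * BU + 4 * k * t) * q ^ (t - 1) + 8 * t ^ 2)) := by
  have hBh := hb.hBh
  have hBU := hb.hBU
  calc ∑ p ∈ (P ×ˢ P ×ˢ P).filter (fun p => (Cf k p.1 p.2.1 ∧ Cf k p.1 p.2.2 ∧ Cf k p.2.1 p.2.2) ∧
        ¬ Disjoint (tch k F p.1) (tch k F p.2.1)),
      q ^ (tch k F p.1 ∪ tch k F p.2.1 ∪ tch k F p.2.2).card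
      ≤ ∑ p ∈ (P ×ˢ P ×ˢ P).filter (fun p =>
        (Cf k p.1 p.2.1 ∧ ¬ Disjoint (tch k F p.1) (tch k F p.2.1)) ∧ Cf k p.1 p.2.2),
      q ^ (tch k F p.1 ∪ tch k F p.2.1 ∪ tch k F p.2.2).card := by
        refine Finset.sum_le_sum_of_subset_of_nonneg ?_ (fun _ _ _ => by positivity)
        intro p hp
        obtain ⟨hpP, ⟨c1, c2, c3⟩, h1⟩ := Finset.mem_filter.1 hp
        exact Finset.mem_filter.2 ⟨hpP, ⟨c1, h1⟩, c2⟩
    _ = ∑ x ∈ P, ∑ y ∈ P.filter (fun y => Cf k x y ∧ ¬ Disjoint (tch k F x) (tch k F y)),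
          ∑ z ∈ P.filter (fun z => Cf k x z),
            q ^ (tch k F x ∪ tch k F y ∪ tch k F z).card :=
        sum_tri P (fun x y => Cf k x y ∧ ¬ Disjoint (tch k F x) (tch k F y))
          (fun x _ z => Cf k x z) (fun x y z => q ^ (tch k F x ∪ tch k F y ∪ tch k F z).card)
    _ ≤ ∑ x ∈ P, ∑ y ∈ P.filter (fun y => Cf k x y ∧ ¬ Disjoint (tch k F x) (tch k F y)),
          q ^ (tch k F y \ tch k F x).card * (q ^ t *
            (k * Bh * q ^ t + (t * BU + 4 * k * t) * q ^ (t - 1) + 8 * t ^ 2)) := by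
        refine Finset.sum_le_sum ?_
        intro x hx
        refine Finset.sum_le_sum ?_
        intro y hy
        obtain ⟨hyP, hc, hd⟩ := Finset.mem_filter.1 hy
        have hw := wsum h hb hq hq1 hx (tch k F x ∪ tch k F y)
          (Finset.union_subset tsub tsub) Finset.subset_union_left
        have hY : ((tch k F x ∪ tch k F y).card : ℝ) ≤ 2 * t := by
          have h2 := Finset.card_union_le (tch k F x) (tch k F y)
          rw [tcard hb hx, tcard hb hyP] at h2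
          have h3 : (tch k F x ∪ tch k F y).card ≤ 2 * t := by omega
          exact_mod_cast h3
        have hY0 : (0 : ℝ) ≤ ((tch k F x ∪ tch k F y).card : ℝ) := Nat.cast_nonneg _
        have hw2 : ∑ z ∈ P.filter (fun z => Cf k x z),
            q ^ (tch k F z \ (tch k F x ∪ tch k F y)).card ≤
            k * Bh * q ^ t + (t * BU + 4 * k * t) * q ^ (t - 1) + 8 * t ^ 2 := by
          refine hw.trans ?_
          have hk0 : (0 : ℝ) ≤ k := Nat.cast_nonneg _
          have ha : (t * BU + 2 * k * ((tch k F x ∪ tch k F y).card : ℝ)) * q ^ (t - 1) ≤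
              (t * BU + 4 * k * t) * q ^ (t - 1) := by
            refine mul_le_mul_of_nonneg_right ?_ (by positivity)
            nlinarith
          have hb2 : 2 * ((tch k F x ∪ tch k F y).card : ℝ) ^ 2 ≤ 8 * (t : ℝ) ^ 2 := by
            nlinarith
          linarith
        have hsplit : ∀ z ∈ P.filter (fun z => Cf k x z),
            q ^ (tch k F x ∪ tch k F y ∪ tch k F z).card =
            q ^ (tch k F y \ tch k F x).card * q ^ t *
              q ^ (tch k F z \ (tch k F x ∪ tch k F y)).card := by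
          intro z _
          rw [← pow_add, ← pow_add]
          congr 1
          have e1 : (tch k F x ∪ tch k F y ∪ tch k F z).card =
              (tch k F z \ (tch k F x ∪ tch k F y)).card + (tch k F x ∪ tch k F y).card := by
            rw [Finset.union_comm, ← Finset.sdiff_union_self_eq_union,
              Finset.card_union_of_disjoint Finset.sdiff_disjoint]
          have e2 : (tch k F x ∪ tch k F y).card = (tch k F y \ tch k F x).card + t := by
            rw [Finset.union_comm, ← Finset.sdiff_union_self_eq_union,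
              Finset.card_union_of_disjoint Finset.sdiff_disjoint, tcard hb hx]
          rw [e1, e2]
          ring
        rw [Finset.sum_congr rfl hsplit, ← Finset.mul_sum, mul_assoc]
        refine mul_le_mul_of_nonneg_left ?_ (by positivity)
        exact mul_le_mul_of_nonneg_left hw2 (by positivity)
    _ ≤ ∑ x ∈ P, ((t * BU + 2 * k * t) * q ^ (t - 1) + 2 * (t : ℝ) ^ 2 * q) * (q ^ t *
            (k * Bh * q ^ t + (t * BU + 4 * k * t) * q ^ (t - 1) + 8 * t ^ 2)) := by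
        refine Finset.sum_le_sum ?_
        intro x hx
        rw [← Finset.sum_mul]
        exact mul_le_mul_of_nonneg_right (wsum1 h hb hq hq1 hx) (by positivity)
    _ = P.card * q ^ t * (((t * BU + 2 * k * t) * q ^ (t - 1) + 2 * t ^ 2 * q) *
        (k * Bh * q ^ t + (t * BU + 4 * k * t) * q ^ (t - 1) + 8 * t ^ 2)) := by
        rw [Finset.sum_const, nsmul_eq_mul]
        ring

theorem tri_sum (h : Std k TT F) (hb : Bd k t TT F P Bh BU) (hq : 0 < q) (hq1 : q ≤ 1) :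
    ∑ p ∈ (P ×ˢ P ×ˢ P).filter (fun p => Cf k p.1 p.2.1 ∧ Cf k p.1 p.2.2 ∧ Cf k p.2.1 p.2.2),
      q ^ (tch k F p.1 ∪ tch k F p.2.1 ∪ tch k F p.2.2).card ≤
      P.card * q ^ t * ST k t Bh BU q := by
  have hA := triA h hb hq
  have hB := triB h hb hq hq1
  -- the pairs (1,3) and (2,3)
  have h13 : ∑ p ∈ (P ×ˢ P ×ˢ P).filter (fun p => (Cf k p.1 p.2.1 ∧ Cf k p.1 p.2.2 ∧ Cf k p.2.1 p.2.2) ∧
        ¬ Disjoint (tch k F p.1) (tch k F p.2.2)),
      q ^ (tch k F p.1 ∪ tch k F p.2.1 ∪ tch k F p.2.2).card =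
      ∑ p ∈ (P ×ˢ P ×ˢ P).filter (fun p => (Cf k p.1 p.2.1 ∧ Cf k p.1 p.2.2 ∧ Cf k p.2.1 p.2.2) ∧
        ¬ Disjoint (tch k F p.1) (tch k F p.2.1)),
      q ^ (tch k F p.1 ∪ tch k F p.2.1 ∪ tch k F p.2.2).card := by
    refine Finset.sum_nbij' (fun p => (p.1, p.2.2, p.2.1)) (fun p => (p.1, p.2.2, p.2.1)) ?_ ?_
      (fun _ _ => rfl) (fun _ _ => rfl) ?_
    · intro p hp
      obtain ⟨hpP, ⟨c1, c2, c3⟩, h1⟩ := Finset.mem_filter.1 hp
      obtain ⟨hx, hyz⟩ := Finset.mem_product.1 hpP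
      obtain ⟨hy, hz⟩ := Finset.mem_product.1 hyz
      exact Finset.mem_filter.2 ⟨Finset.mem_product.2 ⟨hx, Finset.mem_product.2 ⟨hz, hy⟩⟩,
        ⟨c2, c1, cf_symm c3⟩, h1⟩
    · intro p hp
      obtain ⟨hpP, ⟨c1, c2, c3⟩, h1⟩ := Finset.mem_filter.1 hp
      obtain ⟨hx, hyz⟩ := Finset.mem_product.1 hpP
      obtain ⟨hy, hz⟩ := Finset.mem_product.1 hyz
      exact Finset.mem_filter.2 ⟨Finset.mem_product.2 ⟨hx, Finset.mem_product.2 ⟨hz, hy⟩⟩,
        ⟨c2, c1, cf_symm c3⟩, h1⟩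
    · intro p _
      simp only
      congr 2
      rw [Finset.union_assoc, Finset.union_assoc, Finset.union_comm (tch k F p.2.2)]
  have h23 : ∑ p ∈ (P ×ˢ P ×ˢ P).filter (fun p => (Cf k p.1 p.2.1 ∧ Cf k p.1 p.2.2 ∧ Cf k p.2.1 p.2.2) ∧
        ¬ Disjoint (tch k F p.2.1) (tch k F p.2.2)),
      q ^ (tch k F p.1 ∪ tch k F p.2.1 ∪ tch k F p.2.2).card =
      ∑ p ∈ (P ×ˢ P ×ˢ P).filter (fun p => (Cf k p.1 p.2.1 ∧ Cf k p.1 p.2.2 ∧ Cf k p.2.1 p.2.2) ∧
        ¬ Disjoint (tch k F p.1) (tch k F p.2.1)),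
      q ^ (tch k F p.1 ∪ tch k F p.2.1 ∪ tch k F p.2.2).card := by
    refine Finset.sum_nbij' (fun p => (p.2.1, p.2.2, p.1)) (fun p => (p.2.2, p.1, p.2.1)) ?_ ?_
      (fun _ _ => rfl) (fun _ _ => rfl) ?_
    · intro p hp
      obtain ⟨hpP, ⟨c1, c2, c3⟩, h1⟩ := Finset.mem_filter.1 hp
      obtain ⟨hx, hyz⟩ := Finset.mem_product.1 hpP
      obtain ⟨hy, hz⟩ := Finset.mem_product.1 hyz
      exact Finset.mem_filter.2 ⟨Finset.mem_product.2 ⟨hy, Finset.mem_product.2 ⟨hz, hx⟩⟩,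
        ⟨c3, cf_symm c1, cf_symm c2⟩, h1⟩
    · intro p hp
      obtain ⟨hpP, ⟨c1, c2, c3⟩, h1⟩ := Finset.mem_filter.1 hp
      obtain ⟨hx, hyz⟩ := Finset.mem_product.1 hpP
      obtain ⟨hy, hz⟩ := Finset.mem_product.1 hyz
      exact Finset.mem_filter.2 ⟨Finset.mem_product.2 ⟨hz, Finset.mem_product.2 ⟨hx, hy⟩⟩,
        ⟨cf_symm c2, cf_symm c3, c1⟩, h1⟩
    · intro p _
      simp only
      congr 2
      rw [Finset.union_comm (tch k F p.2.1 ∪ tch k F p.2.2), Finset.union_assoc]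
  have hsum : ∑ p ∈ (P ×ˢ P ×ˢ P).filter (fun p => Cf k p.1 p.2.1 ∧ Cf k p.1 p.2.2 ∧ Cf k p.2.1 p.2.2),
      q ^ (tch k F p.1 ∪ tch k F p.2.1 ∪ tch k F p.2.2).card ≤
      ∑ p ∈ (P ×ˢ P ×ˢ P).filter (fun p => (Cf k p.1 p.2.1 ∧ Cf k p.1 p.2.2 ∧ Cf k p.2.1 p.2.2) ∧
        Disjoint (tch k F p.1) (tch k F p.2.1) ∧ Disjoint (tch k F p.1) (tch k F p.2.2) ∧
        Disjoint (tch k F p.2.1) (tch k F p.2.2)),
      q ^ (tch k F p.1 ∪ tch k F p.2.1 ∪ tch k F p.2.2).card +
      ∑ p ∈ (P ×ˢ P ×ˢ P).filter (fun p => (Cf k p.1 p.2.1 ∧ Cf k p.1 p.2.2 ∧ Cf k p.2.1 p.2.2) ∧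
        ¬ Disjoint (tch k F p.1) (tch k F p.2.1)),
      q ^ (tch k F p.1 ∪ tch k F p.2.1 ∪ tch k F p.2.2).card +
      ∑ p ∈ (P ×ˢ P ×ˢ P).filter (fun p => (Cf k p.1 p.2.1 ∧ Cf k p.1 p.2.2 ∧ Cf k p.2.1 p.2.2) ∧
        ¬ Disjoint (tch k F p.1) (tch k F p.2.2)),
      q ^ (tch k F p.1 ∪ tch k F p.2.1 ∪ tch k F p.2.2).card +
      ∑ p ∈ (P ×ˢ P ×ˢ P).filter (fun p => (Cf k p.1 p.2.1 ∧ Cf k p.1 p.2.2 ∧ Cf k p.2.1 p.2.2) ∧
        ¬ Disjoint (tch k F p.2.1) (tch k F p.2.2)),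
      q ^ (tch k F p.1 ∪ tch k F p.2.1 ∪ tch k F p.2.2).card := by
    rw [Finset.sum_filter, Finset.sum_filter, Finset.sum_filter, Finset.sum_filter, Finset.sum_filter,
      ← Finset.sum_add_distrib, ← Finset.sum_add_distrib, ← Finset.sum_add_distrib]
    refine Finset.sum_le_sum ?_
    intro p _
    have h0 : (0 : ℝ) ≤ q ^ (tch k F p.1 ∪ tch k F p.2.1 ∪ tch k F p.2.2).card := by positivity
    by_cases hc : Cf k p.1 p.2.1 ∧ Cf k p.1 p.2.2 ∧ Cf k p.2.1 p.2.2
    · by_cases d1 : Disjoint (tch k F p.1) (tch k F p.2.1)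
      · by_cases d2 : Disjoint (tch k F p.1) (tch k F p.2.2)
        · by_cases d3 : Disjoint (tch k F p.2.1) (tch k F p.2.2)
          · rw [if_pos hc, if_pos ⟨hc, d1, d2, d3⟩, if_neg (fun hh => hh.2 d1),
              if_neg (fun hh => hh.2 d2), if_neg (fun hh => hh.2 d3)]
            linarith
          · rw [if_pos hc, if_neg (fun hh => d3 hh.2.2.2), if_neg (fun hh => hh.2 d1),
              if_neg (fun hh => hh.2 d2), if_pos ⟨hc, d3⟩]
            linarith
        · rw [if_pos hc, if_neg (fun hh => d2 hh.2.2.1), if_neg (fun hh => hh.2 d1),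
            if_pos ⟨hc, d2⟩]
          split_ifs <;> linarith
      · rw [if_pos hc, if_neg (fun hh => d1 hh.2.1), if_pos ⟨hc, d1⟩]
        split_ifs <;> linarith
    · rw [if_neg hc]
      split_ifs <;> linarith
  rw [h13, h23] at hsum
  refine hsum.trans ?_
  have hfin : P.card * q ^ t * ST k t Bh BU q =
      P.card * q ^ t * (k * Bh * (Bh + k + 1) * q ^ (2 * t)) +
      P.card * q ^ t * (((t * BU + 2 * k * t) * q ^ (t - 1) + 2 * t ^ 2 * q) *
        (k * Bh * q ^ t + (t * BU + 4 * k * t) * q ^ (t - 1) + 8 * t ^ 2)) +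
      P.card * q ^ t * (((t * BU + 2 * k * t) * q ^ (t - 1) + 2 * t ^ 2 * q) *
        (k * Bh * q ^ t + (t * BU + 4 * k * t) * q ^ (t - 1) + 8 * t ^ 2)) +
      P.card * q ^ t * (((t * BU + 2 * k * t) * q ^ (t - 1) + 2 * t ^ 2 * q) *
        (k * Bh * q ^ t + (t * BU + 4 * k * t) * q ^ (t - 1) + 8 * t ^ 2)) := by
    unfold ST
    ring
  rw [hfin]
  linarith

end TZ
end

section

/-!
# TZ Average: a cover from a random colouring (easy/medium)

For every `c : V → ZMod m` apply `assembly` with `D = DC k s F R c` (`DC ⊆ UU`; `DC_row_le` and `s < k` give `hDS`); the last family of `assembly` is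
`remC k s TT F G R c`. The average over the `m^|V|` colourings of `k ν - |D|/2 + ν/2 + |G| + |remC|` is at most the right-hand side (`sum_DC`, `sum_rem`),
so some `c` is at most the average (`Finset.exists_le_of_sum_le` or by contradiction).
-/

set_option autoImplicit false

open Finset

namespace TZ

variable {V : Type*} [DecidableEq V] {k : ℕ} {TT F : Finset (Finset V)}

theorem average [Fintype V] (h : Std k TT F) {s m : ℕ} (hm : 1 ≤ m) (hs : 2 ≤ s)
    (hsk : s + 1 < k) (hbin : 16 * (k - 1).choose s * m ≤ m ^ s) (G R : Finset (Finset V))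
    (hG : ∀ g ∈ G, g.card + 1 = k) (hR : R ⊆ UU k F) :
    ∃ C : Finset (Finset V), Cover k TT C ∧
      (C.card : ℝ) ≤ k * F.card + (F.card : ℝ) / 2 + G.card -
        15 / 32 * (((k : ℝ) * F.card - R.card) / m) +
        ∑ t ∈ Icc 2 s, (((NS k TT F t).filter (fun T => ∀ g ∈ G ∪ R, g ∉ rows k T)).card : ℝ) /
          (m : ℝ) ^ t := by
  haveI : NeZero m := ⟨by omega⟩
  set B : ℝ := k * F.card + (F.card : ℝ) / 2 + G.card -
        15 / 32 * (((k : ℝ) * F.card - R.card) / m) +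
        ∑ t ∈ Icc 2 s, (((NS k TT F t).filter (fun T => ∀ g ∈ G ∪ R, g ∉ rows k T)).card : ℝ) /
          (m : ℝ) ^ t with hB
  have hass : ∀ c : V → ZMod m, ∃ C : Finset (Finset V), Cover k TT C ∧
      (C.card : ℝ) ≤ k * F.card - ((DC k s F R c).card : ℝ) / 2 + (F.card : ℝ) / 2 + G.card +
        ((remC k s TT F G R c).card : ℝ) := by
    intro c
    have hD : DC k s F R c ⊆ UU k F := by
      classical
      intro e he
      unfold DC at he
      exact (mem_sdiff.1 (mem_filter.1 he).1).1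
    exact assembly h (DC k s F R c) G hD
      (fun S hS => lt_of_le_of_lt (DC_row_le h R c hS) (by omega)) hG
  -- the average
  have hN : (0 : ℝ) < (m : ℝ) ^ Fintype.card V := by
    have : (0 : ℝ) < m := by exact_mod_cast hm
    positivity
  have hcard : (Fintype.card (V → ZMod m) : ℝ) = (m : ℝ) ^ Fintype.card V := by
    rw [Fintype.card_fun, ZMod.card]
    push_cast
    rfl
  have h1 := sum_DC h (by omega : 1 ≤ s) hsk hbin R hR
  have h2 := sum_rem h (m := m) (s := s) (by omega) G R hR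
  have hex : ∃ c : V → ZMod m, k * F.card - ((DC k s F R c).card : ℝ) / 2 + (F.card : ℝ) / 2 +
      G.card + ((remC k s TT F G R c).card : ℝ) ≤ B := by
    by_contra hcon
    push Not at hcon
    have h3 : ∑ _c : V → ZMod m, B < ∑ c : V → ZMod m,
        (k * F.card - ((DC k s F R c).card : ℝ) / 2 + (F.card : ℝ) / 2 +
          G.card + ((remC k s TT F G R c).card : ℝ)) :=
      Finset.sum_lt_sum_of_nonempty ⟨0, mem_univ _⟩ (fun c _ => hcon c)
    rw [Finset.sum_const, card_univ, nsmul_eq_mul, hcard] at h3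
    simp only [Finset.sum_add_distrib, Finset.sum_sub_distrib, Finset.sum_const, card_univ,
      nsmul_eq_mul, hcard, ← Finset.sum_div] at h3
    rw [hB] at h3
    nlinarith
  obtain ⟨c, hc⟩ := hex
  obtain ⟨C, hC, hCc⟩ := hass c
  exact ⟨C, hC, hCc.trans hc⟩

end TZ
end

section

/-!
# TZ KeyA: sampling plus AKS (medium)

For `X ⊆ F` let `P_X = P.filter (fun T => tch k F T ⊆ X)`. `aks P_X (Cf k)` gives an independent `I ⊆ P_X`; it is a packing (`Pack k I`: different members do not meet), so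
`|I| ≤ |X|` (`exch`). Hence `a (|P_X| - E2 (P_X)/2^a - T3 (P_X)) ≤ 16 * 2^a |X|` for all `X ⊆ F`. Take `smp q F` of both sides (`smp_mono`, `smp_add`, `smp_mul`):
`smp |P_X| = |P| q^t` (`smp_count`, `|tch| = t` on `P`), `E2 (P_X) =` the number of the `p ∈ (P ×ˢ P).filter Cf` with `tch p.1 ∪ tch p.2 ⊆ X`, so its `smp` is the left side of
`pair_sum`, at most `|P| q^t SE`; `T3` in the same way with `tri_sum`; `smp |X| = q ν` (`smp_card`).
-/

set_option autoImplicit false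

open Finset

namespace TZ

variable {V : Type*} [DecidableEq V] {k t : ℕ} {TT F P : Finset (Finset V)} {Bh BU q : ℝ}

private theorem KeyA_tch (h : Std k TT F) (hb : Bd k t TT F P Bh BU) {T : Finset V} (hT : T ∈ P) :
    T ∈ TT ∧ (tch k F T).card = t := by
  have h1 := hb.sub hT
  unfold NS at h1
  rw [mem_filter, mem_sdiff] at h1
  exact ⟨h1.1.1, h1.2⟩

private theorem KeyA_point (h : Std k TT F) (hb : Bd k t TT F P Bh BU) (a : ℕ)
    {X : Finset (Finset V)} (hX : X ⊆ F) :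
    (a : ℝ) * (((P.filter (fun T => tch k F T ⊆ X)).card : ℝ)
      - (E2 (P.filter (fun T => tch k F T ⊆ X)) (Cf k) : ℝ) / 2 ^ a
      - (T3 (P.filter (fun T => tch k F T ⊆ X)) (Cf k) : ℝ)) ≤ 16 * 2 ^ a * (X.card : ℝ) := by
  obtain ⟨I, hI, hind, hle⟩ := aks (P.filter (fun T => tch k F T ⊆ X)) (Cf k)
    (fun x y hxy => ⟨hxy.1.symm, by
      have := hxy.2
      unfold Meet at this ⊢
      rwa [inter_comm]⟩)
    (fun x hx => hx.1 rfl) a
  refine hle.trans ?_
  have hcard : I.card ≤ X.card := by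
    refine exch h (fun T hT => ?_) (fun S hS T hT hne hm => hind S hS T hT ⟨hne, hm⟩) hX
      (fun T hT => ?_)
    · exact (KeyA_tch h hb (mem_filter.1 (hI hT)).1).1
    · exact (mem_filter.1 (hI hT)).2
  have : (I.card : ℝ) ≤ X.card := by exact_mod_cast hcard
  gcongr

private theorem KeyA_E2 (X : Finset (Finset V)) :
    E2 (P.filter (fun T => tch k F T ⊆ X)) (Cf k) =
      (((P ×ˢ P).filter (fun p => Cf k p.1 p.2)).filter
        (fun p => tch k F p.1 ∪ tch k F p.2 ⊆ X)).card := by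
  unfold E2
  congr 1
  ext ⟨S, T⟩
  simp only [mem_filter, mem_product, union_subset_iff]
  tauto

private theorem KeyA_T3 (X : Finset (Finset V)) :
    T3 (P.filter (fun T => tch k F T ⊆ X)) (Cf k) =
      (((P ×ˢ P ×ˢ P).filter
        (fun p => Cf k p.1 p.2.1 ∧ Cf k p.1 p.2.2 ∧ Cf k p.2.1 p.2.2)).filter
        (fun p => tch k F p.1 ∪ tch k F p.2.1 ∪ tch k F p.2.2 ⊆ X)).card := by
  unfold T3
  congr 1
  ext ⟨S, T, U⟩
  simp only [mem_filter, mem_product, union_subset_iff]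
  tauto

private theorem KeyA_sub (T : Finset V) : tch k F T ⊆ F := filter_subset _ _

theorem key_comb (h : Std k TT F) (hb : Bd k t TT F P Bh BU) (hq : 0 < q) (hq1 : q ≤ 1) (a : ℕ) :
    (a : ℝ) * (P.card * q ^ t * (1 - SE k t Bh BU q / 2 ^ a - ST k t Bh BU q)) ≤
      16 * 2 ^ a * (q * F.card) := by
  have h1 := smp_mono (q := q) (F := F) hq.le hq1 (fun X hX => KeyA_point h hb a hX)
  have hr : smp q F (fun X => 16 * 2 ^ a * (X.card : ℝ)) = 16 * 2 ^ a * (q * F.card) := by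
    rw [smp_mul, smp_card]
  have hP : smp q F (fun X => ((P.filter (fun T => tch k F T ⊆ X)).card : ℝ)) = P.card * q ^ t := by
    rw [smp_count P (fun T => tch k F T) (fun T _ => KeyA_sub T)]
    rw [sum_congr rfl (fun T hT => by rw [(KeyA_tch h hb hT).2]), sum_const, nsmul_eq_mul]
  have hE : smp q F (fun X => (E2 (P.filter (fun T => tch k F T ⊆ X)) (Cf k) : ℝ)) ≤
      P.card * q ^ t * SE k t Bh BU q := by
    simp_rw [KeyA_E2]
    rw [smp_count ((P ×ˢ P).filter (fun p => Cf k p.1 p.2)) (fun p => tch k F p.1 ∪ tch k F p.2)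
      (fun p _ => union_subset (KeyA_sub _) (KeyA_sub _))]
    exact pair_sum h hb hq hq1
  have hT : smp q F (fun X => (T3 (P.filter (fun T => tch k F T ⊆ X)) (Cf k) : ℝ)) ≤
      P.card * q ^ t * ST k t Bh BU q := by
    simp_rw [KeyA_T3]
    rw [smp_count ((P ×ˢ P ×ˢ P).filter
      (fun p => Cf k p.1 p.2.1 ∧ Cf k p.1 p.2.2 ∧ Cf k p.2.1 p.2.2))
      (fun p => tch k F p.1 ∪ tch k F p.2.1 ∪ tch k F p.2.2)
      (fun p _ => union_subset (union_subset (KeyA_sub _) (KeyA_sub _)) (KeyA_sub _))]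
    exact tri_sum h hb hq hq1
  have hl : smp q F (fun X => (a : ℝ) * (((P.filter (fun T => tch k F T ⊆ X)).card : ℝ)
      - (E2 (P.filter (fun T => tch k F T ⊆ X)) (Cf k) : ℝ) / 2 ^ a
      - (T3 (P.filter (fun T => tch k F T ⊆ X)) (Cf k) : ℝ))) =
      a * (P.card * q ^ t
        - smp q F (fun X => (E2 (P.filter (fun T => tch k F T ⊆ X)) (Cf k) : ℝ)) / 2 ^ a
        - smp q F (fun X => (T3 (P.filter (fun T => tch k F T ⊆ X)) (Cf k) : ℝ))) := by
    rw [smp_mul]
    congr 1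
    have e1 : (fun X => ((P.filter (fun T => tch k F T ⊆ X)).card : ℝ)
        - (E2 (P.filter (fun T => tch k F T ⊆ X)) (Cf k) : ℝ) / 2 ^ a
        - (T3 (P.filter (fun T => tch k F T ⊆ X)) (Cf k) : ℝ)) =
        (fun X => (((P.filter (fun T => tch k F T ⊆ X)).card : ℝ)
          + (-(2 ^ a)⁻¹) * (E2 (P.filter (fun T => tch k F T ⊆ X)) (Cf k) : ℝ))
          + (-1) * (T3 (P.filter (fun T => tch k F T ⊆ X)) (Cf k) : ℝ)) := by
      funext X
      ring
    rw [e1, smp_add (fun X => ((P.filter (fun T => tch k F T ⊆ X)).card : ℝ)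
          + (-(2 ^ a)⁻¹) * (E2 (P.filter (fun T => tch k F T ⊆ X)) (Cf k) : ℝ)), smp_add, smp_mul,
      smp_mul, hP]
    ring
  rw [hl, hr] at h1
  refine le_trans (mul_le_mul_of_nonneg_left ?_ (Nat.cast_nonneg a)) h1
  have h2 : (0 : ℝ) < 2 ^ a := by positivity
  have h3 := div_le_div_of_nonneg_right hE h2.le
  have e2 : P.card * q ^ t * (1 - SE k t Bh BU q / 2 ^ a - ST k t Bh BU q)
      = P.card * q ^ t - P.card * q ^ t * SE k t Bh BU q / 2 ^ a
        - P.card * q ^ t * ST k t Bh BU q := by ring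
  rw [e2]
  linarith

end TZ
end

section

/-!
# TZ Key: the key lemma (easy/medium)

`exists_inj` (`f = tch k F`, `M = 4`, `fiber_le`) gives `P' ⊆ P` with `|P| ≤ 4 |P'|`; the degrees in `P'` are at most those in `P`, so `Bd k t TT F P' Bh BU` with
`Bh = 2^t/(k q^t)`, `BU = η/(t q^(t-1))`. `key_comb` with `a = t + 2` and `key_num`: `1 - SE/2^(t+2) - ST ≥ 1 - 1/2 - 1/4 = 1/4`, so
`(t+2) |P'| q^t / 4 ≤ 16 * 2^(t+2) q ν = 64 * 2^t q ν`, i.e. `|P'| q^(t-1) ≤ 256 * 2^t/(t+2) ν`, `|P| q^(t-1) ≤ 1024 * 2^t/(t+2) ν = LL t / 2 * ν < LL t * ν`.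
-/

set_option autoImplicit false

open Finset

namespace TZ

variable {V : Type*} [DecidableEq V] {k t : ℕ} {TT F P : Finset (Finset V)} {q₀ q : ℝ}

theorem key (h : Std k TT F) (hν : 1 ≤ F.card) (ht : 2 ≤ t) (hc : Cond k t q₀) (hq : 0 < q)
    (hqq : q ≤ q₀) (hP : P ⊆ NS k TT F t)
    (hbh : ∀ e, e ∉ UU k F → (deg k P e : ℝ) ≤ 2 ^ t / (k * q ^ t))
    (hbU : ∀ e ∈ UU k F, (deg k P e : ℝ) ≤ eta t / (t * q ^ (t - 1))) :
    (P.card : ℝ) * q ^ (t - 1) < LL t * F.card := by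
  obtain ⟨P', hP', hinj, hcard⟩ := exists_inj P (tch k F) 4 (fun b => fiber_le h ht hP b)
  have hdeg : ∀ e, (deg k P' e : ℝ) ≤ deg k P e := by
    intro e
    unfold deg
    exact_mod_cast card_le_card (filter_subset_filter _ hP')
  have heta : 0 ≤ eta t := by
    unfold eta
    positivity
  have hb : Bd k t TT F P' (2 ^ t / (k * q ^ t)) (eta t / (t * q ^ (t - 1))) :=
    { sub := hP'.trans hP
      inj := hinj
      hBh := by positivity
      hBU := by positivity
      bh := fun e he => (hdeg e).trans (hbh e he)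
      bU := fun e he => (hdeg e).trans (hbU e he) }
  have hq1 : q ≤ 1 := hqq.trans hc.le_one
  have hA := key_comb h hb hq hq1 (t + 2)
  obtain ⟨hS, hT⟩ := key_num ht hc hq hqq
  generalize SE k t (2 ^ t / (k * q ^ t)) (eta t / (t * q ^ (t - 1))) q = s at hA hS
  generalize ST k t (2 ^ t / (k * q ^ t)) (eta t / (t * q ^ (t - 1))) q = r at hA hT
  have h2t : (0 : ℝ) < 2 ^ t := by positivity
  have e2 : (2 : ℝ) ^ (t + 2) = 4 * 2 ^ t := by ring
  have h1 : 1 / 4 ≤ 1 - s / 2 ^ (t + 2) - r := by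
    have : s / 2 ^ (t + 2) ≤ 1 / 2 := by
      rw [e2, div_le_iff₀ (by positivity)]
      linarith
    linarith
  have hqt : q ^ t = q ^ (t - 1) * q := by
    rw [← pow_succ]
    congr 1
    omega
  set Q := q ^ (t - 1) with hQ
  have hQ0 : 0 < Q := by positivity
  have hp0 : (0 : ℝ) ≤ P'.card := Nat.cast_nonneg _
  have hν0 : (1 : ℝ) ≤ F.card := by exact_mod_cast hν
  have ht0 : (0 : ℝ) < (t : ℝ) + 2 := by positivity
  have h3 : ((t : ℝ) + 2) * (P'.card * (Q * q) * (1 / 4)) ≤ 16 * (4 * 2 ^ t) * (q * F.card) := by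
    rw [hqt, e2] at hA
    push_cast at hA
    refine le_trans ?_ hA
    rw [e2] at h1
    have := mul_le_mul_of_nonneg_left h1 (by positivity : 0 ≤ (P'.card : ℝ) * (Q * q))
    exact mul_le_mul_of_nonneg_left this ht0.le
  have h4 : ((t : ℝ) + 2) * (P'.card * Q) ≤ 256 * 2 ^ t * F.card := by
    have h5 : (((t : ℝ) + 2) * (P'.card * Q)) * q ≤ (256 * 2 ^ t * F.card) * q := by linarith
    exact le_of_mul_le_mul_right h5 hq
  have h6 : (P.card : ℝ) ≤ 4 * P'.card := by exact_mod_cast hcard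
  have h7 : ((t : ℝ) + 2) * (P.card * Q) ≤ 1024 * 2 ^ t * F.card := by
    have h8 := mul_le_mul_of_nonneg_right h6 (by positivity : 0 ≤ ((t : ℝ) + 2) * Q)
    linarith
  have h9 : (P.card : ℝ) * Q ≤ 1024 * 2 ^ t / (t + 2) * F.card := by
    rw [div_mul_eq_mul_div, le_div_iff₀ ht0]
    linarith
  refine lt_of_le_of_lt h9 ?_
  unfold LL
  apply mul_lt_mul_of_pos_right _ (by linarith)
  apply div_lt_div_of_pos_right _ ht0
  linarith

end TZ
end

section

/-!
# TZ WLemma: most nonsolos with t touched members are hit by few rows (medium/long)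

Put `ν = |F|`, `L = LL t`, `Λ = L ν`, `q₁ = q₀/k^3`, `ρ = rows k`, `isU e = (e ∈ UU k F)`, `η = eta t`. (`k > 16` by c3.)
(1) `oneshot` with `NN = NS k TT F t`, `k`, `t` (`card_rows`, `card_rows_UU`), `Bh = 2^t/(k q₁^t)`, `BU = η/(t q₁^(t-1))`, `M0 = Λ/q₁^(t-1)`; `hkey` is `key` with `q = q₁`.
`Bh ≥ 2`: `q₁^t ≤ 1/k^3`... and `2^t ≥ 2`. `BU ≥ 2`: by c1 `η/(t q₀^(t-1)) ≥ 2 k`, and `q₁ ≤ q₀`. Result `G₁, R₁` with
`|G₁| ≤ 2 k M0/Bh = 2 k^2 L q₁ ν/2^t = 2 L q₀ ν/(k 2^t)`, `|R₁| ≤ 2 t M0/BU = 2 t^2 L ν/η`, and the family `NN₁` of the members of `NS t` without row in `G₁ ∪ R₁` has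
`|NN₁| q₁^(t-1) ≤ Λ`.
(2) `greedy` with `n = t - 1`, `NN = NN₁`, `cG = 2^t/k`, `cR = η/(t Λ)`. `hkey`: `M ⊆ NS t`, `|M| q^(t-1) = Λ`; if all degrees were at most `2^t/(k q^t)` (rows outside `UU`) and
`η/(t q^(t-1))` (rows in `UU`) then `key` gives `|M| q^(t-1) < Λ`, contradiction; so some `e ∉ UU` has `deg q^t > 2^t/k = cG` or some `e ∈ UU` has
`deg > η/(t q^(t-1)) = η |M|/(t Λ) = cR |M|`. Result: `|G₂| ≤ 1 + (t-1) Λ q₀ k/2^t`, `|R₂| ≤ 1 + (t-1) t Λ/η * log (k^3)`.
(3) `G = (G₁ ∪ G₂).filter (card + 1 = k)` (sets of another size are never in `rows k T`), `R = R₁ ∪ R₂`. With `L/2^t = 2048/(t+2)`: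
`|G| ≤ 1 + 2048 q₀ ν (2/(k (t+2)) + k (t-1)/(t+2)) ≤ 1 + 2048 k q₀ ν`; `|R| ≤ 1 + (2 t^2 + 3 t (t-1) log k) L ν/η`.
-/

set_option autoImplicit false

open Finset

namespace TZ

variable {V : Type*} [DecidableEq V] {k t : ℕ} {TT F : Finset (Finset V)} {q₀ : ℝ}

theorem wlemma (h : Std k TT F) (hν : 1 ≤ F.card) (ht : 2 ≤ t) (hc : Cond k t q₀) :
    ∃ G R : Finset (Finset V), (∀ g ∈ G, g.card + 1 = k) ∧ R ⊆ UU k F ∧
      (G.card : ℝ) ≤ 1 + 2048 * k * q₀ * F.card ∧
      (R.card : ℝ) ≤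
        1 + (2 * (t : ℝ) ^ 2 + 3 * (t : ℝ) ^ 2 * Real.log k) * (LL t / eta t) * F.card ∧
      (((NS k TT F t).filter (fun T => ∀ g ∈ G ∪ R, g ∉ rows k T)).card : ℝ) * q₀ ^ (t - 1) ≤
        LL t * F.card := by
  obtain ⟨n, rfl⟩ : ∃ n, t = n + 1 := ⟨t - 1, by omega⟩
  have hn : 1 ≤ n := by omega
  have hnR : (1 : ℝ) ≤ n := by exact_mod_cast hn
  have hk3 := h.three
  have hk1 : 1 ≤ k := by omega
  have hkR : (3 : ℝ) ≤ k := by exact_mod_cast hk3
  have hkpos : (0 : ℝ) < k := by linarith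
  have hνR : (1 : ℝ) ≤ F.card := by exact_mod_cast hν
  have hq₀ := hc.pos
  have hL : 0 < LL (n + 1) := by unfold LL; positivity
  have hη : 0 < eta (n + 1) := by unfold eta; positivity
  have hη1 : eta (n + 1) ≤ 1 := by
    unfold eta
    rw [div_le_one (by positivity)]
    have : (0 : ℝ) ≤ 8 * ((n + 1 : ℕ) : ℝ) ^ 2 := by positivity
    have h2 : (1 : ℝ) ≤ 2 ^ (n + 1) := one_le_pow₀ (by norm_num)
    nlinarith
  set q1 : ℝ := q₀ / k ^ 3 with hq1def
  have hq1 : 0 < q1 := by positivity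
  have hk3pos : (1 : ℝ) ≤ (k : ℝ) ^ 3 := one_le_pow₀ (by linarith)
  have hq1le : q1 ≤ q₀ := div_le_self hq₀.le hk3pos
  have hq1le1 : q1 ≤ 1 := hq1le.trans hc.le_one
  set Λ : ℝ := LL (n + 1) * F.card with hΛdef
  have hΛ : 0 < Λ := by positivity
  -- properties of NS
  have hNS : ∀ T ∈ NS k TT F (n + 1), T ∈ TT ∧ T ∉ F ∧ (tch k F T).card = n + 1 := by
    intro T hT
    rw [NS, mem_filter, mem_sdiff] at hT
    exact ⟨hT.1.1, hT.1.2, hT.2⟩
  have hA1 : ∀ a ∈ NS k TT F (n + 1), ((rows k a).filter (fun b => ¬ b ∈ UU k F)).card ≤ k := by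
    intro a ha
    refine (card_filter_le _ _).trans ?_
    rw [card_rows hk1 (h.card a (hNS a ha).1)]
  have hA2 : ∀ a ∈ NS k TT F (n + 1), ((rows k a).filter (fun b => b ∈ UU k F)).card ≤ n + 1 := by
    intro a ha
    rw [card_rows_UU h (hNS a ha).1 (hNS a ha).2.1, (hNS a ha).2.2]
  -- one shot
  have hkq : (k : ℝ) * q1 ^ (n + 1) ≤ 1 := by
    have h1 : q1 ^ (n + 1) ≤ q1 := by
      rw [pow_succ]
      exact mul_le_of_le_one_left hq1.le (pow_le_one₀ hq1.le hq1le1)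
    have h2 : (k : ℝ) * q1 ≤ 1 := by
      rw [hq1def, mul_div_assoc', div_le_one (by positivity)]
      have h3 : (k : ℝ) * q₀ ≤ k := mul_le_of_le_one_right hkpos.le hc.le_one
      have h4 : (k : ℝ) ≤ (k : ℝ) ^ 3 := le_self_pow₀ (by linarith) (by norm_num)
      linarith
    exact (mul_le_mul_of_nonneg_left h1 hkpos.le).trans h2
  have hBh : (2 : ℝ) ≤ 2 ^ (n + 1) / (k * q1 ^ (n + 1)) := by
    rw [le_div_iff₀ (by positivity)]
    have h1 : (2 : ℝ) ≤ 2 ^ (n + 1) := le_self_pow₀ (by norm_num) (by omega)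
    linarith
  have hBU : (2 : ℝ) ≤ eta (n + 1) / ((n + 1 : ℕ) * q1 ^ (n + 1 - 1)) := by
    rw [le_div_iff₀ (by positivity), Nat.add_sub_cancel]
    have h1 := hc.c1
    rw [Nat.add_sub_cancel] at h1
    have h2 : q1 ^ n ≤ q₀ ^ n := pow_le_pow_left₀ hq1.le hq1le n
    have h3 : (2 : ℝ) * (((n + 1 : ℕ) : ℝ) * q1 ^ n) ≤ 2 * (((n + 1 : ℕ) : ℝ) * q₀ ^ n) := by
      gcongr
    have h4 : (2 : ℝ) * (((n + 1 : ℕ) : ℝ) * q₀ ^ n) ≤ 2 * k * ((n + 1 : ℕ) : ℝ) * q₀ ^ n := by
      have : (0 : ℝ) ≤ 2 * (((n + 1 : ℕ) : ℝ) * q₀ ^ n) := by positivity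
      nlinarith
    linarith
  have hkey1 : ∀ P ⊆ NS k TT F (n + 1),
      (∀ b, ¬ b ∈ UU k F → ((P.filter (fun a => b ∈ rows k a)).card : ℝ) ≤
        2 ^ (n + 1) / (k * q1 ^ (n + 1))) →
      (∀ b, b ∈ UU k F → ((P.filter (fun a => b ∈ rows k a)).card : ℝ) ≤
        eta (n + 1) / ((n + 1 : ℕ) * q1 ^ (n + 1 - 1))) → (P.card : ℝ) ≤ Λ / q1 ^ n := by
    intro P hP h1 h2
    rw [le_div_iff₀ (by positivity)]
    have := key h hν ht hc hq1 hq1le hP h1 h2
    rw [Nat.add_sub_cancel] at this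
    exact this.le
  obtain ⟨G1, R1, hG1, hR1, hG1c, hR1c, hM1⟩ := oneshot (rows k) (fun e => e ∈ UU k F)
    (NS k TT F (n + 1)) hA1 hA2 hBh hBU hkey1
  set NN1 := (NS k TT F (n + 1)).filter (fun a => ∀ b ∈ G1 ∪ R1, b ∉ rows k a) with hNN1
  have hstart : (NN1.card : ℝ) * q1 ^ n ≤ Λ := by
    rw [le_div_iff₀ (by positivity)] at hM1
    exact hM1
  -- greedy
  have hcG : (0 : ℝ) < 2 ^ (n + 1) / k := by positivity
  have hcR : (0 : ℝ) < eta (n + 1) / ((n + 1 : ℕ) * Λ) := by positivity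
  have hkey2 : ∀ M ⊆ NN1, M.Nonempty → ∀ q, q1 ≤ q → q ≤ q₀ → (M.card : ℝ) * q ^ n = Λ →
      (∃ b, ¬ b ∈ UU k F ∧ (2 : ℝ) ^ (n + 1) / k ≤
        ((M.filter (fun a => b ∈ rows k a)).card : ℝ) * q ^ (n + 1)) ∨
      (∃ b, b ∈ UU k F ∧ eta (n + 1) / ((n + 1 : ℕ) * Λ) * M.card ≤
        ((M.filter (fun a => b ∈ rows k a)).card : ℝ)) := by
    intro M hM hMne q hq hqq hMq
    by_contra hcon
    push Not at hcon
    obtain ⟨h1, h2⟩ := hcon
    have hqpos : 0 < q := lt_of_lt_of_le hq1 hq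
    have h3 : ∀ e, e ∉ UU k F → (deg k M e : ℝ) ≤ 2 ^ (n + 1) / (k * q ^ (n + 1)) := by
      intro e he
      have := h1 e he
      rw [le_div_iff₀ (by positivity)]
      rw [lt_div_iff₀ hkpos] at this
      have h4 : (deg k M e : ℝ) * (k * q ^ (n + 1)) =
        ((M.filter (fun a => e ∈ rows k a)).card : ℝ) * q ^ (n + 1) * k := by
        unfold deg
        ring
      rw [h4]
      exact this.le
    have h5 : ∀ e ∈ UU k F, (deg k M e : ℝ) ≤ eta (n + 1) / ((n + 1 : ℕ) * q ^ (n + 1 - 1)) := by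
      intro e he
      have := h2 e he
      refine this.le.trans ?_
      rw [← hMq, Nat.add_sub_cancel]
      have hMc : (0 : ℝ) < M.card := by exact_mod_cast hMne.card_pos
      apply le_of_eq
      field_simp
    have h6 := key h hν ht hc hqpos hqq (hM.trans (filter_subset _ _)) h3 h5
    rw [Nat.add_sub_cancel, hMq] at h6
    exact lt_irrefl _ h6
  obtain ⟨G2, R2, hG2, hR2, hG2c, hR2c, hM2⟩ := greedy (rows k) (fun e => e ∈ UU k F) hn hΛ hq1
    hq1le hcG hcR NN1 hstart hkey2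
  refine ⟨(G1 ∪ G2).filter (fun g => g.card + 1 = k), R1 ∪ R2, ?_, ?_, ?_, ?_, ?_⟩
  · intro g hg
    exact (mem_filter.1 hg).2
  · intro e he
    rcases mem_union.1 he with he | he
    · exact hR1 e he
    · exact hR2 e he
  · have h1 : (((G1 ∪ G2).filter (fun g => g.card + 1 = k)).card : ℝ) ≤ G1.card + G2.card := by
      have := (card_filter_le (G1 ∪ G2) (fun g => g.card + 1 = k)).trans (card_union_le G1 G2)
      exact_mod_cast this
    have h2 : (G1.card : ℝ) ≤ 4096 * q₀ * F.card / (k * (n + 3)) := by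
      have h3 : (G1.card : ℝ) ≤ 2 * k * (Λ / q1 ^ n) / (2 ^ (n + 1) / (k * q1 ^ (n + 1))) := by
        rw [le_div_iff₀ (by positivity)]
        exact hG1c
      refine h3.trans (le_of_eq ?_)
      have e1 : q1 ^ (n + 1) = q1 ^ n * q1 := pow_succ _ _
      have e2 : LL (n + 1) = 2048 * 2 ^ (n + 1) / (n + 3) := by
        unfold LL
        push_cast
        ring
      rw [hΛdef, e1, e2]
      have e3 : q1 = q₀ / k ^ 3 := hq1def
      have : q1 ^ n ≠ 0 := by positivity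
      field_simp
      rw [e3]
      field_simp
      ring
    have h4 : (G2.card : ℝ) ≤ 1 + 2048 * n * k * q₀ * F.card / (n + 3) := by
      refine hG2c.trans (le_of_eq ?_)
      have e2 : LL (n + 1) = 2048 * 2 ^ (n + 1) / (n + 3) := by
        unfold LL
        push_cast
        ring
      rw [hΛdef, e2]
      field_simp
    have h5 : 4096 * q₀ * F.card / (k * ((n : ℝ) + 3)) + 2048 * n * k * q₀ * F.card / (n + 3) ≤
        2048 * k * q₀ * F.card := by
      have hqν : 0 ≤ q₀ * F.card := by positivity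
      have h6 : 4096 / (k * ((n : ℝ) + 3)) + 2048 * n * k / ((n : ℝ) + 3) ≤ 2048 * k := by
        rw [div_add_div _ _ (by positivity) (by positivity), div_le_iff₀ (by positivity)]
        have hk2 : (1 : ℝ) ≤ (k : ℝ) * k := by nlinarith
        nlinarith [mul_pos hkpos hkpos, mul_nonneg (sub_nonneg.2 hk2) (by positivity : (0 : ℝ) ≤ (n : ℝ) + 3)]
      have h7 := mul_le_mul_of_nonneg_right h6 hqν
      have h8 : (4096 / (k * ((n : ℝ) + 3)) + 2048 * n * k / ((n : ℝ) + 3)) * (q₀ * F.card) =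
          4096 * q₀ * F.card / (k * ((n : ℝ) + 3)) + 2048 * n * k * q₀ * F.card / (n + 3) := by
        ring
      rw [h8] at h7
      linarith
    linarith
  · have h1 : ((R1 ∪ R2).card : ℝ) ≤ R1.card + R2.card := by
      exact_mod_cast card_union_le R1 R2
    have hlog : 0 ≤ Real.log k := Real.log_nonneg (by linarith)
    have h2 : (R1.card : ℝ) ≤ 2 * ((n + 1 : ℕ) : ℝ) ^ 2 * (LL (n + 1) / eta (n + 1)) * F.card := by
      have h3 : (R1.card : ℝ) ≤ 2 * ((n + 1 : ℕ) : ℝ) * (Λ / q1 ^ n) /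
          (eta (n + 1) / ((n + 1 : ℕ) * q1 ^ (n + 1 - 1))) := by
        rw [le_div_iff₀ (by positivity)]
        exact hR1c
      refine h3.trans (le_of_eq ?_)
      rw [hΛdef, Nat.add_sub_cancel]
      have : q1 ^ n ≠ 0 := by positivity
      field_simp
    have h4 : (R2.card : ℝ) ≤ 1 + 3 * ((n + 1 : ℕ) : ℝ) ^ 2 * Real.log k *
        (LL (n + 1) / eta (n + 1)) * F.card := by
      refine hR2c.trans ?_
      have e1 : q₀ / q1 = (k : ℝ) ^ 3 := by
        rw [hq1def]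
        field_simp
      rw [e1, Real.log_pow]
      have e2 : (n : ℝ) / (eta (n + 1) / ((n + 1 : ℕ) * Λ)) * (((3 : ℕ) : ℝ) * Real.log k) =
          3 * (n * ((n + 1 : ℕ) : ℝ)) * Real.log k * (LL (n + 1) / eta (n + 1)) * F.card := by
        rw [hΛdef]
        field_simp
        push_cast
        ring
      rw [e2]
      have h5 : (n : ℝ) * ((n + 1 : ℕ) : ℝ) ≤ ((n + 1 : ℕ) : ℝ) ^ 2 := by
        push_cast
        nlinarith
      have h6 : 0 ≤ Real.log k * (LL (n + 1) / eta (n + 1)) * F.card := by positivity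
      have h7 := mul_le_mul_of_nonneg_right h5 h6
      nlinarith
    have h8 : (2 * ((n + 1 : ℕ) : ℝ) ^ 2 + 3 * ((n + 1 : ℕ) : ℝ) ^ 2 * Real.log k) *
        (LL (n + 1) / eta (n + 1)) * F.card =
        2 * ((n + 1 : ℕ) : ℝ) ^ 2 * (LL (n + 1) / eta (n + 1)) * F.card +
        3 * ((n + 1 : ℕ) : ℝ) ^ 2 * Real.log k * (LL (n + 1) / eta (n + 1)) * F.card := by
      ring
    rw [h8]
    linarith
  · rw [Nat.add_sub_cancel]
    refine le_trans ?_ hM2
    have hsub : (NS k TT F (n + 1)).filter (fun T => ∀ g ∈ (G1 ∪ G2).filter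
        (fun g : Finset V => g.card + 1 = k) ∪ (R1 ∪ R2), g ∉ rows k T) ⊆
        NN1.filter (fun a => ∀ b ∈ G2 ∪ R2, b ∉ rows k a) := by
      intro T hT
      rw [mem_filter] at hT
      obtain ⟨hT1, hT2⟩ := hT
      have hG : ∀ b ∈ G1 ∪ G2, b ∉ rows k T := by
        intro b hb hbT
        have hbc := (mem_rows hk1).1 hbT
        exact hT2 b (mem_union_left _ (mem_filter.2 ⟨hb, hbc.2⟩)) hbT
      have hR : ∀ b ∈ R1 ∪ R2, b ∉ rows k T := fun b hb => hT2 b (mem_union_right _ hb)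
      rw [mem_filter, hNN1, mem_filter]
      refine ⟨⟨hT1, fun b hb => ?_⟩, fun b hb => ?_⟩
      · rcases mem_union.1 hb with hb | hb
        · exact hG b (mem_union_left _ hb)
        · exact hR b (mem_union_left _ hb)
      · rcases mem_union.1 hb with hb | hb
        · exact hG b (mem_union_right _ hb)
        · exact hR b (mem_union_right _ hb)
    have hcard : (((NS k TT F (n + 1)).filter (fun T => ∀ g ∈ (G1 ∪ G2).filter
        (fun g : Finset V => g.card + 1 = k) ∪ (R1 ∪ R2), g ∉ rows k T)).card : ℝ) ≤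
        ((NN1.filter (fun a => ∀ b ∈ G2 ∪ R2, b ∉ rows k a)).card : ℝ) := by
      exact_mod_cast card_le_card hsub
    exact mul_le_mul_of_nonneg_right hcard (by positivity)

end TZ
end

section

/-!
# TZ Tau: the covering inequality from the parameters (medium)

`ns_sum`: `∑_{t ∈ Icc 2 s} |NS t| ≤ |{T ∈ TT \ F : |tch| ≥ 2}| ≤ 2 ν^2` (the `NS t` are disjoint; `nb2` with `P` = this family and `Y = F`, `tch ∩ F = tch`).
`tau_small`: `average` with `G = R = ∅`: the last sum is `≤ (1/m^2) ∑ |NS t| ≤ 2 ν^2/m^2 ≤ ν/10`, and `15/32 * k ν/m ≥ 15/32 * 4 (A+1) ν` (`hmk`), so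
`|C| ≤ k ν + ν/2 + ν/10 - (15/8)(A+1) ν ≤ k ν - (A+1) ν`.
`tau_large`: for every `t ∈ Icc 2 s` take `G_t`, `R_t` from `wlemma` with `q₀ = q t` (`hp.cond`); `G`, `R` = the unions. With `s ≤ ν/100` (`hms`: `2000 s ≤ m^2 < 20 ν`):
`|G| ≤ s + ν ∑ 2048 k q_t ≤ ν/100 + ν/20`, `|R| ≤ s + ν m/100`, and the last sum of `average` is (the filter for `G ∪ R` is contained in the one for `G_t ∪ R_t`) at most
`∑ LL t ν/(q_t^(t-1) m^t) ≤ ν/20`. So
`|C| ≤ k ν + ν/2 + ν/100 + ν/20 + ν/20 - 15/32 (k ν/m) + 15/32 (s/m + ν/100)`, `s/m ≤ s ≤ ν/100`, `k/m ≥ 4 (A+1)`, `15/8 (A+1) - 0.62 ≥ A + 1`.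
-/

set_option autoImplicit false

open Finset

namespace TZ

variable {V : Type*} [DecidableEq V] {k : ℕ} {TT F : Finset (Finset V)}

theorem ns_sum (h : Std k TT F) (s : ℕ) :
    ∑ t ∈ Icc 2 s, (NS k TT F t).card ≤ 2 * F.card ^ 2 := by
  have hdisj : ∀ t ∈ Icc 2 s, ∀ t' ∈ Icc 2 s, t ≠ t' → Disjoint (NS k TT F t) (NS k TT F t') := by
    intro t _ t' _ hne
    rw [Finset.disjoint_left]
    intro T h1 h2
    exact hne ((mem_filter.1 h1).2.symm.trans (mem_filter.1 h2).2)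
  rw [← Finset.card_biUnion hdisj]
  refine le_trans (Finset.card_le_card ?_) (nb2 (P := TT \ F) h sdiff_subset F subset_rfl)
  intro T hT
  obtain ⟨t, ht, hT⟩ := mem_biUnion.1 hT
  obtain ⟨hT1, hT2⟩ := mem_filter.1 hT
  refine mem_filter.2 ⟨hT1, ?_⟩
  have hi : tch k F T ∩ F = tch k F T := inter_eq_left.2 (filter_subset _ _)
  rw [hi, hT2]
  exact (mem_Icc.1 ht).1

theorem tau_small [Fintype V] {A s m : ℕ} {q : ℕ → ℝ} (hp : Params A k s m q)
    (h : Std k TT F) (hν : 20 * F.card ≤ m ^ 2) :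
    ∃ C : Finset (Finset V), Cover k TT C ∧ C.card + (A + 1) * F.card ≤ k * F.card := by
  obtain ⟨C, hC, hcard⟩ := average h hp.hm hp.hs2 hp.hsk hp.hbin ∅ ∅ (by simp) (by simp)
  refine ⟨C, hC, ?_⟩
  have hm0 : (1 : ℝ) ≤ m := by exact_mod_cast hp.hm
  have hmpos : (0 : ℝ) < m := by linarith
  have hν' : (20 : ℝ) * F.card ≤ (m : ℝ) ^ 2 := by exact_mod_cast hν
  have hF0 : (0 : ℝ) ≤ F.card := Nat.cast_nonneg _
  have hsum : ∑ t ∈ Icc 2 s, (((NS k TT F t).filter
      (fun T => ∀ g ∈ (∅ : Finset (Finset V)) ∪ ∅, g ∉ rows k T)).card : ℝ) / (m : ℝ) ^ t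
      ≤ (F.card : ℝ) / 10 := by
    have h1 : ∀ t ∈ Icc 2 s, (((NS k TT F t).filter
        (fun T => ∀ g ∈ (∅ : Finset (Finset V)) ∪ ∅, g ∉ rows k T)).card : ℝ) / (m : ℝ) ^ t
        ≤ ((NS k TT F t).card : ℝ) / (m : ℝ) ^ 2 := by
      intro t ht
      have h2 : (((NS k TT F t).filter
        (fun T => ∀ g ∈ (∅ : Finset (Finset V)) ∪ ∅, g ∉ rows k T)).card : ℝ)
          ≤ ((NS k TT F t).card : ℝ) := by
        exact_mod_cast card_filter_le _ _
      have h3 : (m : ℝ) ^ 2 ≤ (m : ℝ) ^ t := pow_le_pow_right₀ hm0 (mem_Icc.1 ht).1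
      exact div_le_div₀ (Nat.cast_nonneg _) h2 (by positivity) h3
    refine (Finset.sum_le_sum h1).trans ?_
    rw [← Finset.sum_div]
    have h4 : (∑ t ∈ Icc 2 s, ((NS k TT F t).card : ℝ)) ≤ 2 * (F.card : ℝ) ^ 2 := by
      exact_mod_cast ns_sum h s
    rw [div_le_iff₀ (by positivity)]
    nlinarith
  have hk : (4 : ℝ) * (A + 1) * m ≤ k := by exact_mod_cast hp.hmk
  have hkm : 4 * ((A : ℝ) + 1) * F.card ≤ (k : ℝ) * F.card / m := by
    rw [le_div_iff₀ hmpos]
    nlinarith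
  have hA : (0 : ℝ) ≤ A := Nat.cast_nonneg _
  have hAF : 0 ≤ (A : ℝ) * F.card := mul_nonneg hA hF0
  have hfin : (C.card : ℝ) + (A + 1) * F.card ≤ k * F.card := by
    simp only [card_empty, Nat.cast_zero, sub_zero, add_zero] at hcard
    nlinarith
  exact_mod_cast hfin

theorem tau_large [Fintype V] {A s m : ℕ} {q : ℕ → ℝ} (hp : Params A k s m q)
    (h : Std k TT F) (hν : m ^ 2 < 20 * F.card) :
    ∃ C : Finset (Finset V), Cover k TT C ∧ C.card + (A + 1) * F.card ≤ k * F.card := by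
  have hm0 : (1 : ℝ) ≤ m := by exact_mod_cast hp.hm
  have hmpos : (0 : ℝ) < m := by linarith
  have hν' : (m : ℝ) ^ 2 < 20 * F.card := by exact_mod_cast hν
  have hF1 : 1 ≤ F.card := by
    rcases Nat.eq_zero_or_pos F.card with h0 | h0
    · rw [h0] at hν
      omega
    · exact h0
  have hF0 : (0 : ℝ) ≤ F.card := Nat.cast_nonneg _
  have hw : ∀ t : ℕ, ∃ G R : Finset (Finset V), t ∈ Icc 2 s → ((∀ g ∈ G, g.card + 1 = k) ∧
      R ⊆ UU k F ∧ (G.card : ℝ) ≤ 1 + 2048 * k * q t * F.card ∧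
      (R.card : ℝ) ≤
        1 + (2 * (t : ℝ) ^ 2 + 3 * (t : ℝ) ^ 2 * Real.log k) * (LL t / eta t) * F.card ∧
      (((NS k TT F t).filter (fun T => ∀ g ∈ G ∪ R, g ∉ rows k T)).card : ℝ) * q t ^ (t - 1) ≤
        LL t * F.card) := by
    intro t
    by_cases ht : t ∈ Icc 2 s
    · obtain ⟨G, R, h1, h2, h3, h4, h5⟩ := wlemma h hF1 (mem_Icc.1 ht).1 (hp.cond t ht)
      refine ⟨G, R, fun _ => ⟨h1, h2, h3, h4, ?_⟩⟩
      convert h5
    · exact ⟨∅, ∅, fun h1 => absurd h1 ht⟩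
  choose G R hGR using hw
  obtain ⟨C, hC, hcard⟩ := average h hp.hm hp.hs2 hp.hsk hp.hbin ((Icc 2 s).biUnion G)
    ((Icc 2 s).biUnion R) (fun g hg => by
      obtain ⟨t, ht, hg⟩ := mem_biUnion.1 hg
      exact (hGR t ht).1 g hg) (biUnion_subset.2 fun t ht => (hGR t ht).2.1)
  refine ⟨C, hC, ?_⟩
  have hs' : (s : ℝ) ≤ F.card / 100 := by
    have h1 : (2000 : ℝ) * s ≤ (m : ℝ) ^ 2 := by exact_mod_cast hp.hms
    linarith
  have hcount : ((Icc 2 s).card : ℝ) ≤ s := by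
    have h1 : (Icc 2 s).card ≤ s := by
      rw [Nat.card_Icc]
      omega
    exact_mod_cast h1
  have hGc : (((Icc 2 s).biUnion G).card : ℝ) ≤ s + F.card / 20 := by
    have h1 : (((Icc 2 s).biUnion G).card : ℝ) ≤ ∑ t ∈ Icc 2 s, ((G t).card : ℝ) := by
      exact_mod_cast card_biUnion_le
    have h2 : ∑ t ∈ Icc 2 s, ((G t).card : ℝ)
        ≤ ∑ t ∈ Icc 2 s, (1 + 2048 * (k : ℝ) * q t * F.card) :=
      Finset.sum_le_sum fun t ht => (hGR t ht).2.2.1
    rw [Finset.sum_add_distrib, ← Finset.sum_mul, Finset.sum_const, nsmul_eq_mul, mul_one] at h2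
    have h3 := mul_le_mul_of_nonneg_right hp.sumG hF0
    linarith
  have hRc : (((Icc 2 s).biUnion R).card : ℝ) ≤ s + F.card * m / 100 := by
    have h1 : (((Icc 2 s).biUnion R).card : ℝ) ≤ ∑ t ∈ Icc 2 s, ((R t).card : ℝ) := by
      exact_mod_cast card_biUnion_le
    have h2 : ∑ t ∈ Icc 2 s, ((R t).card : ℝ) ≤ ∑ t ∈ Icc 2 s,
        (1 + (2 * (t : ℝ) ^ 2 + 3 * (t : ℝ) ^ 2 * Real.log k) * (LL t / eta t) * F.card) :=
      Finset.sum_le_sum fun t ht => (hGR t ht).2.2.2.1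
    rw [Finset.sum_add_distrib, ← Finset.sum_mul, Finset.sum_const, nsmul_eq_mul, mul_one] at h2
    have h3 := mul_le_mul_of_nonneg_right hp.sumR hF0
    linarith
  have hsum : ∑ t ∈ Icc 2 s, (((NS k TT F t).filter
      (fun T => ∀ g ∈ (Icc 2 s).biUnion G ∪ (Icc 2 s).biUnion R, g ∉ rows k T)).card : ℝ)
        / (m : ℝ) ^ t ≤ (F.card : ℝ) / 20 := by
    have h1 : ∀ t ∈ Icc 2 s, (((NS k TT F t).filter
        (fun T => ∀ g ∈ (Icc 2 s).biUnion G ∪ (Icc 2 s).biUnion R, g ∉ rows k T)).card : ℝ)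
          / (m : ℝ) ^ t ≤ LL t / (q t ^ (t - 1) * (m : ℝ) ^ t) * F.card := by
      intro t ht
      have hq : 0 < q t ^ (t - 1) := pow_pos (hp.cond t ht).pos _
      have h2 : ((NS k TT F t).filter
          (fun T => ∀ g ∈ (Icc 2 s).biUnion G ∪ (Icc 2 s).biUnion R, g ∉ rows k T)).card
          ≤ ((NS k TT F t).filter (fun T => ∀ g ∈ G t ∪ R t, g ∉ rows k T)).card := by
        refine card_le_card fun T hT => ?_
        obtain ⟨hT1, hT2⟩ := mem_filter.1 hT
        refine mem_filter.2 ⟨hT1, fun g hg => hT2 g ?_⟩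
        rcases mem_union.1 hg with hg | hg
        · exact mem_union_left _ (mem_biUnion.2 ⟨t, ht, hg⟩)
        · exact mem_union_right _ (mem_biUnion.2 ⟨t, ht, hg⟩)
      have h3 : (((NS k TT F t).filter
          (fun T => ∀ g ∈ (Icc 2 s).biUnion G ∪ (Icc 2 s).biUnion R, g ∉ rows k T)).card : ℝ)
          ≤ (((NS k TT F t).filter (fun T => ∀ g ∈ G t ∪ R t, g ∉ rows k T)).card : ℝ) := by
        exact_mod_cast h2
      have h4 := (hGR t ht).2.2.2.2
      have h5 := mul_le_mul_of_nonneg_right h3 hq.le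
      have hmt : 0 < (m : ℝ) ^ t := by positivity
      rw [div_le_iff₀ hmt]
      have h6 : LL t / (q t ^ (t - 1) * (m : ℝ) ^ t) * F.card * (m : ℝ) ^ t
          = LL t * F.card / q t ^ (t - 1) := by
        field_simp
      rw [h6, le_div_iff₀ hq]
      exact h5.trans h4
    refine (Finset.sum_le_sum h1).trans ?_
    rw [← Finset.sum_mul]
    have h3 := mul_le_mul_of_nonneg_right hp.sumW hF0
    linarith
  have hk : (4 : ℝ) * (A + 1) * m ≤ k := by exact_mod_cast hp.hmk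
  have hkm : 4 * ((A : ℝ) + 1) * F.card ≤ (k : ℝ) * F.card / m := by
    rw [le_div_iff₀ hmpos]
    nlinarith
  have hRm : (((Icc 2 s).biUnion R).card : ℝ) / m ≤ F.card / 50 := by
    rw [div_le_iff₀ hmpos]
    nlinarith
  have hA : (0 : ℝ) ≤ A := Nat.cast_nonneg _
  have hAF : 0 ≤ (A : ℝ) * F.card := mul_nonneg hA hF0
  have hfin : (C.card : ℝ) + (A + 1) * F.card ≤ k * F.card := by
    rw [sub_div] at hcard
    nlinarith
  exact_mod_cast hfin

end TZ
end

section

/-!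
# TZ Main: the two theorems (easy/medium)

`exists_std`: take a packing in `TT` of maximum size (finitely many subsets).
`tau_main`: `r₀ = max k₀ 3` (`exists_params A`), `k = r + 1`; `tau_small`/`tau_large`; `Meet (r+1) S S' ↔ r ≤ |S ∩ S'|`; `C.card + (A+1) ν ≤ (r+1) ν`.
`es_main`: `k = r + 1`, `TT = ES.copies (r+1) r H`; `F`, `C` from `tau_main`. Two different members of `F` share less than `r` vertices, so no edge: `ES.partition` gives `P`
with `P.parts.card + r |F| ≤ H.card` (`(r+1).choose r = r + 1`). Let `x` = number of parts with more than one edge; such a part has `r + 1` edges, so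
`H.card = ∑ |B| = P.parts.card + r x` and hence `x ≥ |F|`. `H \ C` contains no copy (every copy in `H` contains a member of `C`), so `|H| - |C| ≤ |H \ C| ≤ al n (r+1) r` (`ES.card_le_al`).
With `A ≤ r` (put `r₀ ≥ A`): `P.parts.card + A x = |H| - (r - A) x ≤ |H| - (r - A)|F| ≤ |H| - |C| ≤ al`. `G` from `ES.exists_al`.
-/

set_option autoImplicit false

open Finset

namespace TZ

theorem exists_std {V : Type*} [DecidableEq V] {k : ℕ} (hk : 3 ≤ k) (TT : Finset (Finset V))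
    (hTT : ∀ T ∈ TT, T.card = k) : ∃ F, Std k TT F := by
  classical
  obtain ⟨F, hF, hmax⟩ := Finset.exists_max_image (TT.powerset.filter (fun F => Pack k F)) card
    ⟨∅, by simp [Pack]⟩
  rw [mem_filter, mem_powerset] at hF
  refine ⟨F, hk, hTT, hF.1, hF.2, fun F' h1 h2 => hmax F' ?_⟩
  rw [mem_filter, mem_powerset]
  exact ⟨h1, h2⟩

theorem tau_main (A : ℕ) : ∃ r₀ : ℕ, ∀ r : ℕ, r₀ ≤ r → ∀ (V : Type) [Fintype V] [DecidableEq V]
    (TT : Finset (Finset V)), (∀ T ∈ TT, T.card = r + 1) →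
      ∃ F ⊆ TT, (∀ S ∈ F, ∀ S' ∈ F, S ≠ S' → (S ∩ S').card < r) ∧
        ∃ C : Finset (Finset V), (∀ c ∈ C, c.card = r) ∧ (∀ T ∈ TT, ∃ c ∈ C, c ⊆ T) ∧
          C.card + A * F.card ≤ r * F.card := by
  obtain ⟨k₀, hk₀⟩ := exists_params A
  refine ⟨k₀ + 3, fun r hr V _ _ TT hTT => ?_⟩
  obtain ⟨s, m, q, hp⟩ := hk₀ (r + 1) (by omega)
  obtain ⟨F, hF⟩ := exists_std (k := r + 1) (by omega) TT hTT
  have key : ∃ C : Finset (Finset V), Cover (r + 1) TT C ∧
      C.card + (A + 1) * F.card ≤ (r + 1) * F.card := by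
    by_cases h : 20 * F.card ≤ m ^ 2
    · exact tau_small hp hF h
    · exact tau_large hp hF (by omega)
  obtain ⟨C, hC, hcard⟩ := key
  refine ⟨F, hF.sub, fun S hS S' hS' hne => ?_, C, fun c hc => ?_, hC.2, ?_⟩
  · have := hF.pack S hS S' hS' hne
    unfold Meet at this
    omega
  · have := hC.1 c hc
    omega
  · rw [add_mul, add_mul, one_mul] at hcard
    omega

theorem es_main (A : ℕ) : ∃ r₀ : ℕ, ∀ r : ℕ, r₀ ≤ r → ∀ (n : ℕ) (H : Finset (Finset (Fin n))),
    (∀ e ∈ H, e.card = r) →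
      ∃ P : Finpartition H,
        (∀ B ∈ P.parts, B.card = 1 ∨ ∃ S : Finset (Fin n), S.card = r + 1 ∧ B = S.powersetCard r) ∧
        ∃ G : Finset (Finset (Fin n)),
          (∀ e ∈ G, e.card = r) ∧
          (∀ S : Finset (Fin n), S.card = r + 1 → ¬ S.powersetCard r ⊆ G) ∧
          (∀ G' : Finset (Finset (Fin n)), (∀ e ∈ G', e.card = r) →
            (∀ S : Finset (Fin n), S.card = r + 1 → ¬ S.powersetCard r ⊆ G') →
              G'.card ≤ G.card) ∧
          P.parts.card + A * (P.parts.filter (fun B => B.card ≠ 1)).card ≤ G.card := by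
  obtain ⟨r₀, hr₀⟩ := tau_main A
  refine ⟨r₀ + A + 1, fun r hr n H hH => ?_⟩
  obtain ⟨F, hFsub, hFp, C, hC1, hC2, hC3⟩ := hr₀ r (by omega) (Fin n) (ES.copies (r + 1) r H)
    (fun T hT => (ES.mem_copies.1 hT).1)
  have hdis : ∀ Q ∈ F, ∀ Q' ∈ F, Q ≠ Q' →
      Disjoint (Q.powersetCard r) (Q'.powersetCard r) := by
    intro Q hQ Q' hQ' hne
    rw [Finset.disjoint_left]
    intro e he he'
    rw [mem_powersetCard] at he he'
    have h1 := card_le_card (subset_inter he.1 he'.1)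
    have h2 := hFp Q hQ Q' hQ' hne
    omega
  obtain ⟨P, hP, hPc⟩ := ES.partition (by omega) (Nat.lt_succ_self r) H F hFsub hdis
  rw [Nat.choose_succ_self_right, Nat.add_sub_cancel] at hPc
  obtain ⟨G, hG, hGc⟩ := ES.exists_al (n := n) (Nat.le_succ r)
  refine ⟨P, hP, G, hG.1, hG.2, fun G' h3 h4 => ?_, ?_⟩
  · rw [hGc]
    exact ES.card_le_al ⟨h3, h4⟩
  · rw [hGc]
    set x := (P.parts.filter (fun B => B.card ≠ 1)).card with hx
    have hsum : H.card = P.parts.card + r * x := by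
      rw [← P.sum_card_parts]
      have h1 : ∀ B ∈ P.parts, B.card = 1 + (if B.card ≠ 1 then r else 0) := by
        intro B hB
        rcases hP B hB with h | ⟨S, hS, h⟩
        · rw [h]
          simp
        · have h2 : B.card = r + 1 := by
            rw [h, card_powersetCard, hS, Nat.choose_succ_self_right]
          rw [h2]
          have h3 : r + 1 ≠ 1 := by omega
          rw [if_pos h3]
          omega
      rw [Finset.sum_congr rfl h1, Finset.sum_add_distrib, Finset.sum_const, smul_eq_mul, mul_one,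
        ← Finset.sum_filter, Finset.sum_const, smul_eq_mul, ← hx, mul_comm x r]
    have hfree : ES.Free (r + 1) r (H \ C) := by
      refine ⟨fun e he => hH e (mem_sdiff.1 he).1, fun S hS hsub => ?_⟩
      have hcop : S ∈ ES.copies (r + 1) r H :=
        ES.mem_copies.2 ⟨hS, fun e he => (mem_sdiff.1 (hsub he)).1⟩
      obtain ⟨c, hc, hcS⟩ := hC2 S hcop
      have h1 := hsub (mem_powersetCard.2 ⟨hcS, hC1 c hc⟩)
      exact (mem_sdiff.1 h1).2 hc
    have h1 := ES.card_le_al hfree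
    have h2 : H.card ≤ (H \ C).card + C.card := by
      have := card_le_card (show H ⊆ (H \ C) ∪ C by
        intro e he
        rw [mem_union, mem_sdiff]
        tauto)
      exact this.trans (card_union_le _ _)
    have hxF : F.card ≤ x := by
      have h3 : r * F.card ≤ r * x := by omega
      exact Nat.le_of_mul_le_mul_left h3 (by omega)
    have h5 : H.card + A * F.card ≤ ES.al n (r + 1) r + r * F.card := by omega
    have harith : ∀ (p a x f r A : ℕ), f ≤ x → A ≤ r → p + r * x + A * f ≤ a + r * f →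
        p + A * x ≤ a := by
      intro p a x f r A h1 h2 h3
      obtain ⟨y, rfl⟩ := Nat.exists_eq_add_of_le h1
      obtain ⟨d, rfl⟩ := Nat.exists_eq_add_of_le h2
      have e1 : (A + d) * (f + y) = (A + d) * f + A * y + d * y := by ring
      have e2 : A * (f + y) = A * f + A * y := by ring
      rw [e1] at h3
      rw [e2]
      omega
    rw [hsum] at h5
    exact harith _ _ _ _ _ _ hxF (by omega) h5

end TZ
end
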